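import Pool.Agent.H40.PC.Dim

/-!
# PC-20 dimension (2)

* `dimc_hyperplane`: the subspace `vectorSpan ℝ F` is proper, so some `η ≠ 0` vanishes on it
  (`Submodule.exists_le_ker_of_lt_top` or `exists_dual_map_eq_bot..`; all linear functionals are continuous:
  `LinearMap.toContinuousLinearMap`); `m = η a` for a fixed `a ∈ F` (`F` empty: any `η ≠ 0`, note
  `0 < finrank E` then).
* `full_of_not_hyper`: contrapositive, `dimc F ≤ finrank E` always.
* `interior_of_dimc`: `affineSpan ℝ F = ⊤`, `Convex.interior_nonempty_iff_affineSpan_eq_top` or similar.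
* `mem_span_of_cross`: `x ≠ p` as `p ∉ affineSpan ℝ F`; `x = (1 - t) p + t y`, `t ≠ 0`, so `y` is on the line through
  `p` and `x`.
* `span_exchange`: `F` empty: `q = p`.  Otherwise fix `a ∈ F`; the direction of `affineSpan (insert p F)` is `D + span {p - a}`, `D = vectorSpan F`, `q - a = d + t (p - a)` with `t ≠ 0`
  (as `q ∉ affineSpan F`), so `p - a ∈ D + span {q - a}`.
* `eq_of_cross`: `x = y + t (p - y)`; if `t ≠ 0` then `p = y + (x - y)/t` is in the affine span of `F`.
-/

namespace Pool.Agent.H40.PC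

open Set Pool.Agent.H61.PO

variable {E : Type*} [NormedAddCommGroup E] [NormedSpace ℝ E] [FiniteDimensional ℝ E]
  {K F G : Set E} {p q x y : E}

theorem dimc_hyperplane (h : dimc F < Module.finrank ℝ E) :
    ∃ (η : E →L[ℝ] ℝ) (m : ℝ), η ≠ 0 ∧ ∀ x ∈ F, η x = m := by
  have hlt : vectorSpan ℝ F < ⊤ := by
    rw [lt_top_iff_ne_top]
    intro heq
    unfold dimc at h
    rw [heq, finrank_top] at h
    exact lt_irrefl _ h
  obtain ⟨f, hf0, hf⟩ := Submodule.exists_le_ker_of_lt_top _ hlt
  have hne : LinearMap.toContinuousLinearMap f ≠ 0 := by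
    intro h0
    apply hf0
    ext x
    have h1 := congrArg (fun g : E →L[ℝ] ℝ => g x) h0
    simpa using h1
  rcases F.eq_empty_or_nonempty with hF | ⟨a, ha⟩
  · exact ⟨LinearMap.toContinuousLinearMap f, 0, hne, by simp [hF]⟩
  · refine ⟨LinearMap.toContinuousLinearMap f, f a, hne, fun x hx => ?_⟩
    have h1 : x - a ∈ LinearMap.ker f := hf (vsub_mem_vectorSpan ℝ hx ha)
    rw [LinearMap.mem_ker, map_sub, sub_eq_zero] at h1
    simpa using h1

theorem full_of_not_hyper (h : ∀ (η : E →L[ℝ] ℝ) (m : ℝ), η ≠ 0 → ∃ x ∈ F, η x ≠ m) :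
    dimc F = Module.finrank ℝ E := by
  by_contra hne
  have hle : dimc F ≤ Module.finrank ℝ E := dimc_le
  obtain ⟨η, m, hη, hm⟩ := dimc_hyperplane (F := F) (lt_of_le_of_ne hle hne)
  obtain ⟨x, hx, hxm⟩ := h η m hη
  exact hxm (hm x hx)

private theorem dimB_top (hn : F.Nonempty) (h : dimc F = Module.finrank ℝ E) :
    affineSpan ℝ F = ⊤ := by
  have h1 : vectorSpan ℝ F = ⊤ := Submodule.eq_top_of_finrank_eq h
  exact (AffineSubspace.affineSpan_eq_top_iff_vectorSpan_eq_top_of_nonempty ℝ E E hn).2 h1

theorem interior_of_dimc (hF : Convex ℝ F) (hn : F.Nonempty) (h : dimc F = Module.finrank ℝ E) :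
    (interior F).Nonempty :=
  hF.interior_nonempty_iff_affineSpan_eq_top.2 (dimB_top hn h)

theorem dimc_of_interior (h : (interior F).Nonempty) : dimc F = Module.finrank ℝ E := by
  have h1 : affineSpan ℝ (interior F) = ⊤ := isOpen_interior.affineSpan_eq_top h
  have h2 : affineSpan ℝ F = ⊤ := by
    rw [eq_top_iff, ← h1]
    exact affineSpan_mono ℝ interior_subset
  have h3 : vectorSpan ℝ F = ⊤ := by
    rw [← direction_affineSpan, h2, AffineSubspace.direction_top]
  unfold dimc
  rw [h3, finrank_top]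

/-- the segment from `p` to `y` meets the affine span of `F`: `y` is in the span of `F` and `p` -/
theorem mem_span_of_cross (hp : p ∉ affineSpan ℝ F) (hx : x ∈ segment ℝ p y)
    (hxF : x ∈ affineSpan ℝ F) : y ∈ affineSpan ℝ (insert p F) := by
  rw [segment_eq_image_lineMap] at hx
  obtain ⟨t, -, rfl⟩ := hx
  have ht : t ≠ 0 := by
    rintro rfl
    rw [AffineMap.lineMap_apply_zero] at hxF
    exact hp hxF
  have hp' : p ∈ affineSpan ℝ (insert p F) := subset_affineSpan ℝ _ (mem_insert p F)
  have hx' : AffineMap.lineMap p y t ∈ affineSpan ℝ (insert p F) :=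
    affineSpan_mono ℝ (subset_insert p F) hxF
  have h1 := AffineMap.lineMap_mem t⁻¹ hp' hx'
  have h2 : AffineMap.lineMap p (AffineMap.lineMap p y t) t⁻¹ = y := by
    simp only [AffineMap.lineMap_apply_module]
    match_scalars <;> field_simp <;> ring
  rwa [h2] at h1

/-- exchange -/
theorem span_exchange (hq : q ∈ affineSpan ℝ (insert p F)) (hqF : q ∉ affineSpan ℝ F) :
    affineSpan ℝ (insert q F) = affineSpan ℝ (insert p F) := by
  rcases F.eq_empty_or_nonempty with rfl | ⟨a, ha⟩
  · have hq' : q = p := by simpa using hq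
    rw [hq']
  · have haF : a ∈ affineSpan ℝ F := subset_affineSpan ℝ _ ha
    have h1 : q ∈ affineSpan ℝ (insert p (affineSpan ℝ F : Set E)) :=
      affineSpan_mono ℝ (insert_subset_insert (subset_affineSpan ℝ F)) hq
    rw [AffineSubspace.mem_affineSpan_insert_iff haF] at h1
    obtain ⟨r, p0, hp0, hqe⟩ := h1
    have hqe' : q = r • (p - a) + p0 := by simpa using hqe
    have hr : r ≠ 0 := by
      rintro rfl
      apply hqF
      rw [hqe', zero_smul, zero_add]
      exact hp0
    apply le_antisymm
    · rw [affineSpan_le]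
      refine insert_subset hq ?_
      exact (subset_insert p F).trans (subset_affineSpan ℝ _)
    · rw [affineSpan_le]
      refine insert_subset ?_ ((subset_insert q F).trans (subset_affineSpan ℝ _))
      have hq2 : q ∈ affineSpan ℝ (insert q F) := subset_affineSpan ℝ _ (mem_insert q F)
      have ha2 : a ∈ affineSpan ℝ (insert q F) :=
        affineSpan_mono ℝ (subset_insert q F) haF
      have hp2 : p0 ∈ affineSpan ℝ (insert q F) :=
        affineSpan_mono ℝ (subset_insert q F) hp0
      have h2 := (affineSpan ℝ (insert q F)).smul_vsub_vadd_mem r⁻¹ hq2 hp2 ha2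
      have h3 : r⁻¹ • (q -ᵥ p0) +ᵥ a = p := by
        rw [hqe', vsub_eq_sub, vadd_eq_add, add_sub_cancel_right, inv_smul_smul₀ hr,
          sub_add_cancel]
      rw [h3] at h2
      exact h2

/-- a segment with one end in and one end outside the span meets it only in the first end -/
theorem eq_of_cross (hy : y ∈ affineSpan ℝ F) (hp : p ∉ affineSpan ℝ F) (hx : x ∈ segment ℝ y p)
    (hxF : x ∈ affineSpan ℝ F) : x = y := by
  rw [segment_eq_image_lineMap] at hx
  obtain ⟨t, -, rfl⟩ := hx
  by_cases ht : t = 0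
  · rw [ht, AffineMap.lineMap_apply_zero]
  · exfalso
    apply hp
    have h1 := AffineMap.lineMap_mem t⁻¹ hy hxF
    have h2 : AffineMap.lineMap y (AffineMap.lineMap y p t) t⁻¹ = p := by
      simp only [AffineMap.lineMap_apply_module]
      match_scalars <;> field_simp <;> ring
    rwa [h2] at h1

end Pool.Agent.H40.PC
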