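import Pool.Agent.H40.PC.Fac

/-!
# PC-06 the smallest face containing a point

`mface K y = ⋂₀ {F | IsFace K F ∧ y ∈ F}`.

* `mface_isFace`: `K` is in the family; `isExtreme_sInter`, `convex_sInter`, closed subset of the compact set `K`, contains `y`.
* `mem_ri_mface`: otherwise `y ∈ rb (mface K y)` (`rb_eq`) and `exists_supp` gives `η` with `Supp (mface K y) η (η y)`;
  `{x ∈ mface K y | η x = η y}` is a face of `mface K y` (`isFace_max`), so of `K`, contains `y`, so it contains `mface K y`: contradiction to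
  `∃ x ∈ mface K y, η x < η y`.
* `mface_eq_of_ri`: `mface K y ⊆ F`; `F ⊆ mface K y` by `sub_of_ri`.
* `mface_ne`: otherwise `y ∈ ri K`.
* `mface_face`: faces of `F` are the faces of `K` contained in `F`; two inclusions by `mface_sub`.
* `mface_max`: `{x ∈ K | η x = η y}` is a face of `K`.
* `mface_supp`: `exists_supp` (`y ∈ rb K`) and `mface_max`.
* `mface_zero`: `mface K y = {y}` (`dimc_zero`), `isFace_singleton`.
-/

namespace Pool.Agent.H40.PC

open Set Pool.Agent.H61.PO

variable {E : Type*} [NormedAddCommGroup E] [NormedSpace ℝ E] [FiniteDimensional ℝ E]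
  {K F G : Set E} {x y : E}

theorem mem_mface (K : Set E) (y : E) : y ∈ mface K y := fun _ hF => hF.2

theorem mface_isFace (hK : Body K) (hy : y ∈ K) : IsFace K (mface K y) := by
  have hne : ({F | IsFace K F ∧ y ∈ F} : Set (Set E)).Nonempty := ⟨K, hK.isFace, hy⟩
  refine ⟨isExtreme_sInter hne fun B hB => hB.1.1, convex_sInter fun B hB => hB.1.2.1, ?_,
    ⟨y, mem_mface K y⟩⟩
  have hcl : IsClosed (mface K y) := isClosed_sInter fun B hB => hB.1.2.2.1.isClosed
  exact hK.2.1.of_isClosed_subset hcl (sInter_subset_of_mem ⟨hK.isFace, hy⟩)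

theorem mface_sub (hF : IsFace K F) (hy : y ∈ F) : mface K y ⊆ F :=
  sInter_subset_of_mem ⟨hF, hy⟩

theorem mem_ri_mface (hK : Body K) (hy : y ∈ K) : y ∈ ri (mface K y) := by
  by_contra hcon
  have h1 := mface_isFace hK hy
  have h2 := h1.body
  have h3 : y ∈ rb (mface K y) := by
    rw [rb_eq h2.2.1.isClosed]
    exact ⟨mem_mface K y, hcon⟩
  obtain ⟨η, h4, x, hx, hlt⟩ := exists_supp h2 h3
  have h5 := isFace_max h2 h4 ⟨y, mem_mface K y, rfl⟩
  have h6 := mface_sub (h1.trans h5) ⟨mem_mface K y, rfl⟩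
  exact hlt.ne (h6 hx).2

theorem mface_eq_of_ri (hF : IsFace K F) (hy : y ∈ ri F) : mface K y = F := by
  apply Subset.antisymm (mface_sub hF (ri_sub hy))
  apply subset_sInter
  intro G hG
  exact sub_of_ri hG.1 hF.sub hF.2.1 hy hG.2

theorem mface_ne (hK : Body K) (hy : y ∈ rb K) : mface K y ≠ K := by
  intro h
  have h1 := mem_ri_mface hK (rb_sub hK hy)
  rw [h] at h1
  rw [rb_eq hK.2.1.isClosed] at hy
  exact hy.2 h1

theorem mface_face (hF : IsFace K F) (hy : y ∈ F) : mface F y = mface K y := by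
  apply Subset.antisymm
  · apply subset_sInter
    intro G hG
    have h1 : IsFace K (F ∩ G) := hF.inter hG.1 ⟨y, hy, hG.2⟩
    have h2 : IsFace F (F ∩ G) := h1.mono hF.sub inter_subset_left
    exact (mface_sub h2 ⟨hy, hG.2⟩).trans inter_subset_right
  · apply subset_sInter
    intro G hG
    exact mface_sub (hF.trans hG.1) hG.2

theorem mface_max (hK : Body K) (hy : y ∈ K) {η : E →L[ℝ] ℝ} (h : ∀ x ∈ K, η x ≤ η y) :
    ∀ x ∈ mface K y, η x = η y := fun _ hx =>
  (mface_sub (isFace_max hK h ⟨y, hy, rfl⟩) ⟨hy, rfl⟩ hx).2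

theorem mface_supp (hK : Body K) (hy : y ∈ rb K) :
    ∃ η : E →L[ℝ] ℝ, Supp K η (η y) ∧ ∀ x ∈ mface K y, η x = η y := by
  obtain ⟨η, h⟩ := exists_supp hK hy
  exact ⟨η, h, mface_max hK (rb_sub hK hy) h.1⟩

theorem mface_zero (hK : Body K) (hy : y ∈ K) (hd : dimc (mface K y) = 0) :
    mface K y = {y} ∧ y ∈ extremePoints ℝ K := by
  obtain ⟨x, hx⟩ := dimc_zero hd ⟨y, mem_mface K y⟩
  have h1 := mem_mface K y
  rw [hx, mem_singleton_iff] at h1
  subst h1
  refine ⟨hx, isFace_singleton.1 ?_⟩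
  rw [← hx]
  exact mface_isFace hK hy

end Pool.Agent.H40.PC
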