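import Pool.Agent.H40.PC.Hul

/-!
# PC-21 slices, separation

* `slice`: `A = K \ interior O` is compact, `x ∉ convexHull A` by `ext_mem_of_hull`, `convexHull A` is compact (`hull_compact`) and convex:
  `geometric_hahn_banach_point_closed` (or `compact_closed`) gives `η`, `c` with `c < η x` and `η < c` on `A`.
* `ext_near`: `N = {y | c < η y}` for the slice; if `y ∈ K ∩ N` and all extreme points `e` of `mface K y` had `η e < c` then `η y ≤ c`, since
  `y ∈ mface K y = convexHull (ext (mface K y))` (`sub_of_ext` with the half space).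
* `sep_seg`: `geometric_hahn_banach_compact_closed` or `geometric_hahn_banach_closed_compact` for the segment (compact, convex) and `C`.
-/

namespace Pool.Agent.H40.PC

open Set Topology Pool.Agent.H61.PO

variable {E : Type*} [NormedAddCommGroup E] [NormedSpace ℝ E] [FiniteDimensional ℝ E]
  {K F G C A : Set E} {x y p q : E}

theorem slice (hK : Body K) (hx : x ∈ extremePoints ℝ K) {O : Set E} (hO : O ∈ 𝓝 x) :
    ∃ (η : E →L[ℝ] ℝ) (c : ℝ), c < η x ∧ ∀ y ∈ K, c ≤ η y → y ∈ O := by
  have hxO : x ∈ interior O := mem_interior_iff_mem_nhds.2 hO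
  have hA : IsCompact (K \ interior O) := hK.2.1.diff isOpen_interior
  have hc : IsClosed (convexHull ℝ (K \ interior O)) := (hull_compact hA).isClosed
  have hn : x ∉ convexHull ℝ (K \ interior O) := fun h =>
    (ext_mem_of_hull hK.1 hx sdiff_subset h).2 hxO
  obtain ⟨η, c, h1, h2⟩ := geometric_hahn_banach_closed_point (convex_convexHull ℝ _) hc hn
  refine ⟨η, c, h2, fun y hy hcy => ?_⟩
  by_contra hyO
  have : y ∈ K \ interior O := ⟨hy, fun h => hyO (interior_subset h)⟩
  exact absurd (h1 y (subset_convexHull ℝ _ this)) (not_lt.2 hcy)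

/-- near an extreme point `x` the smallest faces have extreme points near `x` -/
theorem ext_near (hK : Body K) (hx : x ∈ extremePoints ℝ K) {O : Set E} (hO : O ∈ 𝓝 x) :
    ∃ N ∈ 𝓝 x, ∀ y ∈ K ∩ N, ∃ e ∈ extremePoints ℝ (mface K y), e ∈ O := by
  obtain ⟨η, c, h1, h2⟩ := slice hK hx hO
  refine ⟨{y | c < η y}, (isOpen_lt continuous_const η.continuous).mem_nhds h1, ?_⟩
  rintro y ⟨hyK, hyN⟩
  by_contra hno
  push Not at hno
  have hF := mface_isFace hK hyK
  have hconv : Convex ℝ {z : E | η z < c} := convex_halfSpace_lt η.isLinear c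
  have hsub : mface K y ⊆ {z : E | η z < c} := by
    refine sub_of_ext hF.body hconv fun e he => ?_
    by_contra hec
    exact hno e he (h2 e (hF.sub (extremePoints_subset he)) (not_lt.1 hec))
  have h3 : η y < c := hsub (mem_mface K y)
  exact absurd h3 (not_lt.2 (le_of_lt hyN))

/-- a segment which misses the compact convex set `C` is in an open half space disjoint from `C` -/
theorem sep_seg (hC : Body C) (h : Disjoint (segment ℝ p q) C) :
    ∃ (η : E →L[ℝ] ℝ) (c : ℝ), (∀ x ∈ C, η x < c) ∧ c < η p ∧ c < η q := by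
  have hs : IsCompact (segment ℝ p q) := by
    rw [← convexHull_pair]
    exact (Set.toFinite {p, q}).isCompact_convexHull (𝕜 := ℝ)
  obtain ⟨η, u, v, h1, h2, h3⟩ := geometric_hahn_banach_closed_compact hC.1 hC.2.1.isClosed
    (convex_segment p q) hs h.symm
  exact ⟨η, u, h1, h2.trans (h3 p (left_mem_segment ℝ p q)),
    h2.trans (h3 q (right_mem_segment ℝ p q))⟩

end Pool.Agent.H40.PC
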