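import Pool.Agent.H61.PO.Triv

/-!
# PC-15 arc points (topology only)

`X` is a Hausdorff space, so images of compact sets under continuous maps are closed.

* `SCC.arcPt`: `γ = σ ∪ τ`, `σ = α '' [0,1]`, `τ = β '' [0,1]`, `α 0 = β 0 = p`, `α 1 = β 1 = q`, `σ ∩ τ = {p, q}`.
  Case `x = α u`, `0 < u < 1`: `δ = min u (1 - u) / 2`, `t ↦ α (u + δ t)` on `[-1,1]`; the rest of `γ` is `τ ∪ α '' [0, u - δ] ∪ α '' [u + δ, 1]` (closed; `τ` meets `σ` only in `p, q`).
  Case `x = β u`: the same with the roles of `σ`, `τ` exchanged (state a lemma for `IsArc σ`, `IsArc τ`).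
  Case `x = p`: `t ↦ α (t/2)` for `t ≥ 0`, `β (-t/2)` for `t ≤ 0` (they agree at `0`: `ContinuousOn.if` or `IsClosed` pasting; injective: `α s = β s'` with `s, s' < 1` only for
  `s = s' = 0`); the rest of `γ` is `α '' [1/2, 1] ∪ β '' [1/2, 1]`.
  Case `x = q`: reverse both arcs (`α (1 - t)`).
* `ArcPt.union`: `x ∉ B`, `B` closed.  Take `0 < δ ≤ 1` with `α '' [-δ, δ]` disjoint from `B` (`α` continuous at `0` on `[-1,1]`, use `δ < 1`), `t ↦ α (δ t)`; `(A ∪ B)` minus the image of the open interval is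
  `(A \ α '' (-1,1)) ∪ α '' [-1, -δ] ∪ α '' [δ, 1] ∪ B`, closed.
* `ArcPt.image`: `φ` continuous and injective on the compact set `A`; `φ '' A \ φ '' α '' (-1,1) = φ '' (A \ α '' (-1,1))`, the image of a compact set.
-/

namespace Pool.Agent.H61.PO

open Set Topology

variable {X : Type*} [TopologicalSpace X] [T2Space X]

private theorem arcpt_phi {a b c : ℝ} (h1 : a < c) (h2 : c < b) :
    ∃ φ : ℝ → ℝ, Continuous φ ∧ StrictMono φ ∧ φ (-1) = a ∧ φ 0 = c ∧ φ 1 = b := by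
  refine ⟨fun t => c + max t 0 * (b - c) + min t 0 * (c - a), by fun_prop, ?_, ?_, ?_, ?_⟩
  · intro s t hst
    show c + max s 0 * (b - c) + min s 0 * (c - a) < c + max t 0 * (b - c) + min t 0 * (c - a)
    rcases le_total s 0 with hs | hs <;> rcases le_total t 0 with ht | ht
    · rw [max_eq_right hs, max_eq_right ht, min_eq_left hs, min_eq_left ht]
      nlinarith
    · rw [max_eq_right hs, max_eq_left ht, min_eq_left hs, min_eq_right ht]
      rcases hs.lt_or_eq with h | h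
      · nlinarith [mul_nonneg ht (sub_pos.2 h2).le, mul_pos (neg_pos.2 h) (sub_pos.2 h1)]
      · rw [h] at hst ⊢
        nlinarith [mul_pos hst (sub_pos.2 h2)]
    · linarith
    · rw [max_eq_left hs, max_eq_left ht, min_eq_right hs, min_eq_right ht]
      nlinarith
  · show c + max (-1) 0 * (b - c) + min (-1) 0 * (c - a) = a
    rw [max_eq_right (by norm_num), min_eq_left (by norm_num)]
    ring
  · show c + max 0 0 * (b - c) + min 0 0 * (c - a) = c
    simp
  · show c + max 1 0 * (b - c) + min 1 0 * (c - a) = b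
    rw [max_eq_left (by norm_num), min_eq_right (by norm_num)]
    ring

private theorem arcpt_crit {A : Set X} {α : ℝ → X} {a b c : ℝ} (h1 : a < c) (h2 : c < b)
    (hc : ContinuousOn α (Icc a b)) (hi : InjOn α (Icc a b)) (hA : α '' Icc a b ⊆ A)
    (hcl : IsClosed (A \ α '' Ioo a b)) : ArcPt A (α c) := by
  obtain ⟨φ, hφ, hm, e1, e0, e2⟩ := arcpt_phi h1 h2
  have hmaps : MapsTo φ (Icc (-1) 1) (Icc a b) := by
    intro t ht
    rw [← e1, ← e2]
    exact ⟨hm.monotone ht.1, hm.monotone ht.2⟩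
  have himg : φ '' Ioo (-1) 1 = Ioo a b := by
    apply Subset.antisymm
    · rintro _ ⟨t, ht, rfl⟩
      rw [← e1, ← e2]
      exact ⟨hm ht.1, hm ht.2⟩
    · intro y hy
      have h3 : Icc (φ (-1)) (φ 1) ⊆ φ '' Icc (-1) 1 :=
        intermediate_value_Icc (by norm_num) hφ.continuousOn
      rw [e1, e2] at h3
      obtain ⟨t, ht, hty⟩ := h3 ⟨hy.1.le, hy.2.le⟩
      refine ⟨t, ⟨?_, ?_⟩, hty⟩
      · rw [← hm.lt_iff_lt, e1, hty]
        exact hy.1
      · rw [← hm.lt_iff_lt, e2, hty]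
        exact hy.2
  refine ⟨fun t => α (φ t), hc.comp hφ.continuousOn hmaps, ?_, ?_, ?_, ?_⟩
  · intro s hs t ht hst
    exact hm.injective (hi (hmaps hs) (hmaps ht) hst)
  · show α (φ 0) = α c
    rw [e0]
  · rintro _ ⟨t, ht, rfl⟩
    exact hA ⟨φ t, hmaps ht, rfl⟩
  · have h3 : (fun t => α (φ t)) '' Ioo (-1) 1 = α '' Ioo a b := by
      rw [← himg, image_image]
    rw [h3]
    exact hcl

/-- interior points of the first arc -/
private theorem arcpt_mid {σ τ : Set X} {p q : X} {α : ℝ → X} (hc : ContinuousOn α (Icc 0 1))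
    (hi : InjOn α (Icc 0 1)) (hσ : σ = α '' Icc 0 1) (h0 : α 0 = p) (h1 : α 1 = q)
    (hτ : IsArc τ p q) (hst : σ ∩ τ = {p, q}) {u : ℝ} (hu : u ∈ Ioo (0:ℝ) 1) :
    ArcPt (σ ∪ τ) (α u) := by
  refine arcpt_crit hu.1 hu.2 hc hi ?_ ?_
  · rw [← hσ]
    exact subset_union_left
  · have h2 : (σ ∪ τ) \ α '' Ioo 0 1 = τ := by
      apply Subset.antisymm
      · rintro x ⟨hx | hx, hx2⟩
        · rw [hσ] at hx
          obtain ⟨s, hs, rfl⟩ := hx
          rcases hs.1.eq_or_lt with h3 | h3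
          · rw [← h3, h0]
            exact hτ.mem.1
          · rcases hs.2.eq_or_lt with h4 | h4
            · rw [h4, h1]
              exact hτ.mem.2.1
            · exact absurd ⟨s, ⟨h3, h4⟩, rfl⟩ hx2
        · exact hx
      · intro x hx
        refine ⟨Or.inr hx, ?_⟩
        rintro ⟨s, hs, rfl⟩
        have h3 : α s ∈ σ ∩ τ := ⟨by
          rw [hσ]
          exact ⟨s, ⟨hs.1.le, hs.2.le⟩, rfl⟩, hx⟩
        rw [hst] at h3
        rcases h3 with h3 | h3
        · rw [← h0] at h3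
          have h4 := hi ⟨hs.1.le, hs.2.le⟩ ⟨le_rfl, zero_le_one⟩ h3
          exact absurd h4 hs.1.ne'
        · have h3' : α s = α 1 := by
            rw [h1]
            exact h3
          have h4 := hi ⟨hs.1.le, hs.2.le⟩ ⟨zero_le_one, le_rfl⟩ h3'
          exact absurd h4 hs.2.ne
    rw [h2]
    exact hτ.compact.isClosed

/-- the first end point -/
private theorem arcpt_end {σ τ : Set X} {p q : X} (hσ : IsArc σ p q) (hτ : IsArc τ p q)
    (hst : σ ∩ τ = {p, q}) : ArcPt (σ ∪ τ) p := by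
  obtain ⟨α, ac, ai, rfl, a0, a1⟩ := hσ
  obtain ⟨β, bc, bi, rfl, b0, b1⟩ := hτ
  have hpq : p ≠ q := by
    intro h
    rw [← a0, ← a1] at h
    exact zero_ne_one (ai ⟨le_rfl, zero_le_one⟩ ⟨zero_le_one, le_rfl⟩ h)
  have hab : α 0 = β 0 := a0.trans b0.symm
  -- common points
  have key : ∀ s ∈ Icc (0:ℝ) 1, ∀ t ∈ Icc (0:ℝ) 1, α s = β t → (s = 0 ∧ t = 0) ∨ (s = 1 ∧ t = 1) := by
    intro s hs t ht h
    have h1 : α s ∈ α '' Icc 0 1 ∩ β '' Icc 0 1 := ⟨⟨s, hs, rfl⟩, ⟨t, ht, h.symm⟩⟩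
    rw [hst] at h1
    rcases h1 with h1 | h1
    · left
      refine ⟨ai hs ⟨le_rfl, zero_le_one⟩ (h1.trans a0.symm), ?_⟩
      exact bi ht ⟨le_rfl, zero_le_one⟩ (h.symm.trans (h1.trans b0.symm))
    · right
      have h1' : α s = q := h1
      refine ⟨ai hs ⟨zero_le_one, le_rfl⟩ (h1'.trans a1.symm), ?_⟩
      exact bi ht ⟨zero_le_one, le_rfl⟩ (h.symm.trans (h1'.trans b1.symm))
  let ε : ℝ → X := fun t => if 0 ≤ t then α t else β (-t)
  have εp : ∀ t, 0 ≤ t → ε t = α t := fun t ht => if_pos ht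
  have εn : ∀ t, t ≤ 0 → ε t = β (-t) := by
    intro t ht
    rcases ht.eq_or_lt with h | h
    · rw [h, neg_zero, ← hab]
      exact if_pos le_rfl
    · exact if_neg (not_le.2 h)
  have hcont : ContinuousOn ε (Icc (-1) 1) := by
    have h1 : ContinuousOn ε (Icc (-1) 0) := by
      have h2 : ContinuousOn (fun t => β (-t)) (Icc (-1) 0) :=
        bc.comp continuous_neg.continuousOn fun t ht => ⟨by linarith [ht.2], by linarith [ht.1]⟩
      exact h2.congr fun t ht => εn t ht.2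
    have h2 : ContinuousOn ε (Icc 0 1) := ac.congr fun t ht => εp t ht.1
    have h3 := h1.union_of_isClosed h2 isClosed_Icc isClosed_Icc
    rwa [Icc_union_Icc_eq_Icc (by norm_num) (by norm_num)] at h3
  have hinj : InjOn ε (Ioo (-1) 1) := by
    intro s hs t ht hst'
    rcases le_total 0 s with h1 | h1 <;> rcases le_total 0 t with h2 | h2
    · rw [εp s h1, εp t h2] at hst'
      exact ai ⟨h1, hs.2.le⟩ ⟨h2, ht.2.le⟩ hst'
    · rw [εp s h1, εn t h2] at hst'
      rcases key s ⟨h1, hs.2.le⟩ (-t) ⟨by linarith, by linarith [ht.1]⟩ hst' with h3 | h3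
      · linarith [h3.1, h3.2]
      · linarith [h3.1, hs.2]
    · rw [εn s h1, εp t h2] at hst'
      rcases key t ⟨h2, ht.2.le⟩ (-s) ⟨by linarith, by linarith [hs.1]⟩ hst'.symm with h3 | h3
      · linarith [h3.1, h3.2]
      · linarith [h3.1, ht.2]
    · rw [εn s h1, εn t h2] at hst'
      have := bi ⟨by linarith, by linarith [hs.1]⟩ ⟨by linarith, by linarith [ht.1]⟩ hst'
      linarith
  have e0 : ε 0 = p := (εp 0 le_rfl).trans a0
  rw [← e0]
  have sub1 : Icc (-(1/2):ℝ) (1/2) ⊆ Icc (-1) 1 := Icc_subset_Icc (by norm_num) (by norm_num)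
  have sub2 : Icc (-(1/2):ℝ) (1/2) ⊆ Ioo (-1) 1 := fun t ht =>
    ⟨by linarith [ht.1], by linarith [ht.2]⟩
  refine arcpt_crit (a := -(1/2)) (b := 1/2) (by norm_num) (by norm_num) (hcont.mono sub1)
    (hinj.mono sub2) ?_ ?_
  · rintro _ ⟨t, ht, rfl⟩
    rcases le_total 0 t with h | h
    · rw [εp t h]
      exact Or.inl ⟨t, ⟨h, by linarith [ht.2]⟩, rfl⟩
    · rw [εn t h]
      exact Or.inr ⟨-t, ⟨by linarith, by linarith [ht.1]⟩, rfl⟩
  · have h1 : (α '' Icc 0 1 ∪ β '' Icc 0 1) \ ε '' Ioo (-(1/2)) (1/2) =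
        α '' Icc (1/2) 1 ∪ β '' Icc (1/2) 1 := by
      apply Subset.antisymm
      · rintro x ⟨⟨s, hs, rfl⟩ | ⟨s, hs, rfl⟩, hx2⟩
        · left
          refine ⟨s, ⟨?_, hs.2⟩, rfl⟩
          by_contra h2
          exact hx2 ⟨s, ⟨by linarith [hs.1], not_le.1 h2⟩, εp s hs.1⟩
        · right
          refine ⟨s, ⟨?_, hs.2⟩, rfl⟩
          by_contra h2
          refine hx2 ⟨-s, ⟨by linarith [not_le.1 h2], by linarith [hs.1]⟩, ?_⟩
          rw [εn (-s) (by linarith [hs.1]), neg_neg]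
      · rintro x (⟨s, hs, rfl⟩ | ⟨s, hs, rfl⟩)
        · refine ⟨Or.inl ⟨s, ⟨by linarith [hs.1], hs.2⟩, rfl⟩, ?_⟩
          rintro ⟨t, ht, h2⟩
          rcases le_total 0 t with h | h
          · rw [εp t h] at h2
            have := ai ⟨h, by linarith [ht.2]⟩ ⟨by linarith [hs.1], hs.2⟩ h2
            linarith [ht.2, hs.1]
          · rw [εn t h] at h2
            rcases key s ⟨by linarith [hs.1], hs.2⟩ (-t) ⟨by linarith, by linarith [ht.1]⟩
              h2.symm with h3 | h3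
            · linarith [h3.1, hs.1]
            · linarith [h3.2, ht.1]
        · refine ⟨Or.inr ⟨s, ⟨by linarith [hs.1], hs.2⟩, rfl⟩, ?_⟩
          rintro ⟨t, ht, h2⟩
          rcases le_total 0 t with h | h
          · rw [εp t h] at h2
            rcases key t ⟨h, by linarith [ht.2]⟩ s ⟨by linarith [hs.1], hs.2⟩ h2 with h3 | h3
            · linarith [h3.2, hs.1]
            · linarith [h3.1, ht.2]
          · rw [εn t h] at h2
            have := bi ⟨by linarith, by linarith [ht.1]⟩ ⟨by linarith [hs.1], hs.2⟩ h2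
            linarith [ht.1, hs.1]
    rw [h1]
    have sub3 : Icc (1/2:ℝ) 1 ⊆ Icc 0 1 := Icc_subset_Icc (by norm_num) le_rfl
    exact ((isCompact_Icc.image_of_continuousOn (ac.mono sub3)).union
      (isCompact_Icc.image_of_continuousOn (bc.mono sub3))).isClosed

theorem SCC.arcPt {γ : Set X} (h : SCC γ) {x : X} (hx : x ∈ γ) : ArcPt γ x := by
  obtain ⟨p, q, σ, τ, hσ, hτ, hst, rfl⟩ := h
  have hst' : τ ∩ σ = {p, q} := by rw [inter_comm, hst]
  have hend : x = p ∨ x = q → ArcPt (σ ∪ τ) x := by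
    rintro (rfl | rfl)
    · exact arcpt_end hσ hτ hst
    · refine arcpt_end hσ.symm hτ.symm ?_
      rw [hst, pair_comm]
  rcases hx with hx | hx
  · have hσ' := hσ
    obtain ⟨α, ac, ai, hα, a0, a1⟩ := hσ'
    rw [hα] at hx
    obtain ⟨u, hu, rfl⟩ := hx
    rcases hu.1.eq_or_lt with h1 | h1
    · exact hend (Or.inl (by rw [← h1, a0]))
    · rcases hu.2.eq_or_lt with h2 | h2
      · exact hend (Or.inr (by rw [h2, a1]))
      · exact arcpt_mid ac ai hα a0 a1 hτ hst ⟨h1, h2⟩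
  · have hτ' := hτ
    obtain ⟨β, bc, bi, hβ, b0, b1⟩ := hτ'
    rw [hβ] at hx
    obtain ⟨u, hu, rfl⟩ := hx
    rcases hu.1.eq_or_lt with h1 | h1
    · exact hend (Or.inl (by rw [← h1, b0]))
    · rcases hu.2.eq_or_lt with h2 | h2
      · exact hend (Or.inr (by rw [h2, b1]))
      · rw [union_comm]
        exact arcpt_mid bc bi hβ b0 b1 hσ hst' ⟨h1, h2⟩

theorem ArcPt.union {A B : Set X} {x : X} (h : ArcPt A x) (hB : IsClosed B) (hx : x ∉ B) :
    ArcPt (A ∪ B) x := by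
  obtain ⟨α, ac, ai, rfl, aA, acl⟩ := h
  have hcat : ContinuousAt α 0 := ac.continuousAt (Icc_mem_nhds (by norm_num) (by norm_num))
  obtain ⟨ε, hε, hεB⟩ := Metric.mem_nhds_iff.1
    (hcat.preimage_mem_nhds (hB.isOpen_compl.mem_nhds hx))
  obtain ⟨δ, hδ0, hδ1, hδε⟩ : ∃ δ : ℝ, 0 < δ ∧ δ < 1 ∧ δ < ε :=
    ⟨min (ε / 2) (1 / 2), by positivity, by
      have := min_le_right (ε / 2) (1 / 2 : ℝ)
      linarith, by
      have := min_le_left (ε / 2) (1 / 2 : ℝ)
      linarith⟩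
  have hdis : ∀ t ∈ Icc (-δ) δ, α t ∉ B := by
    intro t ht
    have h1 : t ∈ Metric.ball (0:ℝ) ε := by
      rw [Metric.mem_ball, Real.dist_eq, sub_zero, abs_lt]
      constructor <;> linarith [ht.1, ht.2]
    exact hεB h1
  have sub1 : Icc (-δ) δ ⊆ Icc (-1) 1 := Icc_subset_Icc (by linarith) (by linarith)
  have sub2 : Ioo (-δ) δ ⊆ Ioo (-1) 1 := Ioo_subset_Ioo (by linarith) (by linarith)
  refine arcpt_crit (a := -δ) (b := δ) (by linarith) hδ0 (ac.mono sub1) (ai.mono sub1) ?_ ?_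
  · exact ((image_mono sub1).trans aA).trans subset_union_left
  · have h1 : (A ∪ B) \ α '' Ioo (-δ) δ =
        ((A \ α '' Ioo (-1) 1) ∪ (α '' Icc (-1) (-δ) ∪ α '' Icc δ 1)) ∪ B := by
      apply Subset.antisymm
      · rintro y ⟨hy | hy, hy2⟩
        · left
          by_cases h2 : y ∈ α '' Ioo (-1) 1
          · right
            obtain ⟨s, hs, rfl⟩ := h2
            rcases le_or_gt s (-δ) with h3 | h3
            · left
              exact ⟨s, ⟨hs.1.le, h3⟩, rfl⟩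
            · rcases le_or_gt δ s with h4 | h4
              · right
                exact ⟨s, ⟨h4, hs.2.le⟩, rfl⟩
              · exact absurd ⟨s, ⟨h3, h4⟩, rfl⟩ hy2
          · left
            exact ⟨hy, h2⟩
        · right
          exact hy
      · rintro y ((hy | (⟨s, hs, rfl⟩ | ⟨s, hs, rfl⟩)) | hy)
        · exact ⟨Or.inl hy.1, fun h2 => hy.2 (image_mono sub2 h2)⟩
        · have hs' : s ∈ Icc (-1:ℝ) 1 := ⟨hs.1, by linarith [hs.2]⟩
          refine ⟨Or.inl (aA ⟨s, hs', rfl⟩), ?_⟩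
          rintro ⟨t, ht, h2⟩
          have h3 := ai (sub1 ⟨ht.1.le, ht.2.le⟩) hs' h2
          linarith [ht.1, hs.2]
        · have hs' : s ∈ Icc (-1:ℝ) 1 := ⟨by linarith [hs.1], hs.2⟩
          refine ⟨Or.inl (aA ⟨s, hs', rfl⟩), ?_⟩
          rintro ⟨t, ht, h2⟩
          have h3 := ai (sub1 ⟨ht.1.le, ht.2.le⟩) hs' h2
          linarith [ht.2, hs.1]
        · refine ⟨Or.inr hy, ?_⟩
          rintro ⟨t, ht, rfl⟩
          exact hdis t ⟨ht.1.le, ht.2.le⟩ hy
    rw [h1]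
    refine (acl.union (IsCompact.isClosed ?_)).union hB
    exact (isCompact_Icc.image_of_continuousOn
        (ac.mono (Icc_subset_Icc le_rfl (by linarith)))).union
      (isCompact_Icc.image_of_continuousOn (ac.mono (Icc_subset_Icc (by linarith) le_rfl)))

theorem ArcPt.image {Z : Type*} [TopologicalSpace Z] [T2Space Z] {A : Set X} {x : X}
    (h : ArcPt A x) (hA : IsCompact A) {φ : X → Z} (hφ : ContinuousOn φ A) (hi : InjOn φ A) :
    ArcPt (φ '' A) (φ x) := by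
  obtain ⟨α, ac, ai, rfl, aA, acl⟩ := h
  have hmaps : MapsTo α (Icc (-1) 1) A := fun t ht => aA ⟨t, ht, rfl⟩
  refine ⟨fun t => φ (α t), hφ.comp ac hmaps, ?_, rfl, ?_, ?_⟩
  · intro s hs t ht hst
    exact ai hs ht (hi (hmaps hs) (hmaps ht) hst)
  · rintro _ ⟨t, ht, rfl⟩
    exact ⟨α t, hmaps ht, rfl⟩
  · have h1 : φ '' A \ (fun t => φ (α t)) '' Ioo (-1) 1 = φ '' (A \ α '' Ioo (-1) 1) := by
      apply Subset.antisymm
      · rintro _ ⟨⟨y, hy, rfl⟩, hy2⟩
        refine ⟨y, ⟨hy, ?_⟩, rfl⟩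
        rintro ⟨t, ht, rfl⟩
        exact hy2 ⟨t, ht, rfl⟩
      · rintro _ ⟨y, ⟨hy, hy2⟩, rfl⟩
        refine ⟨⟨y, hy, rfl⟩, ?_⟩
        rintro ⟨t, ht, h2⟩
        have h3 := hi (hmaps ⟨ht.1.le, ht.2.le⟩) hy h2
        exact hy2 ⟨t, ht, h3⟩
    rw [h1]
    have h2 : IsCompact (A \ α '' Ioo (-1) 1) := hA.of_isClosed_subset acl sdiff_subset
    exact (h2.image_of_continuousOn (hφ.mono sdiff_subset)).isClosed

end Pool.Agent.H61.PO
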