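import Pool.Agent.H40.PC.Defs

/-!
# PC-04 dimension (1)

`dimc F = finrank (vectorSpan ℝ F)`.

* `dimc_lt`: `vectorSpan ℝ F` lies in the kernel of `η` (differences of points of `F`), `vectorSpan ℝ G` does not
  (`F ⊆ G`, `F` not empty, `x ∈ G` with `η x ≠ m`); `Submodule.finrank_lt_finrank_of_lt`.
* `dimc_union_le`: fix `a ∈ F`, `b ∈ G`: `vectorSpan (F ∪ G) ≤ vectorSpan F + vectorSpan G + span {b - a}`;
  `dimc_union_le'` with `a = b`.  `dimc_insert`: the case `F = {p}` if `F` is not empty, else trivial.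
* `dimc_zero`: `vectorSpan ℝ F = ⊥` (`vectorSpan_eq_bot_iff_subsingleton` or similar).
* `dimc_affineSpan`, `dimc_convexHull`: `direction_affineSpan`, `affineSpan_convexHull` (or `convexHull_subset_affineSpan`).
-/

namespace Pool.Agent.H40.PC

open Set Pool.Agent.H61.PO

variable {E : Type*} [NormedAddCommGroup E] [NormedSpace ℝ E] [FiniteDimensional ℝ E]
  {K F G : Set E} {p q x y : E}

theorem dimc_mono (h : F ⊆ G) : dimc F ≤ dimc G :=
  Submodule.finrank_mono (vectorSpan_mono ℝ h)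

theorem dimc_le : dimc F ≤ Module.finrank ℝ E := Submodule.finrank_le _

theorem dimc_lt (h : F ⊆ G) (hn : F.Nonempty) {η : E →L[ℝ] ℝ} {m : ℝ} (h1 : ∀ x ∈ F, η x = m)
    (h2 : ∃ x ∈ G, η x ≠ m) : dimc F < dimc G := by
  apply Submodule.finrank_lt_finrank_of_lt
  refine lt_of_le_of_ne (vectorSpan_mono ℝ h) fun heq => ?_
  obtain ⟨a, ha⟩ := hn
  obtain ⟨x, hx, hxm⟩ := h2
  have h3 : x - a ∈ vectorSpan ℝ G := vsub_mem_vectorSpan ℝ hx (h ha)
  rw [← heq] at h3
  have h4 : vectorSpan ℝ F ≤ LinearMap.ker (η : E →ₗ[ℝ] ℝ) := by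
    rw [vectorSpan_def, Submodule.span_le]
    rintro _ ⟨u, hu, v, hv, rfl⟩
    simp [h1 u hu, h1 v hv]
  have h5 := h4 h3
  rw [LinearMap.mem_ker, map_sub, sub_eq_zero] at h5
  apply hxm
  have h6 : η x = η a := h5
  rw [h6, h1 a ha]

/-- the common part of the two bounds for a union -/
private theorem dimAux_union {a b : E} (ha : a ∈ F) (hb : b ∈ G) {T : Submodule ℝ E}
    (hF : vectorSpan ℝ F ≤ T) (hG : vectorSpan ℝ G ≤ T) (hab : b - a ∈ T) :
    vectorSpan ℝ (F ∪ G) ≤ T := by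
  rw [vectorSpan_eq_span_vsub_set_right ℝ (show a ∈ F ∪ G from Or.inl ha), Submodule.span_le]
  rintro _ ⟨u, hu | hu, rfl⟩
  · exact hF (vsub_mem_vectorSpan ℝ hu ha)
  · have h1 : u - b ∈ T := hG (vsub_mem_vectorSpan ℝ hu hb)
    have h2 : u - a = (u - b) + (b - a) := by abel
    show u - a ∈ T
    rw [h2]
    exact T.add_mem h1 hab

theorem dimc_union_le (hF : F.Nonempty) (hG : G.Nonempty) : dimc (F ∪ G) ≤ dimc F + dimc G + 1 := by
  obtain ⟨a, ha⟩ := hF
  obtain ⟨b, hb⟩ := hG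
  have h1 : vectorSpan ℝ (F ∪ G) ≤ (vectorSpan ℝ F ⊔ vectorSpan ℝ G) ⊔ Submodule.span ℝ {b - a} :=
    dimAux_union ha hb (le_sup_left.trans le_sup_left) (le_sup_right.trans le_sup_left)
      (le_sup_right (a := vectorSpan ℝ F ⊔ vectorSpan ℝ G) (Submodule.mem_span_singleton_self _))
  have h2 := Submodule.finrank_mono h1
  have h3 := Submodule.finrank_add_le_finrank_add_finrank (vectorSpan ℝ F ⊔ vectorSpan ℝ G)
    (Submodule.span ℝ {b - a})
  have h4 := Submodule.finrank_add_le_finrank_add_finrank (vectorSpan ℝ F) (vectorSpan ℝ G)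
  have h5 : Module.finrank ℝ (Submodule.span ℝ {b - a}) ≤ 1 := by
    simpa using finrank_span_le_card (R := ℝ) ({b - a} : Set E)
  unfold dimc
  omega

theorem dimc_union_le' (h : (F ∩ G).Nonempty) : dimc (F ∪ G) ≤ dimc F + dimc G := by
  obtain ⟨a, ha, hb⟩ := h
  have h1 : vectorSpan ℝ (F ∪ G) ≤ vectorSpan ℝ F ⊔ vectorSpan ℝ G :=
    dimAux_union ha hb le_sup_left le_sup_right (by rw [sub_self]; exact Submodule.zero_mem _)
  have h2 := Submodule.finrank_mono h1
  have h4 := Submodule.finrank_add_le_finrank_add_finrank (vectorSpan ℝ F) (vectorSpan ℝ G)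
  unfold dimc
  omega

theorem dimc_singleton (x : E) : dimc ({x} : Set E) = 0 := by
  unfold dimc
  rw [vectorSpan_singleton]
  simp

theorem dimc_insert (F : Set E) (p : E) : dimc (insert p F) ≤ dimc F + 1 := by
  rcases F.eq_empty_or_nonempty with rfl | hF
  · rw [insert_empty_eq, dimc_singleton]
    exact Nat.zero_le _
  · have h := dimc_union_le (singleton_nonempty p) hF
    rw [dimc_singleton, singleton_union] at h
    omega

theorem dimc_zero (h : dimc F = 0) (hn : F.Nonempty) : ∃ x, F = {x} := by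
  obtain ⟨a, ha⟩ := hn
  refine ⟨a, eq_singleton_iff_unique_mem.2 ⟨ha, fun x hx => ?_⟩⟩
  have h1 : vectorSpan ℝ F = ⊥ := Submodule.finrank_eq_zero.1 h
  have h2 : x - a ∈ vectorSpan ℝ F := vsub_mem_vectorSpan ℝ hx ha
  rw [h1, Submodule.mem_bot, sub_eq_zero] at h2
  exact h2

theorem dimc_affineSpan : dimc (affineSpan ℝ F : Set E) = dimc F := by
  have h : vectorSpan ℝ (affineSpan ℝ F : Set E) = vectorSpan ℝ F := direction_affineSpan ℝ F
  unfold dimc
  rw [h]

theorem dimc_convexHull : dimc (convexHull ℝ F) = dimc F := by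
  rw [← dimc_affineSpan (F := convexHull ℝ F), affineSpan_convexHull, dimc_affineSpan]

end Pool.Agent.H40.PC
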