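import Pool.Agent.H40.PC.Rad
import Pool.Agent.H40.PC.Dim

/-!
# PC-12 discs and balls in the relative boundary

`bdry_param`: `c ∈ ri G` (`ri_nonempty`), `V = vectorSpan ℝ G`, `g` from `exists_gauge`, `u₀ = x - c ∈ V`, `g u₀ = 1`, so `u₀ ≠ 0`.
There is a linear injection `B : W →ₗ[ℝ] V` with `u₀ ∉ range B`: take a complement `V'` of the line `span {u₀}` in `V` (`Submodule.exists_isCompl`), of dimension
`finrank V - 1 ≥ finrank W`, and an injective linear map `W → V'` (`LinearMap.exists_injective_of_finrank_le` or similar: `Module.finrank` inequality).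
`j w = c + (g (u₀ + B w))⁻¹ • (u₀ + B w)`: `u₀ + B w ≠ 0`, as `u₀ ∉ range B`.  `j` is continuous, `j 0 = x`, `j w ∈ rb G` (`g = 1`).
Injective: `j w = j w'` gives `u₀ + B w = t (u₀ + B w')` with `t > 0`, so `(1 - t) u₀ ∈ range B`, `t = 1`, `B w = B w'`, `w = w'`.
`j⁻¹(N)` is a neighbourhood of `0`: `ι w = j (δ • w)` for a small `δ > 0`.
All values are in `c + L`, `L` the image in `E` of `span {u₀} ⊔ range B`, of dimension `≤ finrank W + 1`; the vector span of a subset of `c + L` is contained in `L`.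
-/

namespace Pool.Agent.H40.PC

open Set Topology Metric Pool.Agent.H61.PO

variable {E : Type*} [NormedAddCommGroup E] [NormedSpace ℝ E] [FiniteDimensional ℝ E]
  {G : Set E} {x : E}

private theorem Bpar_lin {V W : Type*} [AddCommGroup V] [Module ℝ V] [FiniteDimensional ℝ V]
    [AddCommGroup W] [Module ℝ W] [FiniteDimensional ℝ W] {u : V} (hu : u ≠ 0)
    (hd : Module.finrank ℝ W + 1 ≤ Module.finrank ℝ V) :
    ∃ B : W →ₗ[ℝ] V, Function.Injective B ∧ u ∉ LinearMap.range B := by
  obtain ⟨V', hV'⟩ := Submodule.exists_isCompl (ℝ ∙ u)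
  have h1 := Submodule.finrank_add_eq_of_isCompl hV'
  rw [finrank_span_singleton hu] at h1
  have h2 : Module.finrank ℝ W ≤ Module.finrank ℝ V' := by omega
  obtain ⟨i, hi⟩ : ∃ i : W →ₗ[ℝ] V', Function.Injective i :=
    finrank_le_iff_exists_linearMap.1 h2
  refine ⟨V'.subtype ∘ₗ i, V'.subtype_injective.comp hi, ?_⟩
  rintro ⟨w, hw⟩
  have h3 : u ∈ V' := by
    rw [← hw]
    exact (i w).2
  have h4 : u ∈ (ℝ ∙ u) ⊓ V' := ⟨Submodule.mem_span_singleton_self u, h3⟩
  rw [hV'.inf_eq_bot] at h4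
  exact hu ((Submodule.mem_bot ℝ).1 h4)

/-- a ball of dimension `< dimc G` about a point of the relative boundary, inside the relative boundary -/
theorem bdry_param {W : Type*} [NormedAddCommGroup W] [NormedSpace ℝ W] [FiniteDimensional ℝ W]
    (hG : Body G) (hd : Module.finrank ℝ W + 1 ≤ dimc G) (hx : x ∈ rb G) {N : Set E} (hN : N ∈ 𝓝 x) :
    ∃ ι : W → E, ContinuousOn ι (closedBall 0 1) ∧ InjOn ι (closedBall 0 1) ∧ ι 0 = x ∧
      ι '' closedBall 0 1 ⊆ rb G ∩ N ∧ dimc (ι '' closedBall 0 1) ≤ Module.finrank ℝ W + 1 := by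
  obtain ⟨c, hc⟩ := ri_nonempty hG.1 hG.2.2
  obtain ⟨g, hgc, -, hgpos, hgs, -, -, hgrb⟩ := exists_gauge hG hc
  have hxG : x ∈ G := by
    rw [rb_eq hG.2.1.isClosed] at hx
    exact hx.1
  have hcG : c ∈ G := intrinsicInterior_subset hc
  have hmem : x - c ∈ vectorSpan ℝ G := vsub_mem_vectorSpan ℝ hxG hcG
  set u : vectorSpan ℝ G := ⟨x - c, hmem⟩ with hu_def
  have hcu : c + (u : E) = x := by
    show c + (x - c) = x
    abel
  have hgu : g u = 1 := by
    rw [← hgrb, hcu]
    exact hx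
  have hu : u ≠ 0 := by
    intro h0
    have h1 := hgs 0 u le_rfl
    rw [zero_smul, zero_mul, ← h0, hgu] at h1
    exact one_ne_zero h1
  obtain ⟨B, hB, huB⟩ := Bpar_lin (W := W) hu hd
  have hBc : Continuous B := B.continuous_of_finiteDimensional
  have hne : ∀ w, u + B w ≠ 0 := by
    intro w h0
    apply huB
    refine ⟨-w, ?_⟩
    rw [map_neg]
    exact (eq_neg_of_add_eq_zero_left h0).symm
  have hgne : ∀ w, g (u + B w) ≠ 0 := fun w => (hgpos _ (hne w)).ne'
  let k : W → vectorSpan ℝ G := fun w => (g (u + B w))⁻¹ • (u + B w)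
  have hkc : Continuous k :=
    ((hgc.comp (continuous_const.add hBc)).inv₀ hgne).smul (continuous_const.add hBc)
  have hk1 : ∀ w, g (k w) = 1 := by
    intro w
    show g ((g (u + B w))⁻¹ • (u + B w)) = 1
    rw [hgs _ _ (inv_nonneg.2 (hgpos _ (hne w)).le), inv_mul_cancel₀ (hgne w)]
  have hk0 : k 0 = u := by
    show (g (u + B 0))⁻¹ • (u + B 0) = u
    rw [map_zero, add_zero, hgu, inv_one, one_smul]
  have hkinj : Function.Injective k := by
    intro w w' h
    have h' : (g (u + B w))⁻¹ • (u + B w) = (g (u + B w'))⁻¹ • (u + B w') := h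
    set a := (g (u + B w))⁻¹ with ha
    set b := (g (u + B w'))⁻¹ with hb
    have hb0 : b ≠ 0 := inv_ne_zero (hgne w')
    have h1 : (a - b) • u = B (b • w' - a • w) := by
      rw [map_sub, map_smul, map_smul, sub_smul]
      rw [smul_add, smul_add] at h'
      have h2 : a • u - b • u = b • B w' - a • B w := by
        rw [sub_eq_sub_iff_add_eq_add, h', add_comm]
      exact h2
    have hab : a = b := by
      by_contra hne'
      apply huB
      refine ⟨(a - b)⁻¹ • (b • w' - a • w), ?_⟩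
      rw [map_smul, ← h1, smul_smul, inv_mul_cancel₀ (sub_ne_zero.2 hne'), one_smul]
    rw [hab, sub_self, zero_smul] at h1
    have h3 : b • w' - b • w = 0 := by
      apply hB
      rw [← h1, map_zero]
    rw [← smul_sub, smul_eq_zero] at h3
    rcases h3 with h3 | h3
    · exact absurd h3 hb0
    · exact (sub_eq_zero.1 h3).symm
  let j : W → E := fun w => c + (k w : E)
  have hjc : Continuous j := continuous_const.add (continuous_subtype_val.comp hkc)
  have hjinj : Function.Injective j := by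
    intro w w' h
    have h' : c + (k w : E) = c + (k w' : E) := h
    exact hkinj (Subtype.ext (add_left_cancel h'))
  have hj0 : j 0 = x := by
    show c + (k 0 : E) = x
    rw [hk0, hcu]
  have hjrb : ∀ w, j w ∈ rb G := fun w => (hgrb (k w)).2 (hk1 w)
  have hpre : j ⁻¹' N ∈ 𝓝 (0 : W) := hjc.continuousAt (by rw [hj0]; exact hN)
  obtain ⟨ε, hε, hball⟩ := Metric.mem_nhds_iff.1 hpre
  have hδ : 0 < ε / 2 := by positivity
  refine ⟨fun w => j ((ε / 2) • w), (hjc.comp (continuous_const_smul _)).continuousOn, ?_, ?_, ?_,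
    ?_⟩
  · intro w _ w' _ h
    have h1 : (ε / 2) • w = (ε / 2) • w' := hjinj h
    exact smul_right_injective W hδ.ne' h1
  · show j ((ε / 2) • (0 : W)) = x
    rw [smul_zero, hj0]
  · rintro _ ⟨w, hw, rfl⟩
    refine ⟨hjrb _, hball ?_⟩
    rw [mem_ball_zero_iff, norm_smul, Real.norm_of_nonneg hδ.le]
    have h1 : ‖w‖ ≤ 1 := mem_closedBall_zero_iff.1 hw
    have h2 : ε / 2 * ‖w‖ ≤ ε / 2 * 1 := mul_le_mul_of_nonneg_left h1 hδ.le
    linarith
  · have hL : vectorSpan ℝ ((fun w => j ((ε / 2) • w)) '' closedBall 0 1) ≤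
        Submodule.map (vectorSpan ℝ G).subtype ((ℝ ∙ u) ⊔ LinearMap.range B) := by
      rw [vectorSpan_def, Submodule.span_le]
      rintro _ ⟨_, ⟨w, -, rfl⟩, _, ⟨w', -, rfl⟩, rfl⟩
      refine ⟨k ((ε / 2) • w) - k ((ε / 2) • w'), ?_, ?_⟩
      · have hk : ∀ w, k w ∈ (ℝ ∙ u) ⊔ LinearMap.range B := by
          intro w
          refine Submodule.smul_mem _ _ (Submodule.add_mem _ ?_ ?_)
          · exact Submodule.mem_sup_left (Submodule.mem_span_singleton_self u)
          · exact Submodule.mem_sup_right ⟨w, rfl⟩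
        exact Submodule.sub_mem _ (hk _) (hk _)
      · show ((k ((ε / 2) • w) - k ((ε / 2) • w') : vectorSpan ℝ G) : E) =
          (c + (k ((ε / 2) • w) : E)) - (c + (k ((ε / 2) • w') : E))
        rw [Submodule.coe_sub]
        abel
    have h1 := Submodule.finrank_mono hL
    have h2 : Module.finrank ℝ
        (Submodule.map (vectorSpan ℝ G).subtype ((ℝ ∙ u) ⊔ LinearMap.range B)) ≤
        Module.finrank ℝ ((ℝ ∙ u) ⊔ LinearMap.range B : Submodule ℝ (vectorSpan ℝ G)) :=
      Submodule.finrank_map_le _ _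
    have h3 := Submodule.finrank_add_le_finrank_add_finrank (ℝ ∙ u) (LinearMap.range B)
    have h4 : Module.finrank ℝ (LinearMap.range B) ≤ Module.finrank ℝ W :=
      LinearMap.finrank_range_le B
    rw [finrank_span_singleton hu] at h3
    unfold dimc
    omega

end Pool.Agent.H40.PC
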