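import Pool.Agent.H40.PC.Loc

/-!
# PC-19 the plane of a body of dimension two as the complex plane

`chart_two`: `A : ℂ ≃L[ℝ] vectorSpan ℝ F` (both of dimension 2, `Complex.finrank_real_complex`, `ContinuousLinearEquiv.ofFinrankEq` or similar), `j z = A z` in `E`, `π = A⁻¹ ∘ p` with a linear
projection `p : E → vectorSpan ℝ F` (identity on `vectorSpan ℝ F`; `LinearMap.exists_leftInverse_of_injective` for the inclusion; all linear maps are continuous in finite dimension).
`c + j z ∈ affineSpan ℝ F` (`c ∈ F`, `direction_affineSpan`, `AffineSubspace.vadd_mem_of_mem_direction`); `x ∈ affineSpan ℝ F` gives `x - c ∈ vectorSpan ℝ F`, so `c + j (π (x - c)) = x`.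
The last claim is `mem_int_loc` transported by the homeomorphism `A` (`A.toHomeomorph.preimage_interior` or similar): `{z | c + j z ∈ F} = A ⁻¹' loc F c`.
-/

namespace Pool.Agent.H40.PC

open Set Topology Pool.Agent.H61.PO

variable {E : Type*} [NormedAddCommGroup E] [NormedSpace ℝ E] [FiniteDimensional ℝ E]
  {F : Set E} {c : E}

theorem chart_two (hd : dimc F = 2) (hc : c ∈ F) :
    ∃ (π : E →L[ℝ] ℂ) (j : ℂ →L[ℝ] E), (∀ z, π (j z) = z) ∧ (∀ z, c + j z ∈ affineSpan ℝ F) ∧
      (∀ x ∈ affineSpan ℝ F, c + j (π (x - c)) = x) ∧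
      {z | c + j z ∈ ri F} = interior {z | c + j z ∈ F} := by
  have hfr : Module.finrank ℝ ℂ = Module.finrank ℝ (vectorSpan ℝ F) := by
    rw [Complex.finrank_real_complex]
    exact hd.symm
  let A : ℂ ≃L[ℝ] vectorSpan ℝ F := ContinuousLinearEquiv.ofFinrankEq hfr
  obtain ⟨p, hp⟩ := (vectorSpan ℝ F).subtype.exists_leftInverse_of_injective
    (vectorSpan ℝ F).ker_subtype
  have hp' : ∀ v : vectorSpan ℝ F, p (v : E) = v := fun v => LinearMap.congr_fun hp v
  have hc' : c ∈ affineSpan ℝ F := subset_affineSpan ℝ F hc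
  refine ⟨(A.symm : vectorSpan ℝ F →L[ℝ] ℂ).comp (LinearMap.toContinuousLinearMap p),
    (vectorSpan ℝ F).subtypeL.comp (A : ℂ →L[ℝ] vectorSpan ℝ F), ?_, ?_, ?_, ?_⟩
  · intro z
    change A.symm (p ((A z : vectorSpan ℝ F) : E)) = z
    rw [hp', A.symm_apply_apply]
  · intro z
    change c + ((A z : vectorSpan ℝ F) : E) ∈ affineSpan ℝ F
    have : ((A z : vectorSpan ℝ F) : E) ∈ (affineSpan ℝ F).direction := by
      rw [direction_affineSpan]
      exact (A z).2
    have h2 := AffineSubspace.vadd_mem_of_mem_direction this hc'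
    rwa [vadd_eq_add, add_comm] at h2
  · intro x hx
    change c + ((A (A.symm (p (x - c))) : vectorSpan ℝ F) : E) = x
    rw [A.apply_symm_apply]
    have hv : x - c ∈ vectorSpan ℝ F := by
      have := AffineSubspace.vsub_mem_direction hx hc'
      rwa [direction_affineSpan] at this
    have h3 := hp' ⟨x - c, hv⟩
    change p (x - c) = ⟨x - c, hv⟩ at h3
    rw [h3]
    exact add_sub_cancel c x
  · have h1 : {z : ℂ | c + ((A z : vectorSpan ℝ F) : E) ∈ ri F} = A ⁻¹' interior (loc F c) := by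
      ext z
      exact (mem_int_loc hc (A z)).symm
    have h2 : {z : ℂ | c + ((A z : vectorSpan ℝ F) : E) ∈ F} = A ⁻¹' loc F c := rfl
    change {z : ℂ | c + ((A z : vectorSpan ℝ F) : E) ∈ ri F} =
      interior {z : ℂ | c + ((A z : vectorSpan ℝ F) : E) ∈ F}
    rw [h1, h2]
    exact A.toHomeomorph.preimage_interior (loc F c)

end Pool.Agent.H40.PC
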