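import Mathlib

/-!
# PC-18 the intersection of a convex hull with a hyperplane

`hull_plane`: `A₋ = {a ∈ A | ℓ a < c}`, `A₀`, `A₊`.
For `ℓ a < c < ℓ b` the point of `segment a b` in the hyperplane is `π a b = ((ℓ b - c) • a + (c - ℓ a) • b) / (ℓ b - ℓ a)`; `z ∈ segment a b`, `ℓ z = c` implies `z = π a b`.
(1) For fixed `b`, `ℓ b > c`, the set `{a | ℓ a < c ∧ π a b ∈ C}` is convex: for `a = s a₁ + t a₂`, `s + t = 1`, and `m_i = c - ℓ a_i > 0`, `n = ℓ b - c`:
`(n + m) π a b = n a + m b` with `m = s m₁ + t m₂`, and `(n + m_i) π a_i b = n a_i + m_i b`, so `(n + m) π a b = s (n + m₁) π a₁ b + t (n + m₂) π a₂ b`, a convex combination after division by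
`n + m = s (n + m₁) + t (n + m₂)`.  So (`convexHull_min`) `π a b ∈ C` for all `a ∈ convexHull A₋`, `b ∈ A₊`.
(2) In the same way for fixed `a` with `ℓ a < c` the set `{b | ℓ b > c ∧ π a b ∈ C}` is convex, so `π a b ∈ C` for all `a ∈ convexHull A₋`, `b ∈ convexHull A₊` (these have `ℓ a < c < ℓ b`).
(3) `z ∈ convexHull A`, `A = A₋ ∪ A₀ ∪ A₊`.  The set of all `α a + β b + γ e`, `α, β, γ ≥ 0`, sum `1`, `a ∈ convexHull A₋`, `b ∈ convexHull A₊`, `e ∈ convexHull A₀` (a term with coefficient `0` may be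
missing: distinguish which of the sets are empty, with `convexHull_union` / `convexJoin`) contains `z`.  If `α = 0` then `ℓ z = c` gives `β = 0` (and conversely), and `z = e ∈ C`.  Otherwise `ℓ` of
`p = (α a + β b)/(α + β)` is `c`, so `p = π a b ∈ C`, and `z = (α + β) p + γ e ∈ C` (`convexHull A₀ ⊆ C`).

Alternative without case distinctions: let `P z` be: `z = ∑ w_i a_i` (`mem_convexHull_iff_exists_fintype` or `Finset.centerMass`), and use induction on the number of `i` with `ℓ a_i ≠ c`, `w_i > 0`: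
take `a_i` with `ℓ < c` and `a_j` with `ℓ > c`, and replace a part of `w_i a_i + w_j a_j` by a multiple of the point `π a_i a_j ∈ C`, so that one of the two coefficients becomes `0`
(the statement for `A ∪ C` in the place of `A`; the hypotheses hold for `A ∪ (C ∩ {ℓ = c})`).
-/

namespace Pool.Agent.H40.PC

open Set

variable {E : Type*} [NormedAddCommGroup E] [NormedSpace ℝ E] {A C : Set E}

private theorem cro_split {ι F : Type*} [Fintype ι] [AddCommMonoid F] (d : ι → ℝ) (f : ι → F) :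
    ∑ i, f i = ∑ i ∈ Finset.univ.filter (fun i => d i < 0), f i +
      ∑ i ∈ Finset.univ.filter (fun i => 0 < d i), f i +
      ∑ i ∈ Finset.univ.filter (fun i => d i = 0), f i := by
  rw [Finset.sum_filter, Finset.sum_filter, Finset.sum_filter, ← Finset.sum_add_distrib,
    ← Finset.sum_add_distrib]
  refine Finset.sum_congr rfl fun i _ => ?_
  rcases lt_trichotomy (d i) 0 with h | h | h
  · rw [if_pos h, if_neg h.not_gt, if_neg h.ne, add_zero, add_zero]
  · rw [if_neg h.not_lt, if_neg h.not_gt, if_pos h, zero_add, zero_add]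
  · rw [if_neg h.not_gt, if_pos h, if_neg h.ne', zero_add, add_zero]

private theorem cro_dN {ι F : Type*} [AddCommGroup F] [Module ℝ F] {N P : Finset ι}
    {w u : ι → ℝ} {M : ℝ} (hM : ∑ j ∈ P, u j = M) (k : ∀ i ∈ N, w i * (M * M⁻¹) = w i)
    (f : ι → F) : ∑ p ∈ N ×ˢ P, (w p.1 * (u p.2 * M⁻¹)) • f p.1 = ∑ i ∈ N, w i • f i := by
  rw [Finset.sum_product]
  refine Finset.sum_congr rfl fun i hi => ?_
  show ∑ j ∈ P, (w i * (u j * M⁻¹)) • f i = w i • f i
  rw [← Finset.sum_smul, ← Finset.mul_sum, ← Finset.sum_mul, hM, k i hi]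

private theorem cro_dP {ι F : Type*} [AddCommGroup F] [Module ℝ F] {N P : Finset ι}
    {w u : ι → ℝ} {M : ℝ} (hM : ∑ j ∈ N, u j = M) (k : ∀ i ∈ P, w i * (M * M⁻¹) = w i)
    (f : ι → F) : ∑ p ∈ N ×ˢ P, (w p.2 * (u p.1 * M⁻¹)) • f p.2 = ∑ i ∈ P, w i • f i := by
  rw [Finset.sum_product_right]
  refine Finset.sum_congr rfl fun i hi => ?_
  show ∑ j ∈ N, (w i * (u j * M⁻¹)) • f i = w i • f i
  rw [← Finset.sum_smul, ← Finset.mul_sum, ← Finset.sum_mul, hM, k i hi]

theorem hull_plane (hC : Convex ℝ C) {ℓ : E →L[ℝ] ℝ} {c : ℝ} (h0 : ∀ a ∈ A, ℓ a = c → a ∈ C)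
    (h1 : ∀ a ∈ A, ∀ b ∈ A, ℓ a < c → c < ℓ b → ∀ z ∈ segment ℝ a b, ℓ z = c → z ∈ C) :
    ∀ z ∈ convexHull ℝ A, ℓ z = c → z ∈ C := by
  classical
  intro z hz hzc
  obtain ⟨ι, _, w, a, hw0, hw1, ha, rfl⟩ := mem_convexHull_iff_exists_fintype.1 hz
  set d : ι → ℝ := fun i => ℓ (a i) - c with hd
  have hsum : ∑ i, w i * d i = 0 := by
    have h2 : ∑ i, w i * ℓ (a i) = c := by
      rw [← hzc, map_sum]
      exact Finset.sum_congr rfl fun i _ => by rw [map_smul, smul_eq_mul]
    calc ∑ i, w i * d i = ∑ i, w i * ℓ (a i) - (∑ i, w i) * c := by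
          rw [Finset.sum_mul, ← Finset.sum_sub_distrib]
          exact Finset.sum_congr rfl fun i _ => by simp only [hd]; ring
      _ = 0 := by rw [h2, hw1]; ring
  set N := Finset.univ.filter (fun i => d i < 0) with hN
  set P := Finset.univ.filter (fun i => 0 < d i) with hP
  set Z := Finset.univ.filter (fun i => d i = 0) with hZ
  set M : ℝ := ∑ j ∈ P, w j * d j with hM
  have hNM : ∑ i ∈ N, w i * (-d i) = M := by
    have h2 := cro_split d (fun i => w i * d i)
    rw [hsum] at h2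
    have h3 : ∑ i ∈ Z, w i * d i = 0 := Finset.sum_eq_zero fun i hi => by
      rw [(Finset.mem_filter.1 hi).2, mul_zero]
    have h4 : ∑ i ∈ N, w i * (-d i) = -∑ i ∈ N, w i * d i := by
      rw [← Finset.sum_neg_distrib]
      exact Finset.sum_congr rfl fun i _ => by ring
    rw [h4]
    linarith
  have hPnn : ∀ j ∈ P, 0 ≤ w j * d j := fun j hj =>
    mul_nonneg (hw0 j) (Finset.mem_filter.1 hj).2.le
  have hNnn : ∀ i ∈ N, 0 ≤ w i * (-d i) := fun i hi =>
    mul_nonneg (hw0 i) (neg_nonneg.2 (Finset.mem_filter.1 hi).2.le)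
  have hM0 : 0 ≤ M := Finset.sum_nonneg hPnn
  have kN : ∀ i ∈ N, w i * (M * M⁻¹) = w i := by
    intro i hi
    by_cases h : M = 0
    · have h2 := (Finset.sum_eq_zero_iff_of_nonneg hNnn).1 (hNM.trans h) i hi
      have h3 : -d i ≠ 0 := neg_ne_zero.2 (Finset.mem_filter.1 hi).2.ne
      rw [(mul_eq_zero.1 h2).resolve_right h3, zero_mul]
    · rw [mul_inv_cancel₀ h, mul_one]
  have kP : ∀ i ∈ P, w i * (M * M⁻¹) = w i := by
    intro i hi
    by_cases h : M = 0
    · have h2 := (Finset.sum_eq_zero_iff_of_nonneg hPnn).1 h i hi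
      rw [(mul_eq_zero.1 h2).resolve_right (Finset.mem_filter.1 hi).2.ne', zero_mul]
    · rw [mul_inv_cancel₀ h, mul_one]
  set v : ι ⊕ ι × ι → ℝ := Sum.elim w
    (fun p => w p.1 * (w p.2 * d p.2 * M⁻¹) + w p.2 * (w p.1 * (-d p.1) * M⁻¹)) with hv
  set y : ι ⊕ ι × ι → E := Sum.elim a
    (fun p => (d p.2 - d p.1)⁻¹ • (d p.2 • a p.1 + (-d p.1) • a p.2)) with hy
  have hmem : ∑ s ∈ Z.disjSum (N ×ˢ P), v s • y s ∈ C := by
    refine hC.sum_mem ?_ ?_ ?_
    · intro s hs
      rcases s with i | p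
      · exact hw0 i
      · obtain ⟨h2, h3⟩ := Finset.mem_product.1 (Finset.inr_mem_disjSum.1 hs)
        have h4 := (Finset.mem_filter.1 h2).2
        have h5 := (Finset.mem_filter.1 h3).2
        exact add_nonneg
          (mul_nonneg (hw0 _) (mul_nonneg (mul_nonneg (hw0 _) h5.le) (inv_nonneg.2 hM0)))
          (mul_nonneg (hw0 _) (mul_nonneg (mul_nonneg (hw0 _) (neg_nonneg.2 h4.le))
            (inv_nonneg.2 hM0)))
    · rw [Finset.sum_disjSum]
      simp only [hv, Sum.elim_inl, Sum.elim_inr]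
      rw [Finset.sum_add_distrib]
      have e1 := cro_dN hM.symm kN (fun _ => (1 : ℝ))
      have e2 := cro_dP hNM kP (fun _ => (1 : ℝ))
      simp only [smul_eq_mul, mul_one] at e1 e2
      rw [e1, e2, ← hw1, cro_split d w]
      ring
    · intro s hs
      rcases s with i | p
      · have h2 := (Finset.mem_filter.1 (Finset.inl_mem_disjSum.1 hs)).2
        exact h0 _ (ha i) (sub_eq_zero.1 h2)
      · obtain ⟨h2, h3⟩ := Finset.mem_product.1 (Finset.inr_mem_disjSum.1 hs)
        have h4 := (Finset.mem_filter.1 h2).2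
        have h5 := (Finset.mem_filter.1 h3).2
        have h6 : 0 < d p.2 - d p.1 := by linarith
        have h7 : y (Sum.inr p) = (d p.2 / (d p.2 - d p.1)) • a p.1 +
            (-d p.1 / (d p.2 - d p.1)) • a p.2 := by
          simp only [hy, Sum.elim_inr]
          rw [smul_add, smul_smul, smul_smul, div_eq_inv_mul, div_eq_inv_mul]
        have h8 : d p.2 / (d p.2 - d p.1) + -d p.1 / (d p.2 - d p.1) = 1 := by
          rw [← add_div, ← sub_eq_add_neg, div_self h6.ne']
        refine h1 _ (ha p.1) _ (ha p.2) (sub_neg.1 h4) (sub_pos.1 h5) _ ?_ ?_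
        · rw [h7]
          exact ⟨_, _, div_nonneg h5.le h6.le, div_nonneg (neg_nonneg.2 h4.le) h6.le, h8, rfl⟩
        · rw [h7, map_add, map_smul, map_smul, smul_eq_mul, smul_eq_mul]
          have e1 : ℓ (a p.1) = d p.1 + c := by simp only [hd]; ring
          have e2 : ℓ (a p.2) = d p.2 + c := by simp only [hd]; ring
          rw [e1, e2]
          field_simp
          ring
  rw [Finset.sum_disjSum] at hmem
  simp only [hv, hy, Sum.elim_inl, Sum.elim_inr] at hmem
  have hpr : ∀ p ∈ N ×ˢ P, (w p.1 * (w p.2 * d p.2 * M⁻¹) + w p.2 * (w p.1 * (-d p.1) * M⁻¹)) •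
      ((d p.2 - d p.1)⁻¹ • (d p.2 • a p.1 + (-d p.1) • a p.2)) =
      (w p.1 * (w p.2 * d p.2 * M⁻¹)) • a p.1 + (w p.2 * (w p.1 * (-d p.1) * M⁻¹)) • a p.2 := by
    intro p hp
    obtain ⟨h2, h3⟩ := Finset.mem_product.1 hp
    have h4 := (Finset.mem_filter.1 h2).2
    have h5 := (Finset.mem_filter.1 h3).2
    have h6 : d p.2 - d p.1 ≠ 0 := by
      have : 0 < d p.2 - d p.1 := by linarith
      exact this.ne'
    rw [smul_smul, smul_add, smul_smul, smul_smul]
    have h7 : (w p.1 * (w p.2 * d p.2 * M⁻¹) + w p.2 * (w p.1 * (-d p.1) * M⁻¹)) *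
        (d p.2 - d p.1)⁻¹ = w p.1 * w p.2 * M⁻¹ := by
      rw [← div_eq_mul_inv, div_eq_iff h6]
      ring
    rw [h7]
    congr 2 <;> ring
  rw [Finset.sum_congr rfl hpr, Finset.sum_add_distrib, cro_dN hM.symm kN a,
    cro_dP hNM kP a] at hmem
  rw [cro_split d (fun i => w i • a i), add_comm]
  exact hmem

end Pool.Agent.H40.PC
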