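import Pool.Agent.H40.PC.Two

/-!
# PC-10 an extreme point of a body of dimension two is on at most two edges

`edges_at`: suppose `e₁, e₂, e₃` are pairwise distinct.  `e_i = segment v v_i`, `v_i ≠ v` (`edge_eq`: `v` is an extreme point of `e_i`, as `ext e_i = e_i ∩ ext F` (`ext_face`)),
`w_i = v_i - v ∈ vectorSpan ℝ F`, of dimension 2.
(a) `w_i, w_j` (`i ≠ j`) are linearly independent: if `w_j = t w_i`: `t = 0` is impossible; for `t < 0` the point `v` is in the open segment of `v_i` and `v_j`, not extreme;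
for `t > 0` one of `v_i, v_j` is in both edges (`t ≤ 1` or `t ≥ 1`), so the face `e_i ∩ e_j` (`IsFace.inter`) contains two points, has dimension `≥ 1`, so is equal to both
(`face_eq_of_dim`): `e_i = e_j`.
(b) three vectors in a space of dimension 2 are dependent: `a₁ w₁ + a₂ w₂ + a₃ w₃ = 0` with (by (a)) all `a_i ≠ 0`.  Up to the sign all are positive or exactly one is negative.
All positive: `v = ∑ (a_i / (a₁+a₂+a₃)) v_i` is in the hull of `{v₁, v₂, v₃} ⊆ F`, so `v` is one of them (`ext_mem_of_hull`): contradiction.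
Otherwise, after renumbering, `w₃ = a w₁ + b w₂` with `a, b > 0`.  For a small `s > 0` (`s ≤ 1`, `s (a + b) < 1`) the point `v + s w₃ ∈ e₃` is
`(1 - s(a+b)) v + s a v₁ + s b v₂ = (s a) v₁ + (1 - s a) p` with `p ∈ segment v v₂ ⊆ F`, `0 < s a < 1`; `e₃` is a face: `v₁ ∈ e₃ = segment v v₃`, so `w₁ = t w₃`:
contradiction to (a).

(Suggestion: first a lemma for `v, w₁, w₂, w₃, e₃` with `w₃ = a w₁ + b w₂`, to use it three times.)
-/

namespace Pool.Agent.H40.PC

open Set Pool.Agent.H61.PO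

variable {E : Type*} [NormedAddCommGroup E] [NormedSpace ℝ E] [FiniteDimensional ℝ E]
  {F e₁ e₂ e₃ : Set E} {v : E}

private theorem Ed_seg (hv : v ∈ extremePoints ℝ F) (h₁ : IsFace F e₁) (d₁ : dimc e₁ = 1)
    (v₁ : v ∈ e₁) : ∃ u, u ≠ v ∧ e₁ = segment ℝ v u := by
  obtain ⟨x, y, hxy, he, hext⟩ := edge_eq (IsFace.body h₁) d₁
  have h2 : v ∈ extremePoints ℝ e₁ := by
    rw [ext_face h₁]
    exact ⟨v₁, hv⟩
  rw [hext] at h2
  rcases h2 with h2 | h2
  · exact ⟨y, fun h => hxy (by rw [← h2, h]), by rw [h2]; exact he⟩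
  · have h3 : v = y := h2
    refine ⟨x, fun h => hxy (by rw [h, h3]), ?_⟩
    rw [h3, segment_symm]
    exact he

private theorem Ed_sub {u u' : E} (h₁ : IsFace F e₁) (h₂ : IsFace F e₂) (d₁ : dimc e₁ = 1)
    (d₂ : dimc e₂ = 1) (he₁ : e₁ = segment ℝ v u) (he₂ : e₂ = segment ℝ v u') (h : u' ∈ e₁) :
    e₁ = e₂ := by
  have hv1 : v ∈ e₁ := by
    rw [he₁]
    exact left_mem_segment ℝ v u
  have hs : e₂ ⊆ e₁ := by
    rw [he₂]
    exact (IsFace.body h₁).1.segment_subset hv1 h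
  exact (face_eq_of_dim h₂ h₁ hs (by rw [d₁, d₂])).symm

private theorem Ed_mem {u : E} {t : ℝ} (h0 : 0 ≤ t) (h1 : t ≤ 1) :
    v + t • (u - v) ∈ segment ℝ v u := by
  refine ⟨1 - t, t, by linarith, h0, by ring, ?_⟩
  rw [smul_sub, sub_smul, one_smul]
  abel

private theorem Ed_of_mem {u x : E} (h : x ∈ segment ℝ v u) : ∃ t : ℝ, x - v = t • (u - v) := by
  obtain ⟨a, b, ha, hb, hab, rfl⟩ := h
  refine ⟨b, ?_⟩
  have h1 : a = 1 - b := by linarith
  rw [h1, smul_sub, sub_smul, one_smul]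
  abel

private theorem Ed_ind {u u' : E} (hv : v ∈ extremePoints ℝ F) (h₁ : IsFace F e₁)
    (h₂ : IsFace F e₂) (d₁ : dimc e₁ = 1) (d₂ : dimc e₂ = 1) (hu : u ≠ v) (hu' : u' ≠ v)
    (he₁ : e₁ = segment ℝ v u) (he₂ : e₂ = segment ℝ v u') {t : ℝ}
    (ht : u' - v = t • (u - v)) : e₁ = e₂ := by
  have hue : u ∈ e₁ := by
    rw [he₁]
    exact right_mem_segment ℝ v u
  have hue' : u' ∈ e₂ := by
    rw [he₂]
    exact right_mem_segment ℝ v u'
  have hu'v : u' = v + t • (u - v) := by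
    rw [← ht]
    abel
  rcases lt_trichotomy t 0 with h0 | h0 | h0
  · exfalso
    apply hu
    have h3 : (0:ℝ) < 1 - t := by linarith
    have h4 : v ∈ openSegment ℝ u u' := by
      refine ⟨-t / (1 - t), 1 / (1 - t), div_pos (by linarith) h3, div_pos one_pos h3, ?_, ?_⟩
      · field_simp
        ring
      · have h5 : u = v + (u - v) := by abel
        rw [hu'v]
        nth_rewrite 1 [h5]
        rw [smul_add, smul_add, smul_smul]
        have h6 : -t / (1 - t) + 1 / (1 - t) = 1 := by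
          field_simp
          ring
        have h7 : -t / (1 - t) + 1 / (1 - t) * t = 0 := by
          field_simp
          ring
        calc (-t / (1 - t)) • v + (-t / (1 - t)) • (u - v) +
              ((1 / (1 - t)) • v + (1 / (1 - t) * t) • (u - v))
            = (-t / (1 - t) + 1 / (1 - t)) • v + (-t / (1 - t) + 1 / (1 - t) * t) • (u - v) := by
              rw [add_smul, add_smul]
              abel
          _ = v := by rw [h6, h7, one_smul, zero_smul, add_zero]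
    have h5 := (mem_extremePoints.1 hv).2 u (IsFace.sub h₁ hue) u' (IsFace.sub h₂ hue') h4
    exact h5.1
  · exfalso
    apply hu'
    rw [hu'v, h0, zero_smul, add_zero]
  · rcases le_total t 1 with h1 | h1
    · refine Ed_sub h₁ h₂ d₁ d₂ he₁ he₂ ?_
      rw [hu'v, he₁]
      exact Ed_mem h0.le h1
    · refine (Ed_sub h₂ h₁ d₂ d₁ he₂ he₁ ?_).symm
      have h2 : u = v + t⁻¹ • (u' - v) := by
        rw [ht, smul_smul, inv_mul_cancel₀ h0.ne', one_smul]
        abel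
      rw [h2, he₂]
      exact Ed_mem (inv_nonneg.2 h0.le) (inv_le_one_of_one_le₀ h1)

private theorem Ed_three {u₁ u₂ u₃ : E} (hF : Convex ℝ F) (hvF : v ∈ F) (hu₁ : u₁ ∈ F)
    (hu₂ : u₂ ∈ F) (h₃ : IsFace F e₃) (he₃ : e₃ = segment ℝ v u₃) {a b : ℝ} (ha : 0 < a)
    (hb : 0 < b) (hw : u₃ - v = a • (u₁ - v) + b • (u₂ - v)) :
    ∃ t : ℝ, u₁ - v = t • (u₃ - v) := by
  obtain ⟨s, hs0, hs1, hsab⟩ : ∃ s : ℝ, 0 < s ∧ s ≤ 1 ∧ s * (a + b) < 1 := by
    refine ⟨1 / (1 + (a + b)), by positivity, ?_, ?_⟩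
    · rw [div_le_one (by positivity)]
      linarith
    · rw [div_mul_eq_mul_div, one_mul, div_lt_one (by positivity)]
      linarith
  have hsa : 0 < s * a := mul_pos hs0 ha
  have hsb : 0 < s * b := mul_pos hs0 hb
  have hsa1 : 0 < 1 - s * a := by nlinarith
  have hq : v + s • (u₃ - v) ∈ e₃ := by
    rw [he₃]
    exact Ed_mem hs0.le hs1
  have hp : v + (s * b / (1 - s * a)) • (u₂ - v) ∈ F := by
    refine hF.segment_subset hvF hu₂ (Ed_mem (by positivity) ?_)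
    rw [div_le_one hsa1]
    nlinarith
  have hseg : v + s • (u₃ - v) ∈ openSegment ℝ u₁ (v + (s * b / (1 - s * a)) • (u₂ - v)) := by
    refine ⟨s * a, 1 - s * a, hsa, hsa1, by ring, ?_⟩
    have h5 : u₁ = v + (u₁ - v) := by abel
    rw [hw]
    nth_rewrite 1 [h5]
    rw [smul_add, smul_add, smul_add, smul_smul, smul_smul, smul_smul,
      mul_div_cancel₀ (s * b) hsa1.ne', sub_smul, one_smul]
    abel
  have h1 : u₁ ∈ e₃ := by
    have h2 := h₃.1.2 hu₁ hp hq hseg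
    exact h2
  rw [he₃] at h1
  exact Ed_of_mem h1

theorem edges_at (hF : Body F) (hd : dimc F = 2) (hv : v ∈ extremePoints ℝ F)
    (h₁ : IsFace F e₁) (h₂ : IsFace F e₂) (h₃ : IsFace F e₃) (d₁ : dimc e₁ = 1) (d₂ : dimc e₂ = 1)
    (d₃ : dimc e₃ = 1) (v₁ : v ∈ e₁) (v₂ : v ∈ e₂) (v₃ : v ∈ e₃) :
    e₁ = e₂ ∨ e₁ = e₃ ∨ e₂ = e₃ := by
  by_contra hcon
  push Not at hcon
  obtain ⟨n12, n13, n23⟩ := hcon
  obtain ⟨u₁, hu₁, he₁⟩ := Ed_seg hv h₁ d₁ v₁
  obtain ⟨u₂, hu₂, he₂⟩ := Ed_seg hv h₂ d₂ v₂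
  obtain ⟨u₃, hu₃, he₃⟩ := Ed_seg hv h₃ d₃ v₃
  have hvF : v ∈ F := hv.1
  have m₁ : u₁ ∈ F := IsFace.sub h₁ (by rw [he₁]; exact right_mem_segment ℝ v u₁)
  have m₂ : u₂ ∈ F := IsFace.sub h₂ (by rw [he₂]; exact right_mem_segment ℝ v u₂)
  have m₃ : u₃ ∈ F := IsFace.sub h₃ (by rw [he₃]; exact right_mem_segment ℝ v u₃)
  have c12 : ∀ t : ℝ, u₂ - v ≠ t • (u₁ - v) := fun t ht =>
    n12 (Ed_ind hv h₁ h₂ d₁ d₂ hu₁ hu₂ he₁ he₂ ht)
  have c21 : ∀ t : ℝ, u₁ - v ≠ t • (u₂ - v) := fun t ht =>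
    n12 (Ed_ind hv h₂ h₁ d₂ d₁ hu₂ hu₁ he₂ he₁ ht).symm
  have c13 : ∀ t : ℝ, u₃ - v ≠ t • (u₁ - v) := fun t ht =>
    n13 (Ed_ind hv h₁ h₃ d₁ d₃ hu₁ hu₃ he₁ he₃ ht)
  have c31 : ∀ t : ℝ, u₁ - v ≠ t • (u₃ - v) := fun t ht =>
    n13 (Ed_ind hv h₃ h₁ d₃ d₁ hu₃ hu₁ he₃ he₁ ht).symm
  have c23 : ∀ t : ℝ, u₃ - v ≠ t • (u₂ - v) := fun t ht =>
    n23 (Ed_ind hv h₂ h₃ d₂ d₃ hu₂ hu₃ he₂ he₃ ht)
  have c32 : ∀ t : ℝ, u₂ - v ≠ t • (u₃ - v) := fun t ht =>
    n23 (Ed_ind hv h₃ h₂ d₃ d₂ hu₃ hu₂ he₃ he₂ ht).symm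
  -- a linear relation
  obtain ⟨a, b, c, hrel, hne⟩ : ∃ a b c : ℝ,
      a • (u₁ - v) + b • (u₂ - v) + c • (u₃ - v) = 0 ∧ ¬ (a = 0 ∧ b = 0 ∧ c = 0) := by
    let W : Fin 3 → vectorSpan ℝ F := ![⟨u₁ - v, vsub_mem_vectorSpan ℝ m₁ hvF⟩,
      ⟨u₂ - v, vsub_mem_vectorSpan ℝ m₂ hvF⟩, ⟨u₃ - v, vsub_mem_vectorSpan ℝ m₃ hvF⟩]
    have hdep : ¬ LinearIndependent ℝ W := by
      intro h
      have h1 := h.fintype_card_le_finrank
      rw [Fintype.card_fin] at h1
      have h2 : Module.finrank ℝ (vectorSpan ℝ F) = 2 := hd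
      omega
    rw [Fintype.not_linearIndependent_iff] at hdep
    obtain ⟨g, hg, i, hi⟩ := hdep
    rw [Fin.sum_univ_three] at hg
    have hg' := congrArg Subtype.val hg
    refine ⟨g 0, g 1, g 2, hg', ?_⟩
    rintro ⟨h0, h1, h2⟩
    apply hi
    fin_cases i
    · exact h0
    · exact h1
    · exact h2
  have w1 : u₁ - v ≠ 0 := sub_ne_zero.2 hu₁
  have w2 : u₂ - v ≠ 0 := sub_ne_zero.2 hu₂
  have w3 : u₃ - v ≠ 0 := sub_ne_zero.2 hu₃
  -- solving the relation for one vector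
  have sol1 : a ≠ 0 → u₁ - v = (-b / a) • (u₂ - v) + (-c / a) • (u₃ - v) := by
    intro ha
    have h5 : a • (u₁ - v) = a • ((-b / a) • (u₂ - v) + (-c / a) • (u₃ - v)) := by
      rw [smul_add, smul_smul, smul_smul, mul_div_cancel₀ _ ha, mul_div_cancel₀ _ ha, neg_smul,
        neg_smul]
      have h6 : a • (u₁ - v) = -(b • (u₂ - v)) - c • (u₃ - v) := by
        rw [← sub_eq_zero, ← hrel]
        abel
      rw [h6]
      abel
    exact smul_right_injective E ha h5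
  have sol2 : b ≠ 0 → u₂ - v = (-a / b) • (u₁ - v) + (-c / b) • (u₃ - v) := by
    intro hb
    have h5 : b • (u₂ - v) = b • ((-a / b) • (u₁ - v) + (-c / b) • (u₃ - v)) := by
      rw [smul_add, smul_smul, smul_smul, mul_div_cancel₀ _ hb, mul_div_cancel₀ _ hb, neg_smul,
        neg_smul]
      have h6 : b • (u₂ - v) = -(a • (u₁ - v)) - c • (u₃ - v) := by
        rw [← sub_eq_zero, ← hrel]
        abel
      rw [h6]
      abel
    exact smul_right_injective E hb h5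
  have sol3 : c ≠ 0 → u₃ - v = (-a / c) • (u₁ - v) + (-b / c) • (u₂ - v) := by
    intro hc
    have h5 : c • (u₃ - v) = c • ((-a / c) • (u₁ - v) + (-b / c) • (u₂ - v)) := by
      rw [smul_add, smul_smul, smul_smul, mul_div_cancel₀ _ hc, mul_div_cancel₀ _ hc, neg_smul,
        neg_smul]
      have h6 : c • (u₃ - v) = -(a • (u₁ - v)) - b • (u₂ - v) := by
        rw [← sub_eq_zero, ← hrel]
        abel
      rw [h6]
      abel
    exact smul_right_injective E hc h5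
  have ha : a ≠ 0 := by
    intro ha
    by_cases hb : b = 0
    · have hc : c ≠ 0 := fun hc => hne ⟨ha, hb, hc⟩
      have h := sol3 hc
      rw [ha, hb, neg_zero, zero_div, zero_smul, zero_smul, add_zero] at h
      exact w3 h
    · have h := sol2 hb
      rw [ha, neg_zero, zero_div, zero_smul, zero_add] at h
      exact c32 _ h
  have hb : b ≠ 0 := by
    intro hb
    have h := sol1 ha
    rw [hb, neg_zero, zero_div, zero_smul, zero_add] at h
    exact c31 _ h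
  have hc : c ≠ 0 := by
    intro hc
    have h := sol1 ha
    rw [hc, neg_zero, zero_div, zero_smul, add_zero] at h
    exact c21 _ h
  -- the case of equal signs
  have same : 0 < a / c → 0 < b / c → False := by
    intro h1 h2
    have h3 := sol3 hc
    have hp : (0:ℝ) < a / c + b / c := add_pos h1 h2
    obtain ⟨x, hx⟩ : ∃ x, x = a / c := ⟨_, rfl⟩
    obtain ⟨y, hy⟩ : ∃ y, y = b / c := ⟨_, rfl⟩
    rw [neg_div, neg_div, ← hx, ← hy] at h3
    rw [← hx] at h1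
    rw [← hy] at h2
    have hxy : 0 < x + y := add_pos h1 h2
    have hxy1 : 0 < 1 + (x + y) := by linarith
    have hmid : (x / (x + y)) • u₁ + (y / (x + y)) • u₂ ∈ F :=
      hF.1 m₁ m₂ (by positivity) (by positivity) (by field_simp)
    have hseg : v ∈ openSegment ℝ u₃ ((x / (x + y)) • u₁ + (y / (x + y)) • u₂) := by
      refine ⟨1 / (1 + (x + y)), (x + y) / (1 + (x + y)), by positivity, by positivity,
        by field_simp, ?_⟩
      have e3 : u₃ = v + (-x • (u₁ - v) + -y • (u₂ - v)) := by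
        rw [← h3]
        abel
      have e4 : (x + y) / (1 + (x + y)) * (x / (x + y)) = x / (1 + (x + y)) := by
        field_simp
      have e5 : (x + y) / (1 + (x + y)) * (y / (x + y)) = y / (1 + (x + y)) := by
        field_simp
      rw [e3, smul_add ((x + y) / (1 + (x + y))), smul_smul, smul_smul, e4, e5]
      have e6 : x / (1 + (x + y)) = (1 / (1 + (x + y))) * x := by ring
      have e7 : y / (1 + (x + y)) = (1 / (1 + (x + y))) * y := by ring
      rw [e6, e7, ← smul_smul, ← smul_smul, ← smul_add, ← smul_add]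
      have e8 : v + (-x • (u₁ - v) + -y • (u₂ - v)) + (x • u₁ + y • u₂) = (1 + (x + y)) • v := by
        rw [neg_smul, neg_smul, smul_sub, smul_sub, add_smul, add_smul, one_smul]
        abel
      rw [e8, smul_smul, one_div_mul_cancel hxy1.ne', one_smul]
    exact hu₃ ((mem_extremePoints.1 hv).2 u₃ m₃ _ hmid hseg).1
  -- signs
  rcases lt_or_gt_of_ne ha with ha' | ha' <;> rcases lt_or_gt_of_ne hb with hb' | hb' <;>
    rcases lt_or_gt_of_ne hc with hc' | hc'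
  · exact same (div_pos_of_neg_of_neg ha' hc') (div_pos_of_neg_of_neg hb' hc')
  · obtain ⟨t, ht⟩ := Ed_three hF.1 hvF m₁ m₂ h₃ he₃ (div_pos (by linarith) hc')
      (div_pos (by linarith) hc') (sol3 hc)
    exact c31 t ht
  · obtain ⟨t, ht⟩ := Ed_three hF.1 hvF m₁ m₃ h₂ he₂ (div_pos (by linarith) hb')
      (div_pos (by linarith) hb') (sol2 hb)
    exact c21 t ht
  · obtain ⟨t, ht⟩ := Ed_three hF.1 hvF m₂ m₃ h₁ he₁
      (div_pos_of_neg_of_neg (by linarith) ha') (div_pos_of_neg_of_neg (by linarith) ha')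
      (sol1 ha)
    exact c12 t ht
  · obtain ⟨t, ht⟩ := Ed_three hF.1 hvF m₂ m₃ h₁ he₁
      (div_pos (by linarith) ha') (div_pos (by linarith) ha') (sol1 ha)
    exact c12 t ht
  · obtain ⟨t, ht⟩ := Ed_three hF.1 hvF m₁ m₃ h₂ he₂ (div_pos_of_neg_of_neg (by linarith) hb')
      (div_pos_of_neg_of_neg (by linarith) hb') (sol2 hb)
    exact c21 t ht
  · obtain ⟨t, ht⟩ := Ed_three hF.1 hvF m₁ m₂ h₃ he₃ (div_pos_of_neg_of_neg (by linarith) hc')
      (div_pos_of_neg_of_neg (by linarith) hc') (sol3 hc)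
    exact c31 t ht
  · exact same (div_pos ha' hc') (div_pos hb' hc')

theorem edges_card (hF : Body F) (hd : dimc F = 2) (hv : v ∈ extremePoints ℝ F) :
    {e | IsFace F e ∧ dimc e = 1 ∧ v ∈ e}.encard ≤ 2 := by
  by_contra hcon
  have h3 : (3 : ℕ∞) ≤ {e | IsFace F e ∧ dimc e = 1 ∧ v ∈ e}.encard := by
    rw [not_le] at hcon
    have h4 := Order.add_one_le_of_lt hcon
    have h5 : (2 : ℕ∞) + 1 = 3 := by norm_num
    rw [h5] at h4
    exact h4
  obtain ⟨t, ht, hte⟩ := Set.exists_subset_encard_eq h3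
  obtain ⟨x, y, z, hxy, hxz, hyz, rfl⟩ := Set.encard_eq_three.1 hte
  have hx := ht (by simp : x ∈ ({x, y, z} : Set (Set E)))
  have hy := ht (by simp : y ∈ ({x, y, z} : Set (Set E)))
  have hz := ht (by simp : z ∈ ({x, y, z} : Set (Set E)))
  rcases edges_at hF hd hv hx.1 hy.1 hz.1 hx.2.1 hy.2.1 hz.2.1 hx.2.2 hy.2.2 hz.2.2 with h | h | h
  · exact hxy h
  · exact hxz h
  · exact hyz h

end Pool.Agent.H40.PC
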