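import Pool.Agent.H40.PC.Rad

/-!
# PC-17 boundary points near an extreme point off the faces through a second point

`escape`: `w ∈ ri K` (`ri_nonempty`), `g` from `exists_gauge` for `c = w`.  `x ∈ rb K` since `v ≠ x` in `K` and `x` is extreme (if `x ∈ ri K` then `x + t (x - v) ∈ K` for some `t > 0` by `mem_ri_iff`
and `x` is in the open segment of `v` and this point).  For `t > 0` let `x_t = x + t (x - v)`, not in `K` for the same reason, `u_t = x_t - w ∈ vectorSpan ℝ K`, `γ = g u_t > 1`, and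
`y_t = w + γ⁻¹ • u_t ∈ rb K` (`g = 1`).  `t ↦ y_t` is continuous at `0` with the value `w + (x - w) = x` (`g (x - w) = 1`), so `y_t ∈ N` for a small `t > 0`; let `y = y_t`.
Let `Supp K η (η y)` and `η x = η y = η v`.  Then `η x_t = η y`; `η w < η y` (otherwise `eq_of_ri` gives `η = η y` on `K`), so `η y = (1 - γ⁻¹) η w + γ⁻¹ η x_t < η y`: contradiction.
-/

namespace Pool.Agent.H40.PC

open Set Topology Pool.Agent.H61.PO

variable {E : Type*} [NormedAddCommGroup E] [NormedSpace ℝ E] [FiniteDimensional ℝ E]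
  {K : Set E} {x v : E}

private theorem esc_not_mem (hx : x ∈ extremePoints ℝ K) (hv : v ∈ K) (hne : v ≠ x) {t : ℝ}
    (ht : 0 < t) : x + t • (x - v) ∉ K := by
  intro h
  have hseg : x ∈ openSegment ℝ v (x + t • (x - v)) := by
    refine ⟨t / (1 + t), 1 / (1 + t), by positivity, by positivity,
      by rw [← add_div, add_comm t 1, div_self (by positivity)], ?_⟩
    have h1 : (1 : ℝ) + t ≠ 0 := by positivity
    have : (t / (1 + t)) • v + (1 / (1 + t)) • (x + t • (x - v)) =
        ((1 / (1 + t)) * (1 + t)) • x := by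
      rw [div_eq_mul_inv, div_eq_mul_inv]
      module
    rw [this, one_div_mul_cancel h1, one_smul]
  exact hne (hx.2 hv h hseg)

theorem escape (hK : Body K) (hx : x ∈ extremePoints ℝ K) (hv : v ∈ K) (hne : v ≠ x) {N : Set E}
    (hN : N ∈ 𝓝 x) :
    ∃ y ∈ rb K ∩ N, ∀ η : E →L[ℝ] ℝ, Supp K η (η y) → ¬ (η x = η y ∧ η v = η y) := by
  obtain ⟨hconv, hcomp, hnon⟩ := hK
  have hK' : Body K := ⟨hconv, hcomp, hnon⟩
  obtain ⟨w, hw⟩ := ri_nonempty hconv hnon
  obtain ⟨g, gc, -, -, ghom, gK, gri, grb⟩ := exists_gauge hK' hw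
  have hwK : w ∈ K := ri_sub hw
  have hxK : x ∈ K := hx.1
  have hxri : x ∉ ri K := by
    intro h
    obtain ⟨t, ht, hmem⟩ := ((mem_ri_iff hconv).1 h).2 v hv
    exact esc_not_mem hx hv hne ht hmem
  have hxrb : x ∈ rb K := by
    rw [rb_eq hcomp.isClosed]
    exact ⟨hxK, hxri⟩
  let X : vectorSpan ℝ K := ⟨x - w, vsub_mem_vectorSpan ℝ hxK hwK⟩
  let D : vectorSpan ℝ K := ⟨x - v, vsub_mem_vectorSpan ℝ hxK hv⟩
  let u : ℝ → vectorSpan ℝ K := fun t => X + t • D
  have hX : w + (X : E) = x := by simp [X]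
  have hu : ∀ t, w + (u t : E) = x + t • (x - v) := by
    intro t
    simp only [u, X, D, Submodule.coe_add, Submodule.coe_smul]
    abel
  have hgX : g X = 1 := (grb X).1 (by rw [hX]; exact hxrb)
  have hgu : ∀ t, 0 < t → 1 < g (u t) := by
    intro t ht
    by_contra hcon
    have := (gK (u t)).2 (not_lt.1 hcon)
    rw [hu t] at this
    exact esc_not_mem hx hv hne ht this
  have hucont : Continuous u := by
    simp only [u]
    fun_prop
  have hcont : ContinuousAt (fun t : ℝ => w + (((g (u t))⁻¹ • u t : vectorSpan ℝ K) : E)) 0 := by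
    have h0 : g (u 0) ≠ 0 := by
      simp only [u, zero_smul, add_zero, hgX]
      exact one_ne_zero
    have h1 : ContinuousAt (fun t : ℝ => (g (u t))⁻¹) 0 :=
      ((gc.comp hucont).continuousAt).inv₀ h0
    have h2 : ContinuousAt (fun t : ℝ => (g (u t))⁻¹ • u t) 0 := h1.smul hucont.continuousAt
    exact continuousAt_const.add (continuous_subtype_val.continuousAt.comp h2)
  have hval : w + (((g (u 0))⁻¹ • u 0 : vectorSpan ℝ K) : E) = x := by
    have h0 : u 0 = X := by simp [u]
    rw [h0, hgX, inv_one, one_smul, hX]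
  have hev : ∀ᶠ t : ℝ in 𝓝 0, w + (((g (u t))⁻¹ • u t : vectorSpan ℝ K) : E) ∈ N := by
    apply hcont.eventually
    simp only [hval]
    exact hN
  obtain ⟨t, htN, ht⟩ := ((hev.filter_mono (nhdsWithin_le_nhds (s := Ioi (0 : ℝ)))).and
    (self_mem_nhdsWithin (s := Ioi (0 : ℝ)))).exists
  have ht0 : 0 < t := ht
  have hγ := hgu t ht0
  set γ := g (u t) with hγdef
  have hγ0 : 0 < γ := by linarith
  refine ⟨w + ((γ⁻¹ • u t : vectorSpan ℝ K) : E), ⟨?_, htN⟩, ?_⟩
  · rw [grb, ghom _ _ (inv_nonneg.2 hγ0.le), ← hγdef, inv_mul_cancel₀ hγ0.ne']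
  · rintro η ⟨hs1, z, hz, hzlt⟩ ⟨e1, e2⟩
    set m := η (w + ((γ⁻¹ • u t : vectorSpan ℝ K) : E)) with hm
    have hut : η (u t : E) = m - η w := by
      have h3 : η (w + (u t : E)) = m := by
        rw [hu t, map_add, map_smul, map_sub, e1, e2]
        simp
      rw [map_add] at h3
      linarith
    have hmm : m = η w + γ⁻¹ * (m - η w) := by
      have h4 : m = η w + γ⁻¹ * η (u t : E) := by
        rw [hm, map_add, Submodule.coe_smul, map_smul, smul_eq_mul]
      rw [hut] at h4
      exact h4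
    have hγinv : γ⁻¹ < 1 := inv_lt_one_of_one_lt₀ hγ
    have hwm : η w = m := by
      have h5 : (1 - γ⁻¹) * (m - η w) = 0 := by linarith
      rcases mul_eq_zero.1 h5 with h6 | h6
      · linarith
      · linarith
    have h7 := eq_of_ri hconv hw hs1 hwm z hz
    linarith

end Pool.Agent.H40.PC
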