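import Pool.Agent.H40.PC.Fac

/-!
# PC-16 limits of supporting functionals

`closed_supp`: the set `S` of all `y ∈ G` with a supporting functional at `y` which is equal to `η y` on `F` is closed.
`V = vectorSpan ℝ G`, finite dimensional.  For `y ∈ G`: `y ∈ S` iff there is `ζ : V →L[ℝ] ℝ` (a continuous linear functional on `V`) with `‖ζ‖ = 1`, `ζ (x - y) ≤ 0` for all `x ∈ G` and
`ζ (z - y) = 0` for all `z ∈ F`.
(=>): restrict `η` to `V`; it is not `0` on `V` as `η x < η y` for some `x ∈ G` (`x - y ∈ V`); divide by the norm.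
(<=): extend `ζ` to `E` (`Real.exists_extension_norm_eq`); `ζ ≠ 0` and `V` is spanned by the `x - y`, `x ∈ G` (`vectorSpan_eq_span_vsub_set_right` or similar), so `ζ (x - y) ≠ 0` for some `x ∈ G`,
that is `< 0`.
The set of pairs `(y, ζ)`, `y ∈ G`, `‖ζ‖ = 1`, with these (closed) conditions is closed in the compact set `G ×ˢ sphere 0 1` of `E × (V →L[ℝ] ℝ)` (the space `V →L[ℝ] ℝ` is finite dimensional, so proper),
hence compact, and `S` is its image under the first projection.  To avoid subtypes for `x - y ∈ V` fix `c ∈ G` and the map `π : E →L[ℝ] V` which is the identity on `V` (a continuous linear projection exists,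
finite dimension: `Submodule.exists_isCompl`/`LinearMap.exists_leftInverse_of_injective`, `LinearMap.toContinuousLinearMap`), and write `ζ (π (x - y))`: jointly continuous in `(y, ζ)`.
Sequences (`IsSeqClosed`, `tendsto_subseq`) are also possible.
-/

namespace Pool.Agent.H40.PC

open Set Topology Pool.Agent.H61.PO

variable {E : Type*} [NormedAddCommGroup E] [NormedSpace ℝ E] [FiniteDimensional ℝ E]
  {G F : Set E}

private theorem Lim_norm {W : Type*} [NormedAddCommGroup W] [NormedSpace ℝ W] (ζ : W →L[ℝ] ℝ)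
    (h : ζ ≠ 0) : 0 < ‖ζ‖ ∧ ‖ζ‖⁻¹ • ζ ∈ Metric.sphere (0 : W →L[ℝ] ℝ) 1 := by
  have hn : 0 < ‖ζ‖ := norm_pos_iff.2 h
  refine ⟨hn, ?_⟩
  rw [mem_sphere_zero_iff_norm, norm_smul, norm_inv, norm_norm, inv_mul_cancel₀ hn.ne']

omit [FiniteDimensional ℝ E] in
private theorem Lim_aux {W : Type*} [NormedAddCommGroup W] [NormedSpace ℝ W]
    [FiniteDimensional ℝ W] (hG : Body G) (hF : F ⊆ G) (ι : W →L[ℝ] E) (π : E →L[ℝ] W)
    (hπ : ∀ w, π (ι w) = w) (hι : ∀ a ∈ G, ∀ b ∈ G, ∃ w, ι w = a - b)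
    (hker : ∀ ζ : W →L[ℝ] ℝ, (∀ a ∈ G, ∀ b ∈ G, ζ (π (a - b)) = 0) → ζ = 0) :
    IsClosed {y | y ∈ G ∧ ∃ η : E →L[ℝ] ℝ, Supp G η (η y) ∧ ∀ z ∈ F, η z = η y} := by
  have hprop : ProperSpace (W →L[ℝ] ℝ) := FiniteDimensional.proper ℝ (W →L[ℝ] ℝ)
  have hcont : ∀ x : E, Continuous fun p : E × (W →L[ℝ] ℝ) => p.2 (π (x - p.1)) := by
    intro x
    exact continuous_snd.clm_apply (π.continuous.comp (continuous_const.sub continuous_fst))
  have hcomp : IsCompact ((G ×ˢ Metric.sphere (0 : W →L[ℝ] ℝ) 1) ∩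
      ((⋂ x ∈ G, {p : E × (W →L[ℝ] ℝ) | p.2 (π (x - p.1)) ≤ 0}) ∩
       (⋂ z ∈ F, {p : E × (W →L[ℝ] ℝ) | p.2 (π (z - p.1)) = 0}))) := by
    refine (hG.2.1.prod (isCompact_sphere _ _)).inter_right ?_
    refine IsClosed.inter ?_ ?_
    · exact isClosed_biInter fun x _ => isClosed_le (hcont x) continuous_const
    · exact isClosed_biInter fun x _ => isClosed_eq (hcont x) continuous_const
  have hcl := (hcomp.image continuous_fst).isClosed
  have hset : {y | y ∈ G ∧ ∃ η : E →L[ℝ] ℝ, Supp G η (η y) ∧ ∀ z ∈ F, η z = η y} =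
      Prod.fst '' ((G ×ˢ Metric.sphere (0 : W →L[ℝ] ℝ) 1) ∩
      ((⋂ x ∈ G, {p : E × (W →L[ℝ] ℝ) | p.2 (π (x - p.1)) ≤ 0}) ∩
       (⋂ z ∈ F, {p : E × (W →L[ℝ] ℝ) | p.2 (π (z - p.1)) = 0}))) := by
    ext y
    constructor
    · rintro ⟨hy, η, ⟨h1, x0, hx0, h2⟩, h3⟩
      have hval : ∀ x ∈ G, (η.comp ι) (π (x - y)) = η x - η y := by
        intro x hx
        obtain ⟨w, hw⟩ := hι x hx y hy
        rw [← hw, hπ]
        show η (ι w) = _
        rw [hw, map_sub]
      have hne : η.comp ι ≠ 0 := by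
        intro h0
        have h4 := hval x0 hx0
        rw [h0] at h4
        simp at h4
        linarith
      obtain ⟨hn, hsph⟩ := Lim_norm _ hne
      refine ⟨(y, ‖η.comp ι‖⁻¹ • (η.comp ι)), ⟨⟨hy, hsph⟩, ?_, ?_⟩, rfl⟩
      · refine mem_iInter₂.2 fun x hx => ?_
        show (‖η.comp ι‖⁻¹ • (η.comp ι)) (π (x - y)) ≤ 0
        rw [smul_apply, hval x hx, smul_eq_mul]
        exact mul_nonpos_of_nonneg_of_nonpos (inv_nonneg.2 hn.le) (by linarith [h1 x hx])
      · refine mem_iInter₂.2 fun z hz => ?_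
        show (‖η.comp ι‖⁻¹ • (η.comp ι)) (π (z - y)) = 0
        rw [smul_apply, hval z (hF hz), smul_eq_mul, h3 z hz, sub_self, mul_zero]
    · rintro ⟨⟨y', ζ⟩, ⟨⟨hy, hs⟩, h1, h2⟩, rfl⟩
      have h1' : ∀ x ∈ G, ζ (π (x - y')) ≤ 0 := fun x hx => mem_iInter₂.1 h1 x hx
      have h2' : ∀ z ∈ F, ζ (π (z - y')) = 0 := fun z hz => mem_iInter₂.1 h2 z hz
      refine ⟨hy, ζ.comp π, ⟨fun x hx => ?_, ?_⟩, fun z hz => ?_⟩
      · have := h1' x hx
        rw [map_sub, map_sub] at this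
        show ζ (π x) ≤ ζ (π y')
        linarith
      · by_contra hcon
        push Not at hcon
        have hall : ∀ x ∈ G, ζ (π x) = ζ (π y') := by
          intro x hx
          refine le_antisymm ?_ (hcon x hx)
          have := h1' x hx
          rw [map_sub, map_sub] at this
          linarith
        have hz : ζ = 0 := by
          refine hker ζ fun a ha b hb => ?_
          rw [map_sub, map_sub, hall a ha, hall b hb, sub_self]
        have hs' : dist ζ 0 = 1 := hs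
        rw [hz, dist_self] at hs'
        exact zero_ne_one hs'
      · have := h2' z hz
        rw [map_sub, map_sub] at this
        show ζ (π z) = ζ (π y')
        linarith
  rw [hset]
  exact hcl

theorem closed_supp (hG : Body G) (hF : F ⊆ G) :
    IsClosed {y | y ∈ G ∧ ∃ η : E →L[ℝ] ℝ, Supp G η (η y) ∧ ∀ z ∈ F, η z = η y} := by
  obtain ⟨π, hπ⟩ : ∃ f : E →L[ℝ] (vectorSpan ℝ G), ∀ x : vectorSpan ℝ G, f x = x :=
    Submodule.ClosedComplemented.of_finiteDimensional (vectorSpan ℝ G)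
  refine Lim_aux hG hF (vectorSpan ℝ G).subtypeL π hπ ?_ ?_
  · intro a ha b hb
    exact ⟨⟨a - b, vsub_mem_vectorSpan ℝ ha hb⟩, rfl⟩
  · intro ζ hζ
    have hle : vectorSpan ℝ G ≤ LinearMap.ker ((ζ.comp π : E →L[ℝ] ℝ) : E →ₗ[ℝ] ℝ) := by
      refine Submodule.span_le.2 ?_
      rintro _ ⟨a, ha, b, hb, rfl⟩
      rw [SetLike.mem_coe, LinearMap.mem_ker]
      exact hζ a ha b hb
    ext v
    have h5 := hle v.2
    rw [LinearMap.mem_ker] at h5
    have h6 : ζ (π (v : E)) = 0 := h5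
    rw [hπ v] at h6
    rw [h6]
    rfl

end Pool.Agent.H40.PC
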