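import Pool.Agent.H40.PC.Mfa

/-!
# PC-07 Minkowski's theorem: a convex body is the convex hull of its extreme points

* `hull_ext`: induction on `dimc K` (strong, all bodies).  Let `y ∈ K`.  If `y ∈ rb K` then `mface K y` is a proper face (`mface_ne`), of smaller
  dimension (`face_dim_lt`), so `y ∈ convexHull (ext (mface K y)) ⊆ convexHull (ext K)` (`ext_face`).  Otherwise take an extreme point `x` of `K`
  (`IsCompact.extremePoints_nonempty`).  If `y = x` done.  Otherwise `exists_exit`: `p = y + t (y - x) ∈ rb K`, `p` is in the hull of `ext K` by the first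
  case, and `y ∈ segment x p`.
* `ext_mem_of_hull`: `extremePoints_convexHull_subset` (`x` is an extreme point of `convexHull A ⊆ K`:
  `inter_extremePoints_subset_extremePoints_of_subset` or similar).
* `sub_of_ext`: `convexHull_min` and `hull_ext`.
* `exists_ext_not_mem`: contrapositive.
-/

namespace Pool.Agent.H40.PC

open Set Pool.Agent.H61.PO

variable {E : Type*} [NormedAddCommGroup E] [NormedSpace ℝ E] [FiniteDimensional ℝ E]
  {K F G C A : Set E} {x y : E}

private theorem Min_aux (n : ℕ) : ∀ K : Set E, Body K → dimc K = n →
    K ⊆ convexHull ℝ (extremePoints ℝ K) := by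
  induction n using Nat.strong_induction_on with
  | _ n ih =>
    intro K hK hn
    have hb : ∀ y ∈ rb K, y ∈ convexHull ℝ (extremePoints ℝ K) := by
      intro y hy
      have hyK : y ∈ K := rb_sub hK hy
      have hF := mface_isFace hK hyK
      have hd := face_dim_lt hK hF (mface_ne hK hy)
      have h1 := ih (dimc (mface K y)) (by omega) (mface K y) hF.body rfl (mem_mface K y)
      rw [ext_face hF] at h1
      exact convexHull_mono Set.inter_subset_right h1
    intro y hy
    by_cases hyb : y ∈ rb K
    · exact hb y hyb
    · obtain ⟨x, hx⟩ := hK.2.1.extremePoints_nonempty hK.2.2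
      have hxh : x ∈ convexHull ℝ (extremePoints ℝ K) := subset_convexHull ℝ _ hx
      by_cases hyx : y = x
      · rw [hyx]; exact hxh
      · obtain ⟨t, ht, hp⟩ := exists_exit hK hy (extremePoints_subset hx) hyx
        have hp' := hb _ hp
        apply (convex_convexHull ℝ (extremePoints ℝ K)).segment_subset hxh hp'
        have h1t : (0:ℝ) < 1 + t := by linarith
        refine ⟨t / (1 + t), 1 / (1 + t), by positivity, by positivity, ?_, ?_⟩
        · field_simp
          ring
        · have e1 : (t / (1 + t)) • x + (1 / (1 + t)) • (y + t • (y - x)) =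
              (t / (1 + t) - 1 / (1 + t) * t) • x + (1 / (1 + t) * (1 + t)) • y := by
            module
          have e2 : t / (1 + t) - 1 / (1 + t) * t = 0 := by ring
          have e3 : 1 / (1 + t) * (1 + t) = 1 := by field_simp
          rw [e1, e2, e3, zero_smul, one_smul, zero_add]

theorem hull_ext (hK : Body K) : convexHull ℝ (extremePoints ℝ K) = K := by
  apply Set.Subset.antisymm
  · exact convexHull_min extremePoints_subset hK.1
  · exact Min_aux (dimc K) K hK rfl

omit [FiniteDimensional ℝ E] in
theorem ext_mem_of_hull (hK : Convex ℝ K) (hx : x ∈ extremePoints ℝ K) (hA : A ⊆ K)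
    (h : x ∈ convexHull ℝ A) : x ∈ A := by
  have h1 : convexHull ℝ A ⊆ K := convexHull_min hA hK
  exact extremePoints_convexHull_subset
    (inter_extremePoints_subset_extremePoints_of_subset h1 ⟨h, hx⟩)

theorem sub_of_ext (hF : Body F) (hC : Convex ℝ C) (h : extremePoints ℝ F ⊆ C) : F ⊆ C := by
  rw [← hull_ext hF]
  exact convexHull_min h hC

theorem exists_ext_not_mem (hF : Body F) (hC : Convex ℝ C) (h : ¬ F ⊆ C) :
    ∃ x ∈ extremePoints ℝ F, x ∉ C := by
  by_contra hcon
  push Not at hcon
  exact h (sub_of_ext hF hC hcon)

end Pool.Agent.H40.PC
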