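import Pool.Agent.H40.PC.Rad
import Pool.Agent.H40.PC.Min

/-!
# PC-13 the relative boundary minus a face is connected

`rb_conn`: `c ∈ ri G`, `V = vectorSpan ℝ G`, `g` from `exists_gauge`, `ρ v = c + (g v)⁻¹ • v` for `v ≠ 0`: continuous on `V \ {0}`, values in `rb G` (`g = 1` there).
`Ca = {t (z - c) | z ∈ a, t > 0} ⊆ V` and `Y = {v | v ≠ 0, v ∉ Ca}`.
(1) `ρ` maps `Y` onto `rb G \ a`: if `v ∈ Y`, `ρ v ∈ a` would give `v = g v • (ρ v - c) ∈ Ca`.  If `y ∈ rb G \ a`, `v = y - c` has `g v = 1`, `ρ v = y`, and `v = t (z - c)`, `z ∈ a ⊆ rb G`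
(`face_sub_rb`), would give `1 = t * 1`, `y = z ∈ a`.
(2) `Y` is connected.  If `a = ∅`: `V \ {0}` is connected (`isConnected_compl_singleton_of_one_lt_rank`, dimension `≥ 2`).  Otherwise fix `z₀ ∈ a`, `w₀ = z₀ - c ∈ Ca`.  `Ca` is closed
under addition (`a` convex: `t (z - c) + t' (z' - c) = (t + t') (z'' - c)`) and positive multiples.  `-w₀ ∈ Y`: it is not `0` (`c ∉ a`), and `-w₀ = t (z - c)` gives
`c = (z₀ + t z)/(1 + t) ∈ a`, but `a ⊆ rb G` does not contain `c ∈ ri G`.  `Y` is star shaped about `-w₀` (`StarConvex`, then `StarConvex.isPathConnected` / `StarConvex.isConnected`): if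
`y ∈ Y`, `0 < s < 1` and `y' = (1 - s) y - s w₀` is in `Ca ∪ {0}` then `(1 - s) y = y' + s w₀ ∈ Ca`, so `y ∈ Ca`: contradiction; `s = 0, 1` are clear.
(3) the image of a connected set under a map which is continuous on it is connected.

`rb_not_two`: suppose `rb G ⊆ a ∪ b`.  `m = a ∩ b` is empty or a proper face, so `rb G \ m` is connected.  It is contained in the union of the closed sets `a` and `b` (closed, as empty or compact), whose
intersection misses it (`isPreconnected_closed_iff`): so it misses `a` or `b`, say `rb G \ m` misses `a`; then `rb G ⊆ b`; `ext G ⊆ rb G` (`ext_sub_rb`), so `G ⊆ b` (`sub_of_ext`; `b` is convex), so `b = G`: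
contradiction (and if `b = ∅` a contradiction too, as `G` has extreme points).
-/

namespace Pool.Agent.H40.PC

open Set Topology Pool.Agent.H61.PO

variable {E : Type*} [NormedAddCommGroup E] [NormedSpace ℝ E] [FiniteDimensional ℝ E]
  {G a b : Set E}

omit [FiniteDimensional ℝ E] in
private theorem rbc_ratio {c z z' : E} {t t' : ℝ} (ht : 0 < t) (ht' : 0 < t') :
    t • (z - c) + t' • (z' - c) =
      (t + t') • (((t / (t + t')) • z + (t' / (t + t')) • z') - c) := by
  have h : t + t' ≠ 0 := by positivity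
  have h1 : (t + t') * (t / (t + t')) = t := by field_simp
  have h2 : (t + t') * (t' / (t + t')) = t' := by field_simp
  rw [smul_sub (t + t'), smul_add, smul_smul, smul_smul, h1, h2, add_smul, smul_sub, smul_sub]
  abel

theorem rb_conn (hG : Body G) (hd : 2 ≤ dimc G) (ha : a = ∅ ∨ (IsFace G a ∧ a ≠ G)) :
    IsConnected (rb G \ a) := by
  obtain ⟨c, hc⟩ := ri_nonempty hG.1 hG.2.2
  have hcG : c ∈ G := ri_sub hc
  obtain ⟨g, gc, g0, gp, gh, gG, gri, grb⟩ := exists_gauge hG hc
  have haG : a ⊆ rb G := by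
    rcases ha with rfl | ⟨h1, h2⟩
    · exact empty_subset _
    · exact face_sub_rb hG h1 h2
  have haC : Convex ℝ a := by
    rcases ha with rfl | ⟨h1, h2⟩
    · exact convex_empty
    · exact h1.2.1
  have hcrb : c ∉ rb G := by
    intro h
    rw [rb_eq hG.2.1.isClosed] at h
    exact h.2 hc
  have hca : c ∉ a := fun h => hcrb (haG h)
  have hV : ∀ z ∈ G, z - c ∈ vectorSpan ℝ G := fun z hz => vsub_mem_vectorSpan ℝ hz hcG
  have haG' : a ⊆ G := fun z hz => rb_sub hG (haG hz)
  let Ca : Set (vectorSpan ℝ G) := {v | ∃ t : ℝ, 0 < t ∧ ∃ z ∈ a, (v : E) = t • (z - c)}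
  have Ca_add : ∀ v ∈ Ca, ∀ w ∈ Ca, v + w ∈ Ca := by
    rintro v ⟨t, ht, z, hz, hv⟩ w ⟨t', ht', z', hz', hw⟩
    refine ⟨t + t', by positivity, _, haC hz hz' (a := t / (t + t')) (b := t' / (t + t'))
      (by positivity) (by positivity) (by field_simp), ?_⟩
    rw [Submodule.coe_add, hv, hw]
    exact rbc_ratio ht ht'
  have Ca_smul : ∀ v ∈ Ca, ∀ s : ℝ, 0 < s → s • v ∈ Ca := by
    rintro v ⟨t, ht, z, hz, hv⟩ s hs
    exact ⟨s * t, by positivity, z, hz, by rw [Submodule.coe_smul, hv, smul_smul]⟩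
  have Ca_zero : (0 : vectorSpan ℝ G) ∉ Ca := by
    rintro ⟨t, ht, z, hz, hv⟩
    rw [Submodule.coe_zero] at hv
    have h1 : z - c = 0 := by
      rcases smul_eq_zero.1 hv.symm with h | h
      · exact absurd h ht.ne'
      · exact h
    exact hca (by rwa [sub_eq_zero.1 h1] at hz)
  let Y : Set (vectorSpan ℝ G) := {v | v ≠ 0 ∧ v ∉ Ca}
  let ρ : vectorSpan ℝ G → E := fun v => c + (g v)⁻¹ • (v : E)
  have hρc : ContinuousOn ρ Y := by
    intro v hv
    have h1 : g v ≠ 0 := (gp v hv.1).ne'
    exact (continuousAt_const.add ((gc.continuousAt.inv₀ h1).smul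
      continuous_subtype_val.continuousAt)).continuousWithinAt
  have himg : ρ '' Y = rb G \ a := by
    ext y
    constructor
    · rintro ⟨v, ⟨hv0, hvC⟩, rfl⟩
      have h1 : 0 < g v := gp v hv0
      constructor
      · have h2 := (grb ((g v)⁻¹ • v)).2 (by rw [gh _ _ (by positivity)]; field_simp)
        simpa [ρ] using h2
      · intro h2
        exact hvC ⟨g v, h1, ρ v, h2, by simp [ρ, smul_smul, h1.ne']⟩
    · rintro ⟨hy, hya⟩
      have hyG : y ∈ G := rb_sub hG hy
      let v : vectorSpan ℝ G := ⟨y - c, hV y hyG⟩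
      have hv : c + (v : E) = y := by simp [v]
      have h1 : g v = 1 := (grb v).1 (by rw [hv]; exact hy)
      refine ⟨v, ⟨?_, ?_⟩, ?_⟩
      · intro h0
        have := gh 0 v le_rfl
        rw [zero_smul, zero_mul] at this
        rw [h0] at h1
        rw [h1] at this
        exact one_ne_zero this
      · rintro ⟨t, ht, z, hz, hvz⟩
        let w : vectorSpan ℝ G := ⟨z - c, hV z (haG' hz)⟩
        have hw : c + (w : E) = z := by simp [w]
        have hw1 : g w = 1 := (grb w).1 (by rw [hw]; exact haG hz)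
        have hvw : v = t • w := by
          apply Subtype.ext
          rw [Submodule.coe_smul]
          exact hvz
        have h2 : g v = t * 1 := by rw [hvw, gh t w ht.le, hw1]
        have h3 : t = 1 := by rw [h1] at h2; linarith
        rw [h3, one_smul] at hvw
        rw [hvw, hw] at hv
        exact hya (hv ▸ hz)
      · show c + (g v)⁻¹ • (v : E) = y
        rw [h1, inv_one, one_smul, hv]
  have hYc : IsConnected Y := by
    rcases Set.eq_empty_or_nonempty a with h0 | ⟨z₀, hz₀⟩
    · have hY : Y = {0}ᶜ := by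
        ext v
        constructor
        · rintro ⟨h1, -⟩
          exact h1
        · intro h1
          refine ⟨h1, ?_⟩
          rintro ⟨t, ht, z, hz, -⟩
          rw [h0] at hz
          exact hz
      rw [hY]
      refine isConnected_compl_singleton_of_one_lt_rank ?_ 0
      have h1 : 1 < Module.finrank ℝ (vectorSpan ℝ G) := hd
      exact_mod_cast Module.lt_rank_of_lt_finrank h1
    · let w₀ : vectorSpan ℝ G := ⟨z₀ - c, hV z₀ (haG' hz₀)⟩
      have hw₀ : w₀ ∈ Ca := ⟨1, one_pos, z₀, hz₀, by simp [w₀]⟩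
      have hm : -w₀ ∈ Y := by
        constructor
        · intro h
          rw [neg_eq_zero] at h
          exact Ca_zero (h ▸ hw₀)
        · intro h
          have := Ca_add _ h _ hw₀
          rw [neg_add_cancel] at this
          exact Ca_zero this
      have hstar : StarConvex ℝ (-w₀) Y := by
        intro y hy s r hs hr hsr
        rcases hs.eq_or_lt with rfl | hs'
        · rw [zero_add] at hsr
          subst hsr
          simpa using hy
        rcases hr.eq_or_lt with rfl | hr'
        · rw [add_zero] at hsr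
          subst hsr
          simpa using hm
        have key : r • y = (s • -w₀ + r • y) + s • w₀ := by
          rw [smul_neg]; abel
        have hback : r • y ∈ Ca → y ∈ Ca := by
          intro h
          have := Ca_smul _ h r⁻¹ (by positivity)
          rwa [smul_smul, inv_mul_cancel₀ hr'.ne', one_smul] at this
        constructor
        · intro h
          rw [h, zero_add] at key
          exact hy.2 (hback (key ▸ Ca_smul _ hw₀ s hs'))
        · intro h
          exact hy.2 (hback (key ▸ Ca_add _ h _ (Ca_smul _ hw₀ s hs')))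
      exact (hstar.isPathConnected hm).isConnected
  rw [← himg]
  exact hYc.image ρ hρc

private theorem rbc_sub (hG : Body G) (hd : 2 ≤ dimc G) (hb : b = ∅ ∨ (IsFace G b ∧ b ≠ G))
    (h : rb G ⊆ b) : False := by
  have h1 : extremePoints ℝ G ⊆ b := (ext_sub_rb hG (by omega)).trans h
  have hbC : Convex ℝ b := by
    rcases hb with rfl | ⟨h1, h2⟩
    · exact convex_empty
    · exact h1.2.1
  have h2 : G ⊆ b := sub_of_ext hG hbC h1
  rcases hb with rfl | ⟨h3, h4⟩
  · obtain ⟨x, hx⟩ := hG.2.2
    exact h2 hx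
  · exact h4 (h3.sub.antisymm h2)

theorem rb_not_two (hG : Body G) (hd : 2 ≤ dimc G) (ha : a = ∅ ∨ (IsFace G a ∧ a ≠ G))
    (hb : b = ∅ ∨ (IsFace G b ∧ b ≠ G)) : ¬ rb G ⊆ a ∪ b := by
  intro h
  have hac : IsClosed a := by
    rcases ha with rfl | ⟨h1, h2⟩
    · exact isClosed_empty
    · exact h1.2.2.1.isClosed
  have hbc : IsClosed b := by
    rcases hb with rfl | ⟨h1, h2⟩
    · exact isClosed_empty
    · exact h1.2.2.1.isClosed
  have hm : a ∩ b = ∅ ∨ (IsFace G (a ∩ b) ∧ a ∩ b ≠ G) := by
    rcases Set.eq_empty_or_nonempty (a ∩ b) with h0 | h0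
    · exact Or.inl h0
    · right
      rcases ha with rfl | ⟨ha1, ha2⟩
      · simp at h0
      rcases hb with rfl | ⟨hb1, hb2⟩
      · simp at h0
      refine ⟨ha1.inter hb1 h0, fun h2 => ha2 ?_⟩
      exact ha1.sub.antisymm (h2 ▸ inter_subset_left)
  have hc := (rb_conn hG hd hm).isPreconnected
  rw [isPreconnected_closed_iff] at hc
  have h3 := hc a b hac hbc (sdiff_subset.trans h)
  by_cases hA : ((rb G \ (a ∩ b)) ∩ a).Nonempty
  · by_cases hB : ((rb G \ (a ∩ b)) ∩ b).Nonempty
    · obtain ⟨x, hx, hx'⟩ := h3 hA hB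
      exact hx.2 hx'
    · refine rbc_sub hG hd ha fun x hx => ?_
      by_contra hxa
      have hxb : x ∈ b := (h hx).resolve_left hxa
      exact hB ⟨x, ⟨hx, fun h4 => hxa h4.1⟩, hxb⟩
  · refine rbc_sub hG hd hb fun x hx => ?_
    by_contra hxb
    have hxa : x ∈ a := (h hx).resolve_right hxb
    exact hA ⟨x, ⟨hx, fun h4 => hxb h4.2⟩, hxa⟩

end Pool.Agent.H40.PC
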