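import Pool.Agent.H40.PC.Loc

/-!
# PC-11 the gauge of a body seen from a relatively interior point

`g = gauge (loc G c)`, `loc G c` (file Rin) is convex, compact and `0` is in its interior (`mem_int_loc`, `c ∈ ri G`), so it is absorbent and a neighbourhood of `0`.
`continuous_gauge`, `gauge_nonneg`, `gauge_smul_of_nonneg`, `gauge_pos` (bounded: `Bornology.IsVonNBounded`), `gauge_lt_one_iff_mem_interior` (or `interior_eq_gauge_lt_one`),
`gauge_le_one_iff_mem_closure`, with `closure (loc G c) = loc G c`.  `c + v ∈ G` iff `v ∈ loc G c` iff `g v ≤ 1`; `c + v ∈ ri G` iff `v ∈ interior (loc G c)` iff `g v < 1`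
(`mem_int_loc`); so `c + v ∈ rb G = G \ ri G` (`rb_eq`) iff `g v = 1`.
-/

namespace Pool.Agent.H40.PC

open Set Topology Pool.Agent.H61.PO

variable {E : Type*} [NormedAddCommGroup E] [NormedSpace ℝ E] [FiniteDimensional ℝ E]
  {G : Set E} {c : E}

theorem exists_gauge (hG : Body G) (hc : c ∈ ri G) :
    ∃ g : vectorSpan ℝ G → ℝ, Continuous g ∧ (∀ v, 0 ≤ g v) ∧ (∀ v, v ≠ 0 → 0 < g v) ∧
      (∀ (t : ℝ) v, 0 ≤ t → g (t • v) = t * g v) ∧
      (∀ v : vectorSpan ℝ G, c + (v : E) ∈ G ↔ g v ≤ 1) ∧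
      (∀ v : vectorSpan ℝ G, c + (v : E) ∈ ri G ↔ g v < 1) ∧
      (∀ v : vectorSpan ℝ G, c + (v : E) ∈ rb G ↔ g v = 1) := by
  have hcG : c ∈ G := ri_sub hc
  have hconv : Convex ℝ (loc G c) := loc_convex hG.1 c
  have hcomp : IsCompact (loc G c) := loc_compact hG.2.1 c
  have h0 : (0 : vectorSpan ℝ G) ∈ interior (loc G c) := by
    rw [mem_int_loc hcG]
    rw [ZeroMemClass.coe_zero, add_zero]
    exact hc
  have hn : loc G c ∈ 𝓝 (0 : vectorSpan ℝ G) := mem_interior_iff_mem_nhds.1 h0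
  have habs : Absorbent ℝ (loc G c) := absorbent_nhds_zero hn
  have hbd : Bornology.IsVonNBounded ℝ (loc G c) :=
    NormedSpace.isVonNBounded_of_isBounded _ hcomp.isBounded
  have hle : ∀ v : vectorSpan ℝ G, c + (v : E) ∈ G ↔ gauge (loc G c) v ≤ 1 := by
    intro v
    rw [gauge_le_one_iff_mem_closure hconv hn, hcomp.isClosed.closure_eq]
    exact Iff.rfl
  have hlt : ∀ v : vectorSpan ℝ G, c + (v : E) ∈ ri G ↔ gauge (loc G c) v < 1 := by
    intro v
    rw [gauge_lt_one_iff_mem_interior hconv hn, mem_int_loc hcG]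
  refine ⟨gauge (loc G c), continuous_gauge hconv hn, fun v => gauge_nonneg v,
    fun v hv => (gauge_pos habs hbd).2 hv, fun t v ht => ?_, hle, hlt, fun v => ?_⟩
  · rw [gauge_smul_of_nonneg ht, smul_eq_mul]
  · rw [rb_eq hG.2.1.isClosed, Set.mem_sdiff, hle v, hlt v]
    constructor
    · rintro ⟨h1, h2⟩
      exact le_antisymm h1 (not_lt.1 h2)
    · intro h
      exact ⟨h.le, fun h2 => absurd h h2.ne⟩

end Pool.Agent.H40.PC
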