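import Pool.Agent.H61.PO.Triv
import Pool.Agent.H40.PC.Rad

/-!
# PC-14 the relative boundary of a body of dimension two is a simple closed curve

`scc_rb`: `c ∈ ri F` (`ri_nonempty`), `g` from `exists_gauge`, `A : ℂ ≃L[ℝ] vectorSpan ℝ F` (`ContinuousLinearEquiv.ofFinrankEq` or similar; `Complex.finrank_real_complex`),
`φ z = c + (g (A z))⁻¹ • A z` on `sphere 0 1`: continuous (`g (A z) > 0`), values in `rb F`, onto `rb F` (for `y ∈ rb F` put `v = y - c`, `g v = 1`, `z = A⁻¹ v / ‖A⁻¹ v‖`: `φ z = y`), injective: `φ z = φ z'` gives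
`z = t z'` with `t > 0`, and the norms are `1`, so `t = 1`.  Then `SCC.image (scc_sphere one_pos)` (file PO/Triv.lean).
-/

namespace Pool.Agent.H40.PC

open Set Topology Metric Pool.Agent.H61.PO

variable {E : Type*} [NormedAddCommGroup E] [NormedSpace ℝ E] [FiniteDimensional ℝ E]
  {F : Set E}

theorem scc_rb (hF : Body F) (hd : dimc F = 2) : SCC (rb F) := by
  obtain ⟨c, hc⟩ := ri_nonempty hF.1 hF.2.2
  have hcF : c ∈ F := intrinsicInterior_subset hc
  obtain ⟨g, g1, -, g3, g4, -, -, g7⟩ := exists_gauge hF hc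
  have hfin : Module.finrank ℝ ℂ = Module.finrank ℝ (vectorSpan ℝ F) := by
    rw [Complex.finrank_real_complex]
    exact hd.symm
  let A : ℂ ≃L[ℝ] vectorSpan ℝ F := ContinuousLinearEquiv.ofFinrankEq hfin
  let φ : ℂ → E := fun z => c + (((g (A z))⁻¹ • A z : vectorSpan ℝ F) : E)
  have hne : ∀ z ∈ sphere (0 : ℂ) 1, A z ≠ 0 := by
    intro z hz h
    have h1 : z = 0 := A.injective (h.trans (map_zero A).symm)
    rw [h1] at hz
    simp at hz
  have hpos : ∀ z ∈ sphere (0 : ℂ) 1, 0 < g (A z) := fun z hz => g3 _ (hne z hz)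
  have hcont : ContinuousOn φ (sphere (0 : ℂ) 1) := by
    have h1 : ContinuousOn (fun z => g (A z)) (sphere (0 : ℂ) 1) :=
      (g1.comp A.continuous).continuousOn
    have h2 : ContinuousOn (fun z => (g (A z))⁻¹) (sphere (0 : ℂ) 1) :=
      h1.inv₀ fun z hz => (hpos z hz).ne'
    have h3 : ContinuousOn (fun z => (g (A z))⁻¹ • A z) (sphere (0 : ℂ) 1) :=
      h2.smul A.continuous.continuousOn
    exact continuousOn_const.add (continuous_subtype_val.comp_continuousOn h3)
  have hinj : InjOn φ (sphere (0 : ℂ) 1) := by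
    intro z hz z' hz' h
    have h1 : (g (A z))⁻¹ • A z = (g (A z'))⁻¹ • A z' := Subtype.ext (add_left_cancel h)
    rw [← map_smul, ← map_smul] at h1
    have h2 := A.injective h1
    have h3 := congrArg norm h2
    rw [mem_sphere_zero_iff_norm] at hz hz'
    rw [norm_smul, norm_smul, hz, hz', mul_one, mul_one, Real.norm_eq_abs, Real.norm_eq_abs,
      abs_of_pos (inv_pos.2 (hpos z (mem_sphere_zero_iff_norm.2 hz))),
      abs_of_pos (inv_pos.2 (hpos z' (mem_sphere_zero_iff_norm.2 hz')))] at h3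
    rw [h3] at h2
    exact smul_right_injective ℂ
      (inv_pos.2 (hpos z' (mem_sphere_zero_iff_norm.2 hz'))).ne' h2
  have himg : φ '' sphere (0 : ℂ) 1 = rb F := by
    ext y
    constructor
    · rintro ⟨z, hz, rfl⟩
      refine (g7 _).2 ?_
      rw [g4 _ _ (inv_nonneg.2 (hpos z hz).le)]
      exact inv_mul_cancel₀ (hpos z hz).ne'
    · intro hy
      have hyF : y ∈ F := by
        rw [rb_eq hF.2.1.isClosed] at hy
        exact hy.1
      have hv : y - c ∈ vectorSpan ℝ F := vsub_mem_vectorSpan ℝ hyF hcF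
      set v : vectorSpan ℝ F := ⟨y - c, hv⟩ with hvd
      have hcv : c + (v : E) = y := by
        show c + (y - c) = y
        abel
      have hg : g v = 1 := (g7 v).1 (by rw [hcv]; exact hy)
      have hv0 : v ≠ 0 := by
        intro h
        have h0 := g4 0 v le_rfl
        rw [zero_smul, zero_mul] at h0
        rw [h, h0] at hg
        exact zero_ne_one hg
      set w : ℂ := A.symm v with hw
      have hw0 : w ≠ 0 := by
        intro h
        apply hv0
        have h5 : A w = v := A.apply_symm_apply v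
        rw [← h5, h, map_zero]
      have hnw : 0 < ‖w‖ := norm_pos_iff.2 hw0
      refine ⟨(‖w‖⁻¹ : ℝ) • w, ?_, ?_⟩
      · rw [mem_sphere_zero_iff_norm, norm_smul, norm_inv, norm_norm]
        exact inv_mul_cancel₀ hnw.ne'
      · show c + (((g (A ((‖w‖⁻¹ : ℝ) • w)))⁻¹ • A ((‖w‖⁻¹ : ℝ) • w) : vectorSpan ℝ F) : E) = y
        have h5 : A w = v := A.apply_symm_apply v
        rw [map_smul, h5, g4 _ _ (inv_nonneg.2 hnw.le), hg, mul_one, inv_inv, smul_smul,
          mul_inv_cancel₀ hnw.ne', one_smul]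
        exact hcv
  rw [← himg]
  exact SCC.image (scc_sphere one_pos) hcont hinj

end Pool.Agent.H40.PC
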