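import Pool.Agent.H40.PC.DimB
import Pool.Agent.H40.PC.Edg
import Pool.Agent.H40.PC.Sli
import Pool.Agent.H40.PC.Bpar
import Pool.Agent.H40.PC.Rbc
import Pool.Agent.H40.PC.Scc
import Pool.Agent.H40.PC.Arc
import Pool.Agent.H40.PC.Lim
import Pool.Agent.H40.PC.Esc
import Pool.Agent.H40.PC.Cro
import Pool.Agent.H40.PC.Cha
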