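import Pool.Agent.H40.PC.Rin

/-!
# PC-02 faces: elementary facts

All proofs are 1 - 10 lines.  `IsExtreme ℝ K F`: `F ⊆ K` and, if a point of `F` lies in the open segment of two
points `x, y` of `K`, then `x ∈ F` (Mathlib: `IsExtreme.refl/trans/inter/mono`, `isExtreme_singleton`,
`IsExtreme.extremePoints_eq`).  Use `mem_ri_iff` and `rb_eq` (file Rin).

* `isFace_max`: if `z = a x + b y`, `a, b > 0`, `a + b = 1`, `η z = m`, `η x, η y ≤ m` then `η x = m`.  Closed subset
  of a compact set.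
* `sub_of_ri`: `y ∈ ri F`, `x ∈ F`: `p = y + t (y - x) ∈ F ⊆ K`, `y` is in the open segment of `x` and `p`
  (`y = (t/(1+t)) x + (1/(1+t)) p`), `y ∈ G`, so `x ∈ G`.
* `eq_of_ri`: `η (y + t (y - x)) = m + t (m - η x) ≤ m` gives `η x ≥ m`.
* `ri_segment`: `z = y + t (x - y)`, `w ∈ F`; take `r > 0` with `p = y + r (y - w) ∈ F` and `s = r (1 - t)/(1 + r t) > 0`;
  then `z + s (z - w) = (s/r) p + ((1+s) t) x` and `s/r + (1+s) t = 1`.
* `ri_convex`: from `ri_segment` (both points are in `F`; for `t = 1` trivial).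
* `face_sub_rb`: a point of `F` in `ri K` would give `K ⊆ F` by `sub_of_ri`.
* `supp_sub_rb`: by `eq_of_ri`.
-/

namespace Pool.Agent.H61.PO

open Set

variable {E : Type*} [NormedAddCommGroup E] [NormedSpace ℝ E] {K F G : Set E} {x y : E}

theorem IsFace.body (h : IsFace K F) : Pool.Agent.H40.PC.Body F := h.2

theorem IsFace.sub (h : IsFace K F) : F ⊆ K := h.1.subset

theorem IsFace.trans (h : IsFace K F) (h' : IsFace F G) : IsFace K G :=
  ⟨h.1.trans h'.1, h'.2⟩

/-- a face of `K` contained in `F ⊆ K` is a face of `F` -/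
theorem IsFace.mono (h : IsFace K G) (hF : F ⊆ K) (hG : G ⊆ F) : IsFace F G :=
  ⟨h.1.mono hF hG, h.2⟩

theorem IsFace.inter (h : IsFace K F) (h' : IsFace K G) (hn : (F ∩ G).Nonempty) :
    IsFace K (F ∩ G) :=
  ⟨h.1.inter h'.1, h.2.1.inter h'.2.1, h.2.2.1.inter_right h'.2.2.1.isClosed, hn⟩

end Pool.Agent.H61.PO

namespace Pool.Agent.H40.PC

open Set Pool.Agent.H61.PO

variable {E : Type*} [NormedAddCommGroup E] [NormedSpace ℝ E] {K F G : Set E} {x y : E}

theorem Body.isFace (h : Body K) : IsFace K K := ⟨IsExtreme.rfl, h⟩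

theorem isFace_max (hK : Body K) {η : E →L[ℝ] ℝ} {m : ℝ} (h1 : ∀ x ∈ K, η x ≤ m)
    (h2 : ∃ x ∈ K, η x = m) : IsFace K {x | x ∈ K ∧ η x = m} := by
  refine ⟨⟨fun x hx => hx.1, ?_⟩, ?_, ?_, ?_⟩
  · rintro x hx y hy z ⟨-, hz⟩ ⟨a, b, ha, hb, hab, rfl⟩
    refine ⟨hx, le_antisymm (h1 x hx) ?_⟩
    rw [map_add, map_smul, map_smul, smul_eq_mul, smul_eq_mul] at hz
    have h3 := h1 y hy
    by_contra hcon
    have h4 : η x < m := not_le.1 hcon
    have h5 : a * η x < a * m := mul_lt_mul_of_pos_left h4 ha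
    have h6 : b * η y ≤ b * m := mul_le_mul_of_nonneg_left h3 hb.le
    have h7 : a * m + b * m = m := by rw [← add_mul, hab, one_mul]
    linarith
  · exact hK.1.inter (convex_hyperplane η.toLinearMap.isLinear m)
  · exact hK.2.1.inter_right (isClosed_eq η.continuous continuous_const)
  · exact h2

theorem isFace_singleton : IsFace K {x} ↔ x ∈ extremePoints ℝ K :=
  ⟨fun h => isExtreme_singleton.1 h.1, fun h =>
    ⟨isExtreme_singleton.2 h, convex_singleton x, isCompact_singleton, singleton_nonempty x⟩⟩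

theorem ext_face (h : IsFace K F) : extremePoints ℝ F = F ∩ extremePoints ℝ K :=
  h.1.extremePoints_eq

theorem ri_sub : ri F ⊆ F := intrinsicInterior_subset

variable [FiniteDimensional ℝ E]

/-- a face which contains a relatively interior point of `F ⊆ K` contains `F` -/
theorem sub_of_ri (h : IsFace K G) (hF : F ⊆ K) (hF' : Convex ℝ F) (hy : y ∈ ri F) (hyG : y ∈ G) :
    F ⊆ G := by
  intro x hx
  obtain ⟨t, ht, hp⟩ := ((mem_ri_iff hF').1 hy).2 x hx
  refine h.1.left_mem_of_mem_openSegment (hF hx) (hF hp) hyG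
    ⟨t / (1 + t), 1 / (1 + t), by positivity, by positivity, by field_simp; ring, ?_⟩
  match_scalars <;> field_simp <;> ring

theorem eq_of_ri (hF : Convex ℝ F) {η : E →L[ℝ] ℝ} {m : ℝ} (hy : y ∈ ri F)
    (h1 : ∀ x ∈ F, η x ≤ m) (h2 : η y = m) : ∀ x ∈ F, η x = m := by
  intro x hx
  obtain ⟨t, ht, hp⟩ := ((mem_ri_iff hF).1 hy).2 x hx
  have h3 := h1 _ hp
  rw [map_add, map_smul, map_sub, h2, smul_eq_mul] at h3
  refine le_antisymm (h1 x hx) ?_
  by_contra hcon
  have h4 : 0 < m - η x := by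
    have := not_le.1 hcon
    linarith
  have h5 := mul_pos ht h4
  linarith

theorem ri_segment (hF : Convex ℝ F) (hy : y ∈ ri F) (hx : x ∈ F) {t : ℝ} (h0 : 0 ≤ t) (h1 : t < 1) :
    y + t • (x - y) ∈ ri F := by
  have hyF : y ∈ F := ri_sub hy
  rw [mem_ri_iff hF]
  refine ⟨hF.add_smul_sub_mem hyF hx ⟨h0, h1.le⟩, fun w hw => ?_⟩
  obtain ⟨r, hr, hp⟩ := ((mem_ri_iff hF).1 hy).2 w hw
  have hd : 0 < 1 + r * t := by positivity
  have h2 : 0 < 1 - t := by linarith
  refine ⟨r * (1 - t) / (1 + r * t), by positivity, ?_⟩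
  have h3 := hF hp hx (a := (1 - t) / (1 + r * t)) (b := (1 + r) * t / (1 + r * t))
    (by positivity) (by positivity) (by field_simp; ring)
  have h4 : ((1 - t) / (1 + r * t)) • (y + r • (y - w)) + ((1 + r) * t / (1 + r * t)) • x =
      y + t • (x - y) + (r * (1 - t) / (1 + r * t)) • (y + t • (x - y) - w) := by
    match_scalars <;> field_simp <;> ring
  rw [h4] at h3
  exact h3

theorem ri_convex (hF : Convex ℝ F) : Convex ℝ (ri F) := by
  intro x hx y hy a b ha hb hab
  rcases eq_or_lt_of_le ha with h | h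
  · have hb1 : b = 1 := by linarith
    rw [← h, hb1, zero_smul, one_smul, zero_add]
    exact hy
  · have h1 := ri_segment hF hx (ri_sub hy) (t := b) hb (by linarith)
    have h2 : x + b • (y - x) = a • x + b • y := by
      have : a = 1 - b := by linarith
      rw [this]
      module
    rwa [h2] at h1

/-- a proper face lies in the relative boundary -/
theorem face_sub_rb (hK : Body K) (h : IsFace K F) (hne : F ≠ K) : F ⊆ rb K := by
  rw [rb_eq hK.2.1.isClosed]
  intro x hx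
  exact ⟨h.sub hx, fun hri => hne (Subset.antisymm h.sub
    (sub_of_ri h Subset.rfl hK.1 hri hx))⟩

theorem supp_sub_rb (hK : Body K) {η : E →L[ℝ] ℝ} {m : ℝ} (h : Supp K η m) (hy : y ∈ K)
    (hm : η y = m) : y ∈ rb K := by
  rw [rb_eq hK.2.1.isClosed]
  refine ⟨hy, fun hri => ?_⟩
  obtain ⟨x, hx, hlt⟩ := h.2
  exact hlt.ne (eq_of_ri hK.1 hri h.1 hm x hx)

theorem rb_sub (hK : Body K) : rb K ⊆ K := by
  rw [rb_eq hK.2.1.isClosed]
  exact sdiff_subset

end Pool.Agent.H40.PC
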