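import Pool.Agent.H61.PO.Faces

/-!
# Pohl's conjecture (MP_beb0a3_gt), part C (convexity), helper40: definitions

Paper proof: note 1388 (helper61).  `IsFace`, `dimc`, `ri`, `rb` are helper61's definitions (`PO/Faces.lean`).
`Body K`: compact, convex, not empty.  `mface K y` is the smallest face of `K` containing `y`,
`Supp K η m`: `η ≤ m` on `K` and not `η = m` on `K`, `loc F c` is `F - c` as a subset of the direction space.
-/

namespace Pool.Agent.H40.PC

open Set Pool.Agent.H61.PO

variable {E : Type*} [NormedAddCommGroup E] [NormedSpace ℝ E]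

/-- compact, convex, not empty -/
def Body (K : Set E) : Prop := Convex ℝ K ∧ IsCompact K ∧ K.Nonempty

/-- smallest face of `K` containing `y` -/
def mface (K : Set E) (y : E) : Set E := ⋂₀ {F | IsFace K F ∧ y ∈ F}

/-- `η ≤ m` on `K` and `η < m` somewhere on `K` -/
def Supp (K : Set E) (η : E →L[ℝ] ℝ) (m : ℝ) : Prop := (∀ x ∈ K, η x ≤ m) ∧ ∃ x ∈ K, η x < m

/-- `F` seen from `c`, as a subset of the direction space -/
def loc (F : Set E) (c : E) : Set (vectorSpan ℝ F) := {v | c + (v : E) ∈ F}

end Pool.Agent.H40.PC
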