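import Pool.Agent.H40.PC.Loc
import Pool.Agent.H40.PC.Dim

/-!
# PC-05 proper faces lie in proper exposed faces; dimension of faces

* `exists_supp_face`: take `y ∈ ri F` (`ri_nonempty`); `y ∈ rb K` (`face_sub_rb`), `exists_supp` gives `η` with
  `Supp K η (η y)`; `eq_of_ri` on `F` (`F ⊆ K`).
* `face_dim_lt`: `exists_supp_face` and `dimc_lt`.
* `face_eq_of_dim`: `F` is a face of `G` (`IsFace.mono`), use `face_dim_lt` if `F ≠ G`.
* `inter_dim`: `F ∩ G = F` would give `F ⊆ G`, so `F = G` by `face_eq_of_dim`.  If `F ∩ G` is empty its dimension is `0` (`vectorSpan_empty`),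
  otherwise it is a face of `K` and a proper face of `F`.
* `face_induction`: by strong induction on `n = dimc C` for all faces `C` of `K` with `P C` and all faces `F` of `K` with
  `F ⊆ C`: if `F = C` done; otherwise `F` is a face of `C`, `exists_supp_face` gives `η, m`, `C' = {x ∈ C | η x = m}` contains `F`,
  is a face of `C` (`isFace_max`), so of `K`, `C' ≠ C`, so `dimc C' < dimc C`.
* `ext_sub_rb`: `{x}` is a face (`isFace_singleton`), not `F` by the dimension (`dimc_singleton`); `face_sub_rb`.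
-/

namespace Pool.Agent.H40.PC

open Set Pool.Agent.H61.PO

variable {E : Type*} [NormedAddCommGroup E] [NormedSpace ℝ E] [FiniteDimensional ℝ E]
  {K F G : Set E} {x y : E}

/-- a proper face lies in a proper exposed face -/
theorem exists_supp_face (hK : Body K) (hF : IsFace K F) (hne : F ≠ K) :
    ∃ (η : E →L[ℝ] ℝ) (m : ℝ), Supp K η m ∧ ∀ x ∈ F, η x = m := by
  obtain ⟨y, hy⟩ := ri_nonempty hF.body.1 hF.body.2.2
  have hyF : y ∈ F := ri_sub hy
  obtain ⟨η, hη⟩ := exists_supp hK (face_sub_rb hK hF hne hyF)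
  exact ⟨η, η y, hη, eq_of_ri hF.body.1 hy (fun x hx => hη.1 x (hF.sub hx)) rfl⟩

theorem face_dim_lt (hK : Body K) (hF : IsFace K F) (hne : F ≠ K) : dimc F < dimc K := by
  obtain ⟨η, m, hS, hm⟩ := exists_supp_face hK hF hne
  obtain ⟨x, hx, hlt⟩ := hS.2
  exact dimc_lt hF.sub hF.body.2.2 hm ⟨x, hx, hlt.ne⟩

theorem face_eq_of_dim (hF : IsFace K F) (hG : IsFace K G) (h : F ⊆ G) (hd : dimc G ≤ dimc F) :
    F = G := by
  by_contra hne
  have := face_dim_lt hG.body (hF.mono hG.sub h) hne
  omega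

omit [FiniteDimensional ℝ E] in
private theorem Fac_dimc_empty : dimc (∅ : Set E) = 0 := by
  unfold dimc
  rw [vectorSpan_empty, finrank_bot]

theorem inter_dim (hF : IsFace K F) (hG : IsFace K G) (hd : dimc F = dimc G) (h0 : 0 < dimc F)
    (hne : F ≠ G) : F ∩ G ≠ F ∧ F ∩ G ≠ G ∧ dimc (F ∩ G) < dimc F := by
  have h1 : F ∩ G ≠ F := fun h =>
    hne (face_eq_of_dim hF hG (inter_eq_left.1 h) hd.ge)
  have h2 : F ∩ G ≠ G := fun h =>
    hne (face_eq_of_dim hG hF (inter_eq_right.1 h) hd.le).symm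
  refine ⟨h1, h2, ?_⟩
  rcases (F ∩ G).eq_empty_or_nonempty with he | hn
  · rw [he, Fac_dimc_empty]
    exact h0
  · exact face_dim_lt hF.body ((hF.inter hG hn).mono hF.sub inter_subset_left) h1

/-- a property of faces which passes to exposed faces holds for all faces -/
theorem face_induction (hK : Body K) {P : Set E → Prop} (h0 : P K)
    (h1 : ∀ C, IsFace K C → P C → ∀ (η : E →L[ℝ] ℝ) (m : ℝ), (∀ x ∈ C, η x ≤ m) →
      (∃ x ∈ C, η x = m) → P {x | x ∈ C ∧ η x = m}) (hF : IsFace K F) : P F := by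
  have key : ∀ n : ℕ, ∀ C : Set E, dimc C = n → IsFace K C → P C →
      ∀ F : Set E, IsFace K F → F ⊆ C → P F := by
    intro n
    induction n using Nat.strong_induction_on with
    | _ n ih =>
      intro C hn hC hPC F hF hFC
      by_cases hne : F = C
      · rw [hne]; exact hPC
      · obtain ⟨η, m, hS, hm⟩ := exists_supp_face hC.body (hF.mono hC.sub hFC) hne
        obtain ⟨z, hz⟩ := hF.body.2.2
        have hex : ∃ x ∈ C, η x = m := ⟨z, hFC hz, hm z hz⟩
        have hC' : IsFace C {x | x ∈ C ∧ η x = m} := isFace_max hC.body hS.1 hex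
        have hne' : {x | x ∈ C ∧ η x = m} ≠ C := by
          intro he
          obtain ⟨x, hx, hlt⟩ := hS.2
          rw [← he] at hx
          exact hlt.ne hx.2
        have hd := face_dim_lt hC.body hC' hne'
        exact ih _ (hn ▸ hd) _ rfl (hC.trans hC') (h1 C hC hPC η m hS.1 hex) F hF
          fun x hx => ⟨hFC hx, hm x hx⟩
  exact key _ K rfl hK.isFace h0 F hF hF.sub

theorem ext_sub_rb (hF : Body F) (hd : 0 < dimc F) : extremePoints ℝ F ⊆ rb F := by
  intro x hx
  refine face_sub_rb hF (isFace_singleton.2 hx) ?_ (mem_singleton x)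
  intro he
  rw [← he, dimc_singleton] at hd
  exact lt_irrefl 0 hd

end Pool.Agent.H40.PC
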