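import Pool.Agent.H40.PC.Min

/-!
# PC-08 compactness of convex hulls

* `hull_compact`: finite dimension.  Let `J 0 = A`, `J (n+1) = convexJoin ℝ A (J n)`.  All `J n` are compact: `convexJoin ℝ A B` is the image of the compact set
  `A ×ˢ B ×ˢ Icc 0 1` under `(a, b, t) ↦ a + t (b - a)`; all `J n` are contained in `convexHull A` (`convexJoin_subset`).
  `t` a finite set, `t ⊆ A`, `t` not empty, `card t ≤ n + 1` implies `convexHull t ⊆ J n`
  (induction, `convexHull_insert`, and `J n ⊆ J (n+1)` by `subset_convexJoin_right`).  By `convexHull_eq_union` (Caratheodory) and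
  `AffineIndependent.card_le_finrank_succ` (or similar) `convexHull A = J (finrank E)`.  (`A` empty is trivial.)
* `hull_union_body`: special case.
* `hul_body`, `ext_hul`: `M` compact and not empty; `hul f = convexHull (range f)`; `extremePoints_convexHull_subset`.
-/

namespace Pool.Agent.H40.PC

open Set Topology Pool.Agent.H61.PO

variable {E : Type*} [NormedAddCommGroup E] [NormedSpace ℝ E] [FiniteDimensional ℝ E]
  {K F G C A : Set E} {x y p q : E}

omit [FiniteDimensional ℝ E] in
private lemma h58_join_compact {A B : Set E} (hA : IsCompact A) (hB : IsCompact B) :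
    IsCompact (convexJoin ℝ A B) := by
  have h1 : convexJoin ℝ A B =
      (fun p : E × E × ℝ => p.1 + p.2.2 • (p.2.1 - p.1)) '' (A ×ˢ (B ×ˢ Icc (0 : ℝ) 1)) := by
    ext z
    simp only [mem_convexJoin, segment_eq_image', mem_image, mem_prod, Prod.exists]
    constructor
    · rintro ⟨a, ha, b, hb, θ, hθ, rfl⟩
      exact ⟨a, b, θ, ⟨ha, hb, hθ⟩, rfl⟩
    · rintro ⟨a, b, θ, ⟨ha, hb, hθ⟩, rfl⟩
      exact ⟨a, ha, b, hb, θ, hθ, rfl⟩
  rw [h1]
  refine (hA.prod (hB.prod isCompact_Icc)).image ?_
  fun_prop

/-- iterated joins -/
private def h58J (A : Set E) : ℕ → Set E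
  | 0 => A
  | n + 1 => convexJoin ℝ A (h58J A n)

theorem hull_compact (hA : IsCompact A) : IsCompact (convexHull ℝ A) := by
  classical
  rcases A.eq_empty_or_nonempty with rfl | hne
  · simp
  have hJc : ∀ n, IsCompact (h58J A n) := by
    intro n
    induction n with
    | zero => exact hA
    | succ n ih => exact h58_join_compact hA ih
  have hJs : ∀ n, h58J A n ⊆ convexHull ℝ A := by
    intro n
    induction n with
    | zero => exact subset_convexHull ℝ A
    | succ n ih => exact convexJoin_subset (subset_convexHull ℝ A) ih (convex_convexHull ℝ A)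
  have hJm : ∀ n, h58J A n ⊆ h58J A (n + 1) := fun n => subset_convexJoin_right hne
  have hAJ : ∀ n, A ⊆ h58J A n := by
    intro n
    induction n with
    | zero => exact subset_rfl
    | succ n ih => exact ih.trans (hJm n)
  have key : ∀ (n : ℕ) (t : Finset E), (t : Set E) ⊆ A → t.card ≤ n + 1 →
      convexHull ℝ (t : Set E) ⊆ h58J A n := by
    intro n
    induction n with
    | zero =>
      intro t ht hc
      rcases t.eq_empty_or_nonempty with rfl | hn
      · simp
      · have h1 : t.card = 1 := le_antisymm hc hn.card_pos
        obtain ⟨a, rfl⟩ := Finset.card_eq_one.mp h1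
        simpa [h58J] using ht
    | succ n ih =>
      intro t ht hc
      rcases t.eq_empty_or_nonempty with rfl | hn
      · simp
      obtain ⟨a, ha⟩ := hn
      have h1 : t = insert a (t.erase a) := (Finset.insert_erase ha).symm
      rcases (t.erase a).eq_empty_or_nonempty with h2 | h2
      · rw [h2] at h1
        have h3 : a ∈ A := ht ha
        rw [h1]
        simpa using hAJ (n + 1) h3
      · have h3 : ((t.erase a : Finset E) : Set E) ⊆ A := fun x hx =>
          ht (Finset.mem_of_mem_erase hx)
        have h4 : (t.erase a).card ≤ n + 1 := by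
          rw [Finset.card_erase_of_mem ha]; omega
        have h5 := ih (t.erase a) h3 h4
        rw [h1, Finset.coe_insert, convexHull_insert (by exact_mod_cast h2)]
        exact convexJoin_mono (by simpa using ht ha) h5
  have h1 : convexHull ℝ A = h58J A (Module.finrank ℝ E) := by
    refine subset_antisymm ?_ (hJs _)
    rw [convexHull_eq_union]
    refine iUnion_subset fun t => iUnion_subset fun ht => iUnion_subset fun hai => ?_
    refine key _ t ht ?_
    have h2 := hai.card_le_finrank_succ
    rw [Fintype.card_coe] at h2
    exact h2.trans (Nat.succ_le_succ (Submodule.finrank_le _))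
  rw [h1]
  exact hJc _

theorem hull_union_body (hF : Body F) (hG : Body G) : Body (convexHull ℝ (F ∪ G)) :=
  ⟨convex_convexHull ℝ _, hull_compact (hF.2.1.union hG.2.1),
    (hF.2.2.mono subset_union_left).mono (subset_convexHull ℝ _)⟩

theorem hul_body {M : Type*} [TopologicalSpace M] [CompactSpace M] [Nonempty M] {f : M → E}
    (hf : Continuous f) : Body (hul f) :=
  ⟨convex_convexHull ℝ _, hull_compact (isCompact_range hf),
    (range_nonempty f).mono (subset_convexHull ℝ _)⟩

theorem ext_hul {M : Type*} {f : M → E} [TopologicalSpace M] :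
    extremePoints ℝ (hul f) ⊆ range f := extremePoints_convexHull_subset

end Pool.Agent.H40.PC
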