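import Pool.Agent.H40.PC.Bas

/-!
# PC-03 supporting functionals, compactness of the relative boundary

`loc F c = {v ∈ vectorSpan F | c + v ∈ F}`.

* `ri_nonempty`: from `loc_int_nonempty` and `mem_int_loc`.
* `exists_supp`: `y ∈ rb F`: `0 ∉ interior (loc F y)`.  `geometric_hahn_banach_of_nonempty_interior_point` (or
  `geometric_hahn_banach_open_point` for the interior and closure of the interior) gives
  `f ≠ 0` on the direction space with `f ≤ 0` on `loc F y`; extend it to `E` (`Real.exists_extension_norm_eq` or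
  `exists_extension_norm_eq`, or finite dimension).  `f = 0` on `loc F y` would give `f = 0` (the interior of `loc F y` is not empty, or
  the span), so some `x ∈ F` has `η x < η y`.
* `rb_compact`: `rb F` is closed in the closed set `F`: it is the image of the
  compact set `loc F c minus interior` under `v ↦ c + v` (fixed `c ∈ F`); or `isClosed_intrinsicFrontier`.
* `ri_of_interior`: `interior F ⊆ ri F` is clear.  Conversely for `y ∈ ri F` and `w ∈ interior F` take
  `p = y + t (y - w) ∈ F`, `y` in the open segment of `w`, `p`.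
* `ri_open`: if `y ∈ ri F` then there is `r > 0` such that all `z ∈ affineSpan ℝ F` with `dist z y < r` are in `ri F`
  (`mem_int_loc` with `c = y`: the interior of `loc F y` is open and contains `0`).
* `mem_closure_ri`: every point of `F` is a limit of points of `ri F` (`ri_segment`).
* `exists_exit`: the set of `t ≥ 0` with `y + t (y - x) ∈ K` is compact (closed, bounded as `K` is bounded and `y ≠ x`) and contains `0`;
  let `t` be its maximum and `p = y + t (y - x)`.  If `p ∈ ri K` then `p + r (p - x) = y + (t + r + r t) (y - x) ∈ K` for some `r > 0`: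
  contradiction.
-/

namespace Pool.Agent.H40.PC

open Set Topology Pool.Agent.H61.PO

variable {E : Type*} [NormedAddCommGroup E] [NormedSpace ℝ E] [FiniteDimensional ℝ E]
  {K F G : Set E} {c x y : E}

theorem ri_nonempty (hF : Convex ℝ F) (hn : F.Nonempty) : (ri F).Nonempty := by
  obtain ⟨c, hc⟩ := hn
  obtain ⟨v, hv⟩ := loc_int_nonempty hF hc
  exact ⟨c + (v : E), (mem_int_loc hc v).1 hv⟩

/-- supporting functional at a point of the relative boundary -/
theorem exists_supp (hF : Body F) (hy : y ∈ rb F) : ∃ η : E →L[ℝ] ℝ, Supp F η (η y) := by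
  rw [rb_eq hF.2.1.isClosed] at hy
  obtain ⟨hyF, hyr⟩ := hy
  have h0 : (0 : vectorSpan ℝ F) ∉ interior (loc F y) := by
    intro h
    have h1 := (mem_int_loc hyF 0).1 h
    simp only [ZeroMemClass.coe_zero, add_zero] at h1
    exact hyr h1
  have hconv : Convex ℝ (loc F y) := loc_convex hF.1 y
  obtain ⟨f, hf⟩ := geometric_hahn_banach_open_point hconv.interior isOpen_interior h0
  obtain ⟨w, hw⟩ := loc_int_nonempty hF.1 hyF
  have hf0 : ∀ v ∈ loc F y, f v ≤ 0 := by
    intro v hv
    by_contra hc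
    push Not at hc
    have hw0 : f w < 0 := by
      have := hf w hw
      rwa [map_zero] at this
    -- the point `(1 - t) v + t w` with `t = f v / (2 (f v - f w))`
    have hd : 0 < f v - f w := by linarith
    have ht0 : 0 < f v / (2 * (f v - f w)) := by positivity
    have ht1 : f v / (2 * (f v - f w)) < 1 := by
      rw [div_lt_one (by positivity)]
      linarith
    set t := f v / (2 * (f v - f w)) with ht
    have hmem : t • w + (1 - t) • v ∈ interior (loc F y) :=
      hconv.combo_interior_self_mem_interior hw hv ht0 (by linarith) (by ring)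
    have h3 := hf _ hmem
    rw [map_zero, map_add, map_smul, map_smul, smul_eq_mul, smul_eq_mul] at h3
    have h4 : t * (f v - f w) = f v / 2 := by
      rw [ht]
      field_simp
    nlinarith
  obtain ⟨η, hη, -⟩ := exists_extension_norm_eq (vectorSpan ℝ F) f
  refine ⟨η, fun x hx => ?_, y + (w : E), ?_, ?_⟩
  · have hv : x - y ∈ vectorSpan ℝ F := vsub_mem_vectorSpan ℝ hx hyF
    have h1 : (⟨x - y, hv⟩ : vectorSpan ℝ F) ∈ loc F y := by
      show y + (x - y) ∈ F
      rwa [add_sub_cancel]
    have h2 := hf0 _ h1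
    rw [← hη] at h2
    have h3 : η (x - y) ≤ 0 := h2
    rw [map_sub] at h3
    linarith
  · have hwl : w ∈ loc F y := interior_subset hw
    exact hwl
  · have hw0 := hf w hw
    rw [map_zero, ← hη] at hw0
    rw [map_add]
    linarith

theorem rb_compact (hF : Body F) : IsCompact (rb F) :=
  hF.2.1.of_isClosed_subset
    (isClosed_intrinsicFrontier (AffineSubspace.closed_of_finiteDimensional _))
    (intrinsicFrontier_subset hF.2.1.isClosed)

theorem ri_of_interior (hF : Convex ℝ F) (h : (interior F).Nonempty) : ri F = interior F := by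
  apply Subset.antisymm
  · intro y hy
    obtain ⟨w, hw⟩ := h
    obtain ⟨hyF, h1⟩ := (mem_ri_iff hF).1 hy
    obtain ⟨t, ht, hp⟩ := h1 w (interior_subset hw)
    refine hF.openSegment_interior_self_subset_interior hw hp ?_
    refine ⟨t / (1 + t), 1 / (1 + t), by positivity, by positivity, by field_simp; ring, ?_⟩
    have e : (1 + t) ≠ 0 := by positivity
    have e1 : (t / (1 + t)) • w + (1 / (1 + t)) • (y + t • (y - w)) =
        (t / (1 + t) - 1 / (1 + t) * t) • w + (1 / (1 + t) * (1 + t)) • y := by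
      module
    rw [e1, div_mul_cancel₀ _ e, show t / (1 + t) - 1 / (1 + t) * t = 0 by ring, zero_smul,
      one_smul, zero_add]
  · intro y hy
    rw [mem_ri_iff hF]
    refine ⟨interior_subset hy, fun x _ => ?_⟩
    obtain ⟨r, hr, hb⟩ := Metric.mem_nhds_iff.1 (mem_interior_iff_mem_nhds.1 hy)
    refine ⟨r / (2 * (‖y - x‖ + 1)), by positivity, hb ?_⟩
    rw [Metric.mem_ball, dist_eq_norm, add_sub_cancel_left, norm_smul, Real.norm_eq_abs,
      abs_of_pos (by positivity)]
    rw [div_mul_eq_mul_div, div_lt_iff₀ (by positivity)]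
    nlinarith [norm_nonneg (y - x)]

theorem rb_eq_frontier (hF : Body F) (h : (interior F).Nonempty) : rb F = frontier F := by
  rw [rb_eq hF.2.1.isClosed, ri_of_interior hF.1 h, hF.2.1.isClosed.frontier_eq]

theorem ri_open (hy : y ∈ ri F) :
    ∃ r : ℝ, 0 < r ∧ ∀ z ∈ affineSpan ℝ F, dist z y < r → z ∈ ri F := by
  obtain ⟨y', hy', rfl⟩ := hy
  obtain ⟨r, hr, hb⟩ := Metric.isOpen_iff.1 isOpen_interior y' hy'
  refine ⟨r, hr, fun z hz hd => ⟨⟨z, hz⟩, hb ?_, rfl⟩⟩
  rw [Metric.mem_ball, Subtype.dist_eq]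
  exact hd

theorem mem_closure_ri (hF : Convex ℝ F) (hx : x ∈ F) : x ∈ closure (ri F) := by
  obtain ⟨y, hy⟩ := ri_nonempty hF ⟨x, hx⟩
  have h1 : Filter.Tendsto (fun t : ℝ => y + t • (x - y)) (𝓝[<] 1) (𝓝 x) := by
    have h2 : Continuous fun t : ℝ => y + t • (x - y) := by fun_prop
    have h3 := h2.tendsto 1
    rw [one_smul, add_sub_cancel] at h3
    exact h3.mono_left nhdsWithin_le_nhds
  refine mem_closure_of_tendsto h1 ?_
  have hI : Ico (0 : ℝ) 1 ∈ 𝓝[<] (1 : ℝ) := Ico_mem_nhdsLT one_pos
  filter_upwards [hI] with t ht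
  exact ri_segment hF hy hx ht.1 ht.2

/-- the ray from `x` through `y` leaves `K` in a point of the relative boundary -/
theorem exists_exit (hK : Body K) (hy : y ∈ K) (hx : x ∈ K) (hne : y ≠ x) :
    ∃ t : ℝ, 0 ≤ t ∧ y + t • (y - x) ∈ rb K := by
  have hn : 0 < ‖y - x‖ := norm_pos_iff.2 (sub_ne_zero.2 hne)
  obtain ⟨R, hR⟩ := hK.2.1.isBounded.subset_closedBall y
  have hcl : IsClosed {t : ℝ | 0 ≤ t ∧ y + t • (y - x) ∈ K} := by
    refine IsClosed.inter (isClosed_le continuous_const continuous_id) ?_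
    exact hK.2.1.isClosed.preimage (by fun_prop : Continuous fun t : ℝ => y + t • (y - x))
  have hsub : {t : ℝ | 0 ≤ t ∧ y + t • (y - x) ∈ K} ⊆ Icc 0 (R / ‖y - x‖) := by
    rintro t ⟨h0, h1⟩
    refine ⟨h0, ?_⟩
    rw [le_div_iff₀ hn]
    have h2 := hR h1
    rw [Metric.mem_closedBall, dist_eq_norm, add_sub_cancel_left, norm_smul, Real.norm_eq_abs,
      abs_of_nonneg h0] at h2
    exact h2
  have hcomp : IsCompact {t : ℝ | 0 ≤ t ∧ y + t • (y - x) ∈ K} :=
    isCompact_Icc.of_isClosed_subset hcl hsub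
  obtain ⟨t, ⟨ht0, htK⟩, hmax⟩ := hcomp.exists_isGreatest
    ⟨0, le_refl 0, by rw [zero_smul, add_zero]; exact hy⟩
  refine ⟨t, ht0, ?_⟩
  rw [rb_eq hK.2.1.isClosed]
  refine ⟨htK, fun h => ?_⟩
  obtain ⟨r, hr, h1⟩ := ((mem_ri_iff hK.1).1 h).2 x hx
  have e : y + t • (y - x) + r • (y + t • (y - x) - x) = y + (t + r * (1 + t)) • (y - x) := by
    module
  rw [e] at h1
  have h2 := hmax ⟨by positivity, h1⟩
  have : 0 < r * (1 + t) := by positivity
  linarith

end Pool.Agent.H40.PC
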