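import Pool.Agent.H40.PC.Defs

/-!
# PC-01 relative interior and relative boundary

`ri F = intrinsicInterior ℝ F`, `rb F = intrinsicFrontier ℝ F` (PO/Faces.lean).

* `rb_eq`: `closure_diff_intrinsicInterior` (finite dimension) and `F` closed.
* `mem_int_loc`: `c ∈ F`.  `intrinsicInterior ℝ F` is the image under the inclusion of the interior of the preimage of `F` in
  the subtype `affineSpan ℝ F`; the map `v ↦ c + v` is a homeomorphism from `vectorSpan ℝ F = (affineSpan ℝ F).direction`
  (`direction_affineSpan`) onto `affineSpan ℝ F` (its inverse is `x ↦ x - c`; both are continuous as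
  they are restrictions of continuous maps of `E`).  Hence `v ∈ interior (loc F c)` iff `c + v ∈ ri F`.  It may be easier to use
  balls: both sides say that there is `r > 0` such that all `z ∈ affineSpan ℝ F` with `dist z (c + v) < r` are in `F`.
* `mem_ri_iff`, `=>`: `y ∈ F` (`intrinsicInterior_subset`); for `x ∈ F` the points `y + t (y - x) = lineMap` are in
  `affineSpan ℝ F` and tend to `y` for `t -> 0`, so they are in `F` for a small `t > 0` (balls as above with `c = y`, `v = 0`).
  `<=`: `interior (loc F y)` is not empty: `affineSpan ℝ (loc F y) = ⊤` (`vectorSpan ℝ F` is spanned by the `x - y`, `x ∈ F`,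
  and `0 ∈ loc F y`), then `Convex.interior_nonempty_iff_affineSpan_eq_top` or `interior_convexHull_nonempty_iff_affineSpan_eq_top`.
  Let `w` be in the interior, `x = y + w ∈ F`, `t > 0` with `y + t (y - x) ∈ F`, that is `- t w ∈ loc F y`;
  `0 = (1/(1+t)) (- t w) + (t/(1+t)) w` is interior (`Convex.combo_self_interior_mem_interior` or similar), so `y ∈ ri F`.
-/

namespace Pool.Agent.H40.PC

open Set Topology Pool.Agent.H61.PO

variable {E : Type*} [NormedAddCommGroup E] [NormedSpace ℝ E] [FiniteDimensional ℝ E]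
  {K F G : Set E} {c x y : E}

private theorem rin_ball {F : Set E} {y : E} :
    y ∈ ri F ↔ y ∈ affineSpan ℝ F ∧ ∃ r : ℝ, 0 < r ∧ ∀ z ∈ affineSpan ℝ F, dist z y < r → z ∈ F := by
  unfold ri
  rw [mem_intrinsicInterior]
  constructor
  · rintro ⟨z, hz, rfl⟩
    refine ⟨z.2, ?_⟩
    rw [mem_interior_iff_mem_nhds, Metric.mem_nhds_iff] at hz
    obtain ⟨r, hr, hb⟩ := hz
    refine ⟨r, hr, fun w hw hd => ?_⟩
    have : (⟨w, hw⟩ : affineSpan ℝ F) ∈ Metric.ball z r := by
      rw [Metric.mem_ball]
      exact hd
    exact hb this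
  · rintro ⟨hy, r, hr, h⟩
    refine ⟨⟨y, hy⟩, ?_, rfl⟩
    rw [mem_interior_iff_mem_nhds, Metric.mem_nhds_iff]
    refine ⟨r, hr, fun w hw => ?_⟩
    rw [Metric.mem_ball] at hw
    exact h w w.2 hw

theorem loc_convex (hF : Convex ℝ F) (c : E) : Convex ℝ (loc F c) := by
  intro v hv w hw a b ha hb hab
  have h := hF hv hw ha hb hab
  change c + ((a • v + b • w : vectorSpan ℝ F) : E) ∈ F
  have e : c + ((a • v + b • w : vectorSpan ℝ F) : E) = a • (c + (v : E)) + b • (c + (w : E)) := by
    push_cast
    rw [smul_add, smul_add]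
    calc c + (a • (v : E) + b • (w : E)) = (a + b) • c + (a • (v : E) + b • (w : E)) := by
          rw [hab, one_smul]
      _ = a • c + a • (v : E) + (b • c + b • (w : E)) := by
          rw [add_smul]
          abel
  rw [e]
  exact h

/-- preimage of a compact set under the closed embedding `v ↦ c + v` -/
theorem loc_compact (hF : IsCompact F) (c : E) : IsCompact (loc F c) := by
  have hcl : Topology.IsClosedEmbedding (fun v : vectorSpan ℝ F => c + (v : E)) := by
    have h1 : Topology.IsClosedEmbedding (fun v : vectorSpan ℝ F => (v : E)) :=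
      (Submodule.closed_of_finiteDimensional (vectorSpan ℝ F)).isClosedEmbedding_subtypeVal
    exact (Homeomorph.addLeft c).isClosedEmbedding.comp h1
  exact hcl.isCompact_preimage hF

theorem loc_int_nonempty (hF : Convex ℝ F) (hc : c ∈ F) : (interior (loc F c)).Nonempty := by
  have hne : (ri F).Nonempty := Set.Nonempty.intrinsicInterior hF ⟨c, hc⟩
  obtain ⟨y, hy⟩ := hne
  rw [rin_ball] at hy
  obtain ⟨hy, r, hr, h⟩ := hy
  have hc' : c ∈ affineSpan ℝ F := subset_affineSpan ℝ F hc
  have hv : y - c ∈ vectorSpan ℝ F := by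
    have := AffineSubspace.vsub_mem_direction hy hc'
    rwa [direction_affineSpan] at this
  refine ⟨⟨y - c, hv⟩, ?_⟩
  rw [mem_interior_iff_mem_nhds, Metric.mem_nhds_iff]
  refine ⟨r, hr, fun w hw => ?_⟩
  rw [Metric.mem_ball] at hw
  change c + (w : E) ∈ F
  apply h
  · have : (w : E) ∈ (affineSpan ℝ F).direction := by
      rw [direction_affineSpan]
      exact w.2
    have h2 := AffineSubspace.vadd_mem_of_mem_direction this hc'
    rw [vadd_eq_add, add_comm] at h2
    exact h2
  · have e : dist (c + (w : E)) y = dist w ⟨y - c, hv⟩ := by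
      rw [Subtype.dist_eq, dist_eq_norm, dist_eq_norm]
      congr 1
      change c + (w : E) - y = (w : E) - (y - c)
      abel
    rw [e]
    exact hw

theorem mem_int_loc (hc : c ∈ F) (v : vectorSpan ℝ F) :
    v ∈ interior (loc F c) ↔ c + (v : E) ∈ ri F := by
  have hc' : c ∈ affineSpan ℝ F := subset_affineSpan ℝ F hc
  have key : ∀ w : vectorSpan ℝ F, c + (w : E) ∈ affineSpan ℝ F := by
    intro w
    have : (w : E) ∈ (affineSpan ℝ F).direction := by
      rw [direction_affineSpan]
      exact w.2
    have h2 := AffineSubspace.vadd_mem_of_mem_direction this hc'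
    rw [vadd_eq_add, add_comm] at h2
    exact h2
  rw [rin_ball, mem_interior_iff_mem_nhds, Metric.mem_nhds_iff]
  constructor
  · rintro ⟨r, hr, hb⟩
    refine ⟨key v, r, hr, fun z hz hd => ?_⟩
    have hv : z - c ∈ vectorSpan ℝ F := by
      have := AffineSubspace.vsub_mem_direction hz hc'
      rwa [direction_affineSpan] at this
    have hm : (⟨z - c, hv⟩ : vectorSpan ℝ F) ∈ Metric.ball v r := by
      rw [Metric.mem_ball, Subtype.dist_eq, dist_eq_norm]
      rw [dist_eq_norm] at hd
      have e : z - c - (v : E) = z - (c + (v : E)) := by abel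
      change ‖z - c - (v : E)‖ < r
      rw [e]
      exact hd
    have h3 := hb hm
    change c + (z - c) ∈ F at h3
    rwa [add_sub_cancel] at h3
  · rintro ⟨-, r, hr, h⟩
    refine ⟨r, hr, fun w hw => ?_⟩
    rw [Metric.mem_ball] at hw
    change c + (w : E) ∈ F
    apply h _ (key w)
    rw [dist_add_left]
    exact hw

theorem mem_ri_iff (hF : Convex ℝ F) :
    y ∈ ri F ↔ y ∈ F ∧ ∀ x ∈ F, ∃ t : ℝ, 0 < t ∧ y + t • (y - x) ∈ F := by
  constructor
  · intro hy
    have hyF : y ∈ F := intrinsicInterior_subset hy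
    refine ⟨hyF, fun x hx => ?_⟩
    rw [rin_ball] at hy
    obtain ⟨hya, r, hr, h⟩ := hy
    have hn : 0 < ‖y - x‖ + 1 := by positivity
    refine ⟨r / (2 * (‖y - x‖ + 1)), by positivity, h _ ?_ ?_⟩
    · have hd : y - x ∈ (affineSpan ℝ F).direction :=
        AffineSubspace.vsub_mem_direction hya (subset_affineSpan ℝ F hx)
      have h2 := AffineSubspace.vadd_mem_of_mem_direction
        ((affineSpan ℝ F).direction.smul_mem (r / (2 * (‖y - x‖ + 1))) hd) hya
      rw [vadd_eq_add, add_comm] at h2
      exact h2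
    · rw [dist_eq_norm, add_sub_cancel_left, norm_smul, Real.norm_eq_abs,
        abs_of_pos (by positivity)]
      rw [div_mul_eq_mul_div, div_lt_iff₀ (by positivity)]
      nlinarith [norm_nonneg (y - x)]
  · rintro ⟨hyF, h⟩
    obtain ⟨w, hw⟩ := loc_int_nonempty hF hyF
    have hwl0 : w ∈ loc F y := interior_subset hw
    have hwl : y + (w : E) ∈ F := hwl0
    obtain ⟨t, ht, htF⟩ := h _ hwl
    have h0 : (0 : vectorSpan ℝ F) ∈ interior (loc F y) := by
      have hm : (-(t • w) : vectorSpan ℝ F) ∈ loc F y := by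
        change y + ((-(t • w) : vectorSpan ℝ F) : E) ∈ F
        have e : y + ((-(t • w) : vectorSpan ℝ F) : E) = y + t • (y - (y + (w : E))) := by
          push_cast
          rw [sub_add_cancel_left, smul_neg]
        rw [e]
        exact htF
      have hc := (loc_convex hF y).combo_self_interior_mem_interior hm hw
        (a := 1 / (1 + t)) (b := t / (1 + t)) (by positivity) (by positivity) (by field_simp)
      have e : (1 / (1 + t)) • (-(t • w)) + (t / (1 + t)) • w = (0 : vectorSpan ℝ F) := by
        rw [smul_neg, smul_smul, neg_add_eq_sub, ← sub_smul]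
        have : t / (1 + t) - 1 / (1 + t) * t = 0 := by ring
        rw [this, zero_smul]
      rw [e] at hc
      exact hc
    have h1 := (mem_int_loc hyF (0 : vectorSpan ℝ F)).1 h0
    simpa using h1

theorem rb_eq (hF : IsClosed F) : rb F = F \ ri F := by
  unfold rb ri
  rw [← closure_sdiff_intrinsicInterior, hF.closure_eq]

end Pool.Agent.H40.PC
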