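import Pool.Agent.H40.PC.Rin

/-! # supporting functional at a point outside the relative interior (helper40) -/

namespace Pool.Agent.H40.PC

open Set Topology Pool.Agent.H61.PO

variable {E : Type*} [NormedAddCommGroup E] [NormedSpace ℝ E] [FiniteDimensional ℝ E]
  {F : Set E} {y : E}

/-- supporting functional at a point outside the relative interior (no compactness) -/
theorem exists_supp' (hF : Convex ℝ F) (hy : y ∈ F) (hn : y ∉ ri F) :
    ∃ η : E →L[ℝ] ℝ, Supp F η (η y) := by
  have h0 : (0 : vectorSpan ℝ F) ∉ interior (loc F y) := by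
    rw [mem_int_loc hy]
    simpa using hn
  obtain ⟨f, hf⟩ := geometric_hahn_banach_open_point (loc_convex hF y).interior
    isOpen_interior h0
  obtain ⟨w, hw⟩ := loc_int_nonempty hF hy
  have hle : ∀ v ∈ loc F y, f v ≤ 0 := by
    intro v hv
    have h1 : v ∈ closure (interior (loc F y)) := by
      rw [(loc_convex hF y).closure_interior_eq_closure_of_nonempty_interior ⟨w, hw⟩]
      exact subset_closure hv
    have h2 : closure (interior (loc F y)) ⊆ {v | f v ≤ 0} := by
      refine closure_minimal ?_ (isClosed_le f.continuous continuous_const)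
      intro a ha
      have h3 := hf a ha
      rw [map_zero] at h3
      exact h3.le
    exact h2 h1
  obtain ⟨η, hη, -⟩ := exists_extension_norm_eq (vectorSpan ℝ F) f
  have hwl : w ∈ loc F y := interior_subset hw
  refine ⟨η, fun x hx => ?_, y + w, hwl, ?_⟩
  · have h1 : x - y ∈ vectorSpan ℝ F := vsub_mem_vectorSpan ℝ hx hy
    have h2 : f ⟨x - y, h1⟩ ≤ 0 := hle _ (by
      show y + (x - y) ∈ F
      rwa [add_sub_cancel])
    rw [← hη ⟨x - y, h1⟩] at h2
    simp only [map_sub] at h2
    linarith
  · have h1 := hf w hw
    rw [map_zero, ← hη w] at h1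
    rw [map_add]
    linarith

end Pool.Agent.H40.PC
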