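import Pool.Agent.H40.PC.Min

/-!
# PC-09 faces of dimension one and two

* `edge_eq`: `vectorSpan ℝ F` is spanned by one `u ≠ 0` (`finrank_eq_one_iff'` or similar); take `φ : E →L[ℝ] ℝ` with `φ u = 1` (`SeparatingDual` or
  `exists_dual_vector`, or extension).  For `a, b ∈ F`: `a - b = (φ a - φ b) • u`.  Let `x` minimise and `y` maximise `φ` on the compact set `F`; every `z ∈ F` is
  `x + (φ z - φ x) • u`, so `F = segment x y`; `x = y` would give `F = {x}`, `dimc F = 0`.  `ext F ⊆ {x, y}`: `extremePoints_convexHull_subset` and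
  `convexHull_pair`; `x` is extreme: if `x` is in the open segment of `a, b ∈ F`, then `φ a, φ b ≥ φ x` so both are equal and `a = x`.
* `mface_two`: `mface F y` has dimension `≤ 1` (`mface_ne`, `face_dim_lt`); if `0` use `mface_zero`.
* `ext_card`: `dimc F = 0`: `F = {x}` (`dimc_zero`); `dimc F = 1`: `edge_eq`; `encard_pair`.
* `three_ext`: otherwise `ext F ⊆ {x, y}` for some `x, y`, `F = convexHull (ext F)` (`hull_ext`) has dimension `≤ 1` (`dimc_convexHull`, `dimc_insert`,
  `dimc_singleton`, `dimc_mono`).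
* `face_of_ext`: an edge of `K` is determined by its two extreme points: `hull_ext`.
* `edge_coord`: `φ x ≠ φ y` for some `φ` (`SeparatingDual.exists_separating_of_ne` or similar), up to sign `φ x < φ y`; `φ (x + t (y - x)) = φ x + t (φ y - φ x)`.
-/

namespace Pool.Agent.H40.PC

open Set Pool.Agent.H61.PO

variable {E : Type*} [NormedAddCommGroup E] [NormedSpace ℝ E] [FiniteDimensional ℝ E]
  {K F G e : Set E} {x y : E}

omit [FiniteDimensional ℝ E] in
theorem two_ext_min {φ : E →L[ℝ] ℝ} (hi : InjOn φ F) (hx : x ∈ F)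
    (h : ∀ z ∈ F, φ x ≤ φ z) : x ∈ extremePoints ℝ F := by
  refine ⟨hx, ?_⟩
  rintro a ha b hb ⟨s, t, hs, ht, hst, hab⟩
  have h1 : φ x = s * φ a + t * φ b := by
    rw [← hab]
    simp [map_add, map_smul]
  have h2 := h a ha
  have h3 := h b hb
  have h4 : φ a = φ x := by
    have e : s * (φ a - φ x) + t * (φ b - φ x) = 0 := by
      have : s * (φ a - φ x) + t * (φ b - φ x) = s * φ a + t * φ b - (s + t) * φ x := by ring
      rw [this, hst, ← h1]; ring
    have e1 : 0 ≤ s * (φ a - φ x) := mul_nonneg hs.le (by linarith)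
    have e2 : 0 ≤ t * (φ b - φ x) := mul_nonneg ht.le (by linarith)
    have e3 : s * (φ a - φ x) = 0 := by linarith
    rcases mul_eq_zero.1 e3 with e4 | e4
    · exact absurd e4 hs.ne'
    · linarith
  exact hi ha hx h4

theorem edge_eq (hF : Body F) (hd : dimc F = 1) :
    ∃ x y, x ≠ y ∧ F = segment ℝ x y ∧ extremePoints ℝ F = {x, y} := by
  obtain ⟨u, hu0, hu⟩ := (finrank_eq_one_iff' (K := ℝ) (V := vectorSpan ℝ F)).1 hd
  have hu0' : (u : E) ≠ 0 := fun h => hu0 (Subtype.ext h)
  obtain ⟨φ, hφ⟩ := SeparatingDual.exists_eq_one (R := ℝ) hu0'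
  have key : ∀ a ∈ F, ∀ b ∈ F, a = b + (φ a - φ b) • (u : E) := by
    intro a ha b hb
    obtain ⟨c, hc⟩ := hu ⟨a -ᵥ b, vsub_mem_vectorSpan ℝ ha hb⟩
    have h1 : c • (u : E) = a - b := congrArg Subtype.val hc
    have h2 : c = φ a - φ b := by
      have := congrArg φ h1
      rw [map_smul, map_sub, hφ] at this
      simpa using this
    rw [← h2, h1]
    abel
  have hinj : InjOn φ F := by
    intro a ha b hb hab
    have := key a ha b hb
    rw [this, hab]
    simp
  obtain ⟨x, hxF, hx⟩ := hF.2.1.exists_isMinOn hF.2.2 φ.continuous.continuousOn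
  obtain ⟨y, hyF, hy⟩ := hF.2.1.exists_isMaxOn hF.2.2 φ.continuous.continuousOn
  have hx' : ∀ z ∈ F, φ x ≤ φ z := fun z hz => hx hz
  have hy' : ∀ z ∈ F, φ z ≤ φ y := fun z hz => hy hz
  have hxy : φ x < φ y := by
    rcases lt_or_eq_of_le (hx' y hyF) with h | h
    · exact h
    · exfalso
      have hs : F = {x} := by
        ext z
        constructor
        · intro hz
          exact hinj hz hxF (le_antisymm ((hy' z hz).trans h.ge) (hx' z hz))
        · intro hz
          rw [mem_singleton_iff.1 hz]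
          exact hxF
      rw [hs, dimc_singleton] at hd
      exact zero_ne_one hd
  have hne : x ≠ y := fun h => by rw [h] at hxy; exact lt_irrefl _ hxy
  have hseg : F = segment ℝ x y := by
    apply Subset.antisymm
    · intro z hz
      rw [segment_eq_image']
      have hpos : 0 < φ y - φ x := by linarith
      refine ⟨(φ z - φ x) / (φ y - φ x), ⟨div_nonneg (by linarith [hx' z hz]) hpos.le,
        (div_le_one hpos).2 (by linarith [hy' z hz])⟩, ?_⟩
      have e1 := key z hz x hxF
      have e2 := key y hyF x hxF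
      have e3 : y - x = (φ y - φ x) • (u : E) := by
        nth_rewrite 1 [e2]
        abel
      show x + ((φ z - φ x) / (φ y - φ x)) • (y - x) = z
      rw [e3, smul_smul, div_mul_cancel₀ _ hpos.ne']
      exact e1.symm
    · exact hF.1.segment_subset hxF hyF
  refine ⟨x, y, hne, hseg, ?_⟩
  apply Subset.antisymm
  · have h := extremePoints_convexHull_subset (𝕜 := ℝ) (A := ({x, y} : Set E))
    rw [convexHull_pair, ← hseg] at h
    exact h
  · intro z hz
    rcases hz with rfl | hz
    · exact two_ext_min hinj hxF hx'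
    · rw [mem_singleton_iff.1 hz]
      have hinj' : InjOn (-φ) F := by
        intro a ha b hb hab
        exact hinj ha hb (neg_injective hab)
      exact two_ext_min (φ := -φ) hinj' hyF (fun w hw => neg_le_neg (hy' w hw))


theorem mface_two (hF : Body F) (hd : dimc F = 2) (hy : y ∈ rb F) :
    (mface F y = {y} ∧ y ∈ extremePoints ℝ F) ∨ dimc (mface F y) = 1 := by
  have hyF : y ∈ F := rb_sub hF hy
  have hfa := mface_isFace hF hyF
  have hlt := face_dim_lt hF hfa (mface_ne hF hy)
  rw [hd] at hlt
  rcases Nat.eq_zero_or_pos (dimc (mface F y)) with h | h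
  · exact Or.inl (mface_zero hF hyF h)
  · exact Or.inr (by omega)


theorem ext_card (hF : Body F) (hd : dimc F ≤ 1) : (extremePoints ℝ F).encard ≤ 2 := by
  rcases Nat.eq_zero_or_pos (dimc F) with h | h
  · obtain ⟨x, hx⟩ := dimc_zero h hF.2.2
    have h1 : extremePoints ℝ F ⊆ {x} := hx ▸ extremePoints_subset
    calc (extremePoints ℝ F).encard ≤ ({x} : Set E).encard := encard_le_encard h1
      _ = 1 := encard_singleton x
      _ ≤ 2 := by norm_num
  · obtain ⟨x, y, hxy, _, he⟩ := edge_eq hF (by omega)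
    rw [he, encard_pair hxy]


theorem three_ext (hF : Body F) (hd : 2 ≤ dimc F) : 3 ≤ (extremePoints ℝ F).encard := by
  have d0 : ∀ x : E, dimc ({x} : Set E) = 0 := fun x => dimc_singleton x
  have d1 : ∀ x y : E, dimc (segment ℝ x y) ≤ 1 := by
    intro x y
    rw [← convexHull_pair, dimc_convexHull]
    have h := dimc_insert ({y} : Set E) x
    rw [d0] at h
    exact h
  obtain ⟨x, hx, -⟩ := exists_ext_not_mem hF (convex_empty (𝕜 := ℝ)) (fun h => by
    obtain ⟨z, hz⟩ := hF.2.2
    exact h hz)
  obtain ⟨y, hy, hyx⟩ := exists_ext_not_mem hF (convex_singleton x) (fun h => by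
    have := dimc_mono h
    rw [d0] at this
    omega)
  obtain ⟨z, hz, hzs⟩ := exists_ext_not_mem hF (convex_segment x y) (fun h => by
    have := dimc_mono h
    have := d1 x y
    omega)
  have hyx' : x ≠ y := fun h => hyx (by rw [h]; rfl)
  have hzx : z ≠ x := fun h => hzs (by rw [h]; exact left_mem_segment ℝ x y)
  have hzy : z ≠ y := fun h => hzs (by rw [h]; exact right_mem_segment ℝ x y)
  have hsub : ({z, x, y} : Set E) ⊆ extremePoints ℝ F := by
    rintro w (rfl | rfl | hw)
    · exact hz
    · exact hx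
    · rw [mem_singleton_iff.1 hw]
      exact hy
  have hcard : ({z, x, y} : Set E).encard = 3 := by
    rw [encard_insert_of_notMem (by
      rintro (h | h)
      · exact hzx h
      · exact hzy h), encard_pair hyx']
    norm_num
  rw [← hcard]
  exact encard_le_encard hsub


theorem face_of_ext (hF : IsFace K F) (hG : IsFace K G)
    (h : F ∩ extremePoints ℝ K = G ∩ extremePoints ℝ K) : F = G := by
  rw [← hull_ext hF.body, ← hull_ext hG.body, ext_face hF, ext_face hG, h]


omit [FiniteDimensional ℝ E] in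
theorem edge_coord (h : x ≠ y) : ∃ φ : E →L[ℝ] ℝ, φ x < φ y ∧ InjOn φ (segment ℝ x y) := by
  have h0 : y - x ≠ 0 := sub_ne_zero.2 (Ne.symm h)
  obtain ⟨φ, hφ⟩ := SeparatingDual.exists_eq_one (R := ℝ) h0
  have h1 : φ y - φ x = 1 := by rw [← map_sub]; exact hφ
  refine ⟨φ, by linarith, ?_⟩
  rw [segment_eq_image']
  rintro _ ⟨a, _, rfl⟩ _ ⟨b, _, rfl⟩ hab
  have h2 : φ x + a * 1 = φ x + b * 1 := by
    have := hab
    simp only [map_add, map_smul, smul_eq_mul, hφ] at this
    exact this
  have h3 : a = b := by linarith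
  rw [h3]


end Pool.Agent.H40.PC
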